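import Pool.Agent.H38.SR.Stm

/-!
# Scholz-Reichardt (MP_a3214d, T4, block S), row SR-I6: base change
-/

set_option autoImplicit false

open scoped BigOperators Pointwise
open NumberField IsDedekindDomain

namespace Pool.Agent.H38.SR

open Pool.Agent.H98.MF (Om Gm ord Dec top nrm)
open Pool.Agent.EX (Occ)

/-- an open subgroup of a profinite group contains an open normal subgroup -/
theorem bc_normal (K : Type) [Field K] [NumberField K] (U : Subgroup (Gm K))
    (hU : IsOpen (U : Set (Gm K))) :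
    ∃ V : Subgroup (Gm K), V.Normal ∧ IsOpen (V : Set (Gm K)) ∧ V ≤ U := by
  obtain ⟨N, hN⟩ := ProfiniteGrp.exist_openNormalSubgroup_sub_open_nhds_of_one hU U.one_mem
  exact ⟨N.toSubgroup, N.isNormal', N.isOpen', hN⟩

/-- base change -/
theorem sbc (h1 : SXt1) (hm : SMai) : SBc := by
  intro k _ _ l _ hl E _ _ hE
  obtain ⟨X⟩ := h1 ℚ k
  have hop : IsOpen (X.Th.range : Set (Gm ℚ)) := by
    rw [MonoidHom.coe_range]
    exact X.emb.isOpen_range
  obtain ⟨V, hV, hVo, hVU⟩ := bc_normal ℚ X.Th.range hop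
  obtain ⟨ρ, hlc, hs⟩ := hm l hl E hE V hV hVo
  refine ⟨ρ.comp X.Th, ?_, ?_⟩
  · intro e
    obtain ⟨v, hv, hve⟩ := hs e
    obtain ⟨σ, hσ⟩ := hVU hv
    exact ⟨σ, by rw [MonoidHom.comp_apply, hσ, hve]⟩
  · have h : (⇑(ρ.comp X.Th) : Gm k → E) = ρ ∘ X.Th := rfl
    rw [h]
    exact hlc.comp_continuous X.emb.continuous

end Pool.Agent.H38.SR
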