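import Pool.Agent.H38.SR.Stm

/-!
# Scholz-Reichardt (MP_a3214d, T4, block S), row SR-R9: characters of prime conductor (helper21)
-/

set_option autoImplicit false

open scoped BigOperators Pointwise
open NumberField IsDedekindDomain

namespace Pool.Agent.H38.SR

open Pool.Agent.H98.MF (Om Gm ord Dec top nrm)

/-- homomorphisms determined by the image of one element are locally constant -/
theorem ch_lc {k : Type} [Field k] {X : Type} [Group X] (θ : Gm k →* X) (ζ : Om k)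
    (h : ∀ σ τ : Gm k, σ ζ = τ ζ → θ σ = θ τ) : IsLocallyConstant θ := by
  have hint : IsIntegral k ζ := Algebra.IsIntegral.isIntegral ζ
  haveI : FiniteDimensional k (IntermediateField.adjoin k {ζ}) :=
    IntermediateField.adjoin.finiteDimensional hint
  have hop := IntermediateField.fixingSubgroup_isOpen (IntermediateField.adjoin k {ζ})
  have hmem : ∀ σ ∈ (IntermediateField.adjoin k {ζ}).fixingSubgroup, σ ζ = ζ := fun σ hσ =>
    hσ ⟨ζ, IntermediateField.mem_adjoin_simple_self k ζ⟩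
  rw [IsLocallyConstant.iff_exists_open]
  intro σ
  refine ⟨(fun τ => σ⁻¹ * τ) ⁻¹' ((IntermediateField.adjoin k {ζ}).fixingSubgroup :
    Set (Gm k)), hop.preimage (continuous_const.mul continuous_id), ?_, ?_⟩
  · show σ⁻¹ * σ ∈ (IntermediateField.adjoin k {ζ}).fixingSubgroup
    rw [inv_mul_cancel]
    exact one_mem _
  · intro τ hτ
    apply h
    have h1 : (σ⁻¹ * τ) ζ = ζ := hmem _ hτ
    have h2 := congrArg σ h1
    rw [← AlgEquiv.mul_apply, mul_inv_cancel_left] at h2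
    exact h2

/-- primitive roots of unity are conjugate if the cyclotomic polynomial is irreducible -/
theorem ch_conj {k : Type} [Field k] {n : ℕ} [NeZero (n : k)]
    (h : Irreducible (Polynomial.cyclotomic n k)) (ζ ζ' : Om k) (hζ : IsPrimitiveRoot ζ n)
    (hζ' : IsPrimitiveRoot ζ' n) : ∃ σ : Gm k, σ ζ = ζ' := by
  have h1 : IsConjRoot k ζ' ζ := by
    rw [isConjRoot_def, ← hζ.minpoly_eq_cyclotomic_of_irreducible h,
      ← hζ'.minpoly_eq_cyclotomic_of_irreducible h]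
  obtain ⟨σ, hσ⟩ := isConjRoot_iff_exists_algEquiv.1 h1
  exact ⟨σ, hσ⟩

theorem sch (h5 : SRu) (h6 : SPq) (h7 : STt) : SCh := by
  intro P m _ hm
  set p := nrm P with hp
  have hpp : p.Prime := h6.1 P
  haveI : Fact p.Prime := ⟨hpp⟩
  haveI : NeZero p := ⟨hpp.ne_zero⟩
  haveI : NeZero ((p : ℕ) : ℚ) := ⟨Nat.cast_ne_zero.2 hpp.ne_zero⟩
  haveI : NeZero ((p : ℕ) : Om ℚ) := ⟨Nat.cast_ne_zero.2 hpp.ne_zero⟩
  obtain ⟨ζ, hζ⟩ := HasEnoughRootsOfUnity.exists_primitiveRoot (Om ℚ) p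
  set cyc : Gm ℚ →* (ZMod p)ˣ := hζ.autToPow ℚ with hcyc
  have hspec : ∀ σ : Gm ℚ, ζ ^ ((cyc σ : (ZMod p)ˣ) : ZMod p).val = σ ζ := fun σ =>
    hζ.autToPow_spec ℚ σ
  have hinj : ∀ σ τ : Gm ℚ, σ ζ = τ ζ → cyc σ = cyc τ := by
    intro σ τ h
    rw [← hspec σ, ← hspec τ] at h
    have h1 := hζ.pow_inj (ZMod.val_lt _) (ZMod.val_lt _) h
    exact Units.ext (ZMod.val_injective p h1)
  -- surjectivity
  have hsurj : ∀ g : (ZMod p)ˣ, ∃ σ : Gm ℚ, cyc σ = g := by
    intro g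
    have hco : Nat.Coprime (g : ZMod p).val p := ZMod.val_coe_unit_coprime g
    have hζ' : IsPrimitiveRoot (ζ ^ (g : ZMod p).val) p := hζ.pow_of_coprime _ hco
    obtain ⟨σ, hσ⟩ := ch_conj (Polynomial.cyclotomic.irreducible_rat hpp.pos) ζ _ hζ hζ'
    refine ⟨σ, ?_⟩
    have h2 := hspec σ
    rw [hσ] at h2
    exact Units.ext (ZMod.val_injective p (hζ.pow_inj (ZMod.val_lt _) (ZMod.val_lt _) h2))
  -- the discrete logarithm
  have hcard : Nat.card (ZMod p)ˣ = p - 1 := by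
    rw [Nat.card_eq_fintype_card, ZMod.card_units]
  have hm' : m ∣ Nat.card (ZMod p)ˣ := hcard ▸ hm
  obtain ⟨θ, g, hθg⟩ : ∃ (θ : (ZMod p)ˣ →* Multiplicative (ZMod m)) (g : (ZMod p)ˣ),
      θ g = Multiplicative.ofAdd 1 := by
    refine ⟨(AddMonoidHom.toMultiplicative (ZMod.castHom hm' (ZMod m)).toAddMonoidHom).comp
      (zmodCyclicMulEquiv (inferInstance : IsCyclic (ZMod p)ˣ)).symm.toMonoidHom,
      zmodCyclicMulEquiv (inferInstance : IsCyclic (ZMod p)ˣ) (Multiplicative.ofAdd 1), ?_⟩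
    rw [MonoidHom.comp_apply]
    show AddMonoidHom.toMultiplicative (ZMod.castHom hm' (ZMod m)).toAddMonoidHom
      ((zmodCyclicMulEquiv (inferInstance : IsCyclic (ZMod p)ˣ)).symm
        (zmodCyclicMulEquiv (inferInstance : IsCyclic (ZMod p)ˣ) (Multiplicative.ofAdd 1))) = _
    rw [MulEquiv.symm_apply_apply]
    show Multiplicative.ofAdd (ZMod.castHom hm' (ZMod m) 1) = _
    rw [map_one]
  refine ⟨fun σ => Multiplicative.toAdd (θ (cyc σ)), ⟨?_, ?_⟩, ?_, ?_⟩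
  · have h1 : IsLocallyConstant (θ.comp cyc) := ch_lc (θ.comp cyc) ζ fun σ τ h => by
      rw [MonoidHom.comp_apply, MonoidHom.comp_apply, hinj σ τ h]
    exact h1.comp Multiplicative.toAdd
  · intro σ τ
    show Multiplicative.toAdd (θ (cyc (σ * τ))) = _
    rw [map_mul, map_mul, toAdd_mul]
  · obtain ⟨σ, hσ⟩ := hsurj g
    obtain ⟨τ, hτ, hτσ⟩ := h7 P ζ hζ σ
    refine ⟨τ, hτ, ?_⟩
    show Multiplicative.toAdd (θ (cyc τ)) = 1
    rw [hinj τ σ hτσ, hσ, hθg]
    rfl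
  · intro Q hQ τ hτ
    have hco : Nat.Coprime p (nrm Q) :=
      (Nat.coprime_primes hpp (h6.1 Q)).2 fun h => hQ (h6.2.1 Q P h.symm)
    have h1 : τ ζ = ζ := (h5 ℚ Q p ζ hζ.pow_eq_one hco).1 τ hτ
    show Multiplicative.toAdd (θ (cyc τ)) = 0
    rw [hinj τ 1 h1, map_one, map_one]
    rfl

end Pool.Agent.H38.SR
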