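import Pool.Agent.H38.SR.Stm

/-!
# Scholz-Reichardt (MP_a3214d, T4, block S), row H2: conjugation of coboundaries
-/

set_option autoImplicit false

namespace Pool.Agent.H38.SR

/-- H2: conjugation -/
theorem scj : SCj := by
  intro Γ _ _ _ l α hα g D D' hD hC
  obtain ⟨f, hf, hfa⟩ := hC
  have hc : Continuous fun σ : Γ => g⁻¹ * σ * g := by fun_prop
  have h1 : IsLocallyConstant fun σ : Γ => f (g⁻¹ * σ * g) := hf.comp_continuous hc
  have h2 : IsLocallyConstant fun σ : Γ => α g (g⁻¹ * σ * g) :=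
    hα.lc.comp_continuous (f := fun σ : Γ => (g, g⁻¹ * σ * g)) (by fun_prop)
  have h3 : IsLocallyConstant fun σ : Γ => α σ g :=
    hα.lc.comp_continuous (f := fun σ : Γ => (σ, g)) (by fun_prop)
  refine ⟨fun σ => f (g⁻¹ * σ * g) + α g (g⁻¹ * σ * g) - α σ g, (h1.add h2).sub h3,
    fun σ hσ τ hτ => ?_⟩
  have h4 := hfa _ (hD σ hσ) _ (hD τ hτ)
  have e1 : g⁻¹ * σ * g * (g⁻¹ * τ * g) = g⁻¹ * (σ * τ) * g := by group
  have e2 : g * (g⁻¹ * τ * g) = τ * g := by group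
  have e3 : g * (g⁻¹ * σ * g) = σ * g := by group
  have c1 := hα.cc σ τ g
  have c2 := hα.cc σ g (g⁻¹ * τ * g)
  have c3 := hα.cc g (g⁻¹ * σ * g) (g⁻¹ * τ * g)
  rw [e2] at c2
  rw [e3, e1] at c3
  rw [e1] at h4
  dsimp only
  rw [h4]
  linear_combination -c3 + c2 - c1

end Pool.Agent.H38.SR
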