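import Pool.Agent.H38.SR.Stm

/-!
# Scholz-Reichardt (MP_a3214d, T4, block S): cocycles of a cyclic group (row SR-H4)
-/

set_option autoImplicit false

open scoped BigOperators Pointwise
open NumberField IsDedekindDomain

namespace Pool.Agent.H38.SR

open Pool.Agent.H98.MF (Om Gm ord Dec top nrm)

section

variable {l : ℕ} [Fact l.Prime] {K : Type} [Field K] [NumberField K]

/-- powers of an element with value one -/
private theorem cyc_pow {χ : Gm K → ZMod l} (hχ : HmZ l χ) {s : Gm K} (hs : χ s = 1) (i : ℕ) :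
    χ (s ^ i) = i := by
  have h1 : χ 1 = 0 := by
    have h := hχ.add 1 1
    rw [mul_one] at h
    exact left_eq_add.1 h
  induction i with
  | zero => rw [pow_zero, h1, Nat.cast_zero]
  | succ i ih => rw [pow_succ, hχ.add, ih, hs, Nat.cast_succ]

private theorem cyc_one {χ : Gm K → ZMod l} (hχ : HmZ l χ) : χ 1 = 0 := by
  have h := hχ.add 1 1
  rw [mul_one] at h
  exact left_eq_add.1 h

private theorem cyc_inv {χ : Gm K → ZMod l} (hχ : HmZ l χ) (x : Gm K) : χ x⁻¹ = -χ x := by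
  have h := hχ.add x x⁻¹
  rw [mul_inv_cancel, cyc_one hχ] at h
  exact (neg_eq_of_add_eq_zero_right h.symm).symm

end

/-- H4: cocycles of a cyclic group -/
theorem scyc : SCyc := by
  intro l _ K _ _ χ hχ ⟨s, hs⟩ c hc0 hc11 hcc hcH
  have hl : 0 < l := (Fact.out : l.Prime).pos
  haveI : NeZero l := ⟨hl.ne'⟩
  have hsi := cyc_pow hχ hs
  -- normalisation
  have h1w : ∀ w, c 1 w = 1 := by
    intro w
    have h := hcc 1 1 w
    rw [hc11, mul_one, one_mul, one_mul, AlgEquiv.one_apply] at h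
    exact mul_right_cancel₀ (hc0 1 w) (by rw [one_mul]; exact h.symm)
  have hx1 : ∀ x, c x 1 = 1 := by
    intro x
    have h := hcc x 1 1
    rw [hc11, mul_one, mul_one, map_one, one_mul] at h
    exact mul_right_cancel₀ (hc0 x 1) (by rw [one_mul]; exact h)
  -- the products
  obtain ⟨γ, hγ⟩ : ∃ γ : ℕ → Om K, γ = fun i => ∏ j ∈ Finset.range i, c (s ^ j) s := ⟨_, rfl⟩
  have hγ0 : γ 0 = 1 := by rw [hγ]; exact Finset.prod_range_zero _
  have hγs : ∀ i, γ (i + 1) = γ i * c (s ^ i) s := by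
    intro i
    rw [hγ]
    exact Finset.prod_range_succ _ _
  have hγn : ∀ i, γ i ≠ 0 := by
    intro i
    rw [hγ]
    exact Finset.prod_ne_zero_iff.2 fun j _ => hc0 _ _
  have hind : ∀ i j, c (s ^ i) (s ^ j) * γ i * (s ^ i) (γ j) = γ (i + j) := by
    intro i j
    induction j with
    | zero => rw [pow_zero, hx1, hγ0, map_one, one_mul, mul_one, add_zero]
    | succ j ih =>
      have h := hcc (s ^ i) (s ^ j) s
      rw [← pow_add, ← pow_succ] at h
      rw [hγs j, map_mul, ← add_assoc, hγs (i + j), ← ih]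
      calc c (s ^ i) (s ^ (j + 1)) * γ i * ((s ^ i) (γ j) * (s ^ i) (c (s ^ j) s))
          = ((s ^ i) (c (s ^ j) s) * c (s ^ i) (s ^ (j + 1))) * γ i * (s ^ i) (γ j) := by ring
        _ = (c (s ^ i) (s ^ j) * c (s ^ (i + j)) s) * γ i * (s ^ i) (γ j) := by rw [← h]
        _ = c (s ^ i) (s ^ j) * γ i * (s ^ i) (γ j) * c (s ^ (i + j)) s := by ring
  -- elements of the kernel
  have hfix : ∀ h : Gm K, χ h = 0 → ∀ j, h (γ j) = γ j := by
    intro h hh j
    rw [hγ]
    simp only [map_prod]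
    exact Finset.prod_congr rfl fun i _ => (hcH _ _ h hh).2.2
  have hdec : ∀ x : Gm K, ∃ h : Gm K, χ h = 0 ∧ x = h * s ^ (χ x).val := by
    intro x
    refine ⟨x * (s ^ (χ x).val)⁻¹, ?_, by group⟩
    rw [hχ.add, cyc_inv hχ, hsi, ZMod.natCast_zmod_val, add_neg_cancel]
  have hcon : ∀ (x h : Gm K), χ h = 0 → χ (x⁻¹ * h * x) = 0 := by
    intro x h hh
    rw [hχ.add, hχ.add, cyc_inv hχ, hh, add_zero, neg_add_cancel]
  have hact : ∀ (x : Gm K) (j : ℕ), x (γ j) = (s ^ (χ x).val) (γ j) := by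
    intro x j
    obtain ⟨h, hh, hx⟩ := hdec x
    obtain ⟨i, hi⟩ : ∃ i, i = (χ x).val := ⟨_, rfl⟩
    rw [← hi] at hx ⊢
    have h1 : h * s ^ i = s ^ i * ((s ^ i)⁻¹ * h * s ^ i) := by group
    rw [hx, h1, AlgEquiv.mul_apply, hfix _ (hcon _ _ hh)]
  have hred : ∀ x y, c x y = c (s ^ (χ x).val) (s ^ (χ y).val) := by
    intro x y
    obtain ⟨h, hh, hx⟩ := hdec x
    obtain ⟨h', hh', hy⟩ := hdec y
    obtain ⟨i, hi⟩ : ∃ i, i = (χ x).val := ⟨_, rfl⟩
    obtain ⟨j, hj⟩ : ∃ j, j = (χ y).val := ⟨_, rfl⟩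
    rw [← hi] at hx ⊢
    rw [← hj] at hy ⊢
    rw [hx, hy, (hcH _ _ h hh).1, (hcH _ _ h' hh').2.1]
  have hsl : χ (s ^ l) = 0 := by rw [hsi, ZMod.natCast_self]
  have hslc : ∀ y, c (s ^ l) y = 1 := by
    intro y
    have h := (hcH 1 y (s ^ l) hsl).1
    rw [mul_one] at h
    rw [h, h1w]
  have hadd : ∀ k, γ (k + l) = γ k * γ l := by
    intro k
    have h := hind l k
    rw [hslc, one_mul, hfix _ hsl] at h
    rw [add_comm k l, ← h, mul_comm]
  -- the value
  have hγ1 : γ 1 = 1 := by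
    have h := hγs 0
    rw [zero_add, hγ0, pow_zero, h1w, one_mul] at h
    exact h
  have hsγ : s (γ l) = γ l := by
    have h := hind 1 l
    rw [pow_one, hγ1, mul_one, add_comm 1 l, hγs l, hslc, mul_one] at h
    have h2 : c s (s ^ l) = 1 := by
      have h3 := (hcH s 1 (s ^ l) hsl).2.1
      rw [mul_one] at h3
      rw [h3, hx1]
    rw [h2, one_mul] at h
    exact h
  have hspow : ∀ i : ℕ, (s ^ i) (γ l) = γ l := by
    intro i
    induction i with
    | zero => rw [pow_zero, AlgEquiv.one_apply]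
    | succ i ih => rw [pow_succ, AlgEquiv.mul_apply, hsγ, ih]
  have hall : ∀ x : Gm K, x (γ l) = γ l := by
    intro x
    rw [hact x l, hspow]
  obtain ⟨b, hb⟩ := (InfiniteGalois.mem_range_algebraMap_iff_fixed (γ l)).2 hall
  have hbn : b ≠ 0 := by
    rintro rfl
    rw [map_zero] at hb
    exact hγn l hb.symm
  refine ⟨Units.mk0 b hbn, fun x => (γ (χ x).val)⁻¹, fun x => inv_ne_zero (hγn _), ?_, ?_⟩
  · intro x h hh
    show (γ (χ (h * x)).val)⁻¹ = _
    rw [hχ.add, hh, zero_add]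
  · intro x y
    show c x y * (γ (χ (x * y)).val)⁻¹ = (γ (χ x).val)⁻¹ * x (γ (χ y).val)⁻¹ *
      (if l ≤ (χ x).val + (χ y).val then algebraMap K (Om K) (Units.mk0 b hbn : Kˣ) else 1)
    rw [hred x y, map_inv₀, hact x]
    have hi := hind (χ x).val (χ y).val
    have hn1 := hγn (χ x).val
    have hn2 : (s ^ (χ x).val) (γ (χ y).val) ≠ 0 := by
      intro h
      exact hγn (χ y).val ((map_eq_zero_iff _ (s ^ (χ x).val).injective).1 h)
    have hk : (χ (x * y)).val = ((χ x).val + (χ y).val) % l := by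
      rw [hχ.add, ZMod.val_add]
    have hx := ZMod.val_lt (χ x)
    have hy := ZMod.val_lt (χ y)
    by_cases hle : l ≤ (χ x).val + (χ y).val
    · rw [if_pos hle, Units.val_mk0, hb]
      have hk2 : (χ x).val + (χ y).val = (χ (x * y)).val + l := by
        rw [hk, Nat.mod_eq_sub_mod hle, Nat.mod_eq_of_lt (by omega)]
        omega
      rw [hk2, hadd] at hi
      have hn3 := hγn (χ (x * y)).val
      field_simp
      rw [← hi]
    · rw [if_neg hle]
      have hk2 : (χ x).val + (χ y).val = (χ (x * y)).val := by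
        rw [hk, Nat.mod_eq_of_lt (by omega)]
      rw [hk2] at hi
      have hn3 := hγn (χ (x * y)).val
      field_simp
      rw [← hi]

end Pool.Agent.H38.SR
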