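import Pool.Agent.H38.SR.Stm

/-!
# Scholz-Reichardt (MP_a3214d, T4, block S): descent from a subgroup of index prime to `l`
-/

set_option autoImplicit false

open scoped BigOperators Topology
open Filter

namespace Pool.Agent.H38.SR

section

variable {Γ : Type} [Group Γ] {l : ℕ} (N : Subgroup Γ) {A : Γ → Γ → ZMod l}
  (cc : ∀ x y w, A x y + A (x * y) w = A y w + A x (y * w))

include cc in
private theorem dsc_inv (h0 : ∀ n ∈ N, ∀ g, A n g = 0) (x y h : Γ) (hxy : y * x⁻¹ ∈ N) :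
    A y h = A x h := by
  have h1 := cc (y * x⁻¹) x h
  rw [h0 _ hxy, h0 _ hxy, zero_add, add_zero, inv_mul_cancel_right] at h1
  exact h1

include cc in
private theorem dsc_sum [Fintype (Γ ⧸ N)] (h0 : ∀ n ∈ N, ∀ g, A n g = 0) (g h : Γ) :
    (∑ q : Γ ⧸ N, A (q.out)⁻¹ g) + ∑ q : Γ ⧸ N, A (q.out)⁻¹ h =
      (Fintype.card (Γ ⧸ N) : ZMod l) * A g h + ∑ q : Γ ⧸ N, A (q.out)⁻¹ (g * h) := by
  have h1 : ∑ q : Γ ⧸ N, A (q.out)⁻¹ h = ∑ q : Γ ⧸ N, A ((q.out)⁻¹ * g) h := by
    rw [← Equiv.sum_comp (MulAction.toPerm g⁻¹ : Equiv.Perm (Γ ⧸ N))]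
    refine Finset.sum_congr rfl fun q _ => ?_
    apply dsc_inv N cc h0
    have h2 : (((g⁻¹ • q : Γ ⧸ N).out : Γ) : Γ ⧸ N) = ((g⁻¹ * q.out : Γ) : Γ ⧸ N) := by
      rw [QuotientGroup.out_eq']
      conv_lhs => rw [← QuotientGroup.out_eq' q]
      rfl
    rw [QuotientGroup.eq] at h2
    show ((g⁻¹ • q : Γ ⧸ N).out)⁻¹ * ((q.out)⁻¹ * g)⁻¹ ∈ N
    rw [mul_inv_rev, inv_inv]
    exact h2
  rw [h1, ← Finset.sum_add_distrib, Finset.sum_congr rfl fun q _ => cc (q.out)⁻¹ g h,
    Finset.sum_add_distrib, Finset.sum_const, Finset.card_univ, nsmul_eq_mul]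

end

section

variable {Γ : Type} [Group Γ] (N : Subgroup Γ)

open Classical in
/-- representatives of the right cosets -/
private noncomputable def dscS (x : Γ) : Γ :=
  if x ∈ N then 1 else (((x⁻¹ : Γ) : Γ ⧸ N).out)⁻¹

private theorem dscS_mem (x : Γ) : x * (dscS N x)⁻¹ ∈ N := by
  unfold dscS
  split_ifs with h
  · rw [inv_one, mul_one]
    exact h
  · rw [inv_inv]
    have h2 : (((x⁻¹ : Γ) : Γ ⧸ N).out : Γ ⧸ N) = ((x⁻¹ : Γ) : Γ ⧸ N) := QuotientGroup.out_eq' _
    have h3 := QuotientGroup.eq.1 h2.symm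
    rwa [inv_inv] at h3

private theorem dscS_eq (n x : Γ) (hn : n ∈ N) : dscS N (n * x) = dscS N x := by
  unfold dscS
  rw [N.mul_mem_cancel_left hn]
  have h2 : (((n * x)⁻¹ : Γ) : Γ ⧸ N) = ((x⁻¹ : Γ) : Γ ⧸ N) := by
    rw [QuotientGroup.eq, inv_inv]
    have h3 : n * x * x⁻¹ = n := by group
    rw [h3]
    exact hn
  rw [h2]

private theorem dscS_one : dscS N 1 = 1 := by
  unfold dscS
  rw [if_pos N.one_mem]

end

theorem sdsc : SDsc := by
  classical
  intro Γ _ _ _ l _ N hN hi hl α hα hf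
  obtain ⟨f, hfl, hf⟩ := hf
  let _ : Fintype (Γ ⧸ N) := Subgroup.fintypeOfIndexNeZero hi
  set a0 : ZMod l := α 1 1 with ha0
  -- the normalised cocycle
  have h1 : ∀ x, α x 1 = a0 := fun x => by
    have h := hα.cc x 1 1
    rw [mul_one, mul_one] at h
    linear_combination h
  have h2 : ∀ w, α 1 w = a0 := fun w => by
    have h := hα.cc 1 1 w
    rw [one_mul, one_mul] at h
    linear_combination -h
  -- the extension of `f`
  set F : Γ → ZMod l := fun x => f (x * (dscS N x)⁻¹) + a0 +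
    (α (x * (dscS N x)⁻¹) (dscS N x) - a0) with hF
  have hF1 : ∀ n ∈ N, F n = f n + a0 := by
    intro n hn
    have h3 : dscS N n = 1 := by
      have h4 := dscS_eq N n 1 hn
      rwa [mul_one, dscS_one] at h4
    simp only [hF]
    rw [h3, inv_one, mul_one, h1]
    ring
  have hF2 : ∀ n ∈ N, ∀ g, F (n * g) = F n + F g + (α n g - a0) := by
    intro n hn g
    rw [hF1 n hn]
    simp only [hF]
    rw [dscS_eq N n g hn]
    set s := dscS N g with hs
    have hm : g * s⁻¹ ∈ N := dscS_mem N g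
    have e1 : n * g * s⁻¹ = n * (g * s⁻¹) := mul_assoc _ _ _
    have h3 := hf n hn (g * s⁻¹) hm
    have h4 := hα.cc n (g * s⁻¹) s
    rw [inv_mul_cancel_right] at h4
    rw [e1, h3]
    linear_combination h4
  have hFl : ∀ x, ∀ᶠ y in 𝓝 x, F y = F x := by
    intro x
    have h3 : ∀ᶠ y in 𝓝 x, y * x⁻¹ ∈ N := by
      have h4 : Continuous fun y : Γ => y * x⁻¹ := continuous_mul_const _
      have h5 := h4.continuousAt.preimage_mem_nhds (x := x) (t := (N : Set Γ))
        (hN.mem_nhds (by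
          show x * x⁻¹ ∈ N
          rw [mul_inv_cancel]
          exact N.one_mem))
      exact h5
    set s := dscS N x with hs
    have h4 : Continuous fun y : Γ => y * s⁻¹ := continuous_mul_const _
    have h5 : ∀ᶠ y in 𝓝 x, f (y * s⁻¹) = f (x * s⁻¹) :=
      (IsLocallyConstant.iff_eventually_eq _).1 (hfl.comp_continuous h4) x
    have h6 : ∀ᶠ y in 𝓝 x, α (y * s⁻¹) s = α (x * s⁻¹) s :=
      (IsLocallyConstant.iff_eventually_eq _).1
        (hα.lc.comp_continuous (h4.prodMk continuous_const)) x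
    filter_upwards [h3, h5, h6] with y hy h7 h8
    have h9 : dscS N y = s := by
      have h10 := dscS_eq N (y * x⁻¹) x hy
      rwa [inv_mul_cancel_right] at h10
    simp only [hF]
    rw [h9, ← hs, h7, h8]
  -- the modified cocycle
  set A : Γ → Γ → ZMod l := fun x y => (α x y - a0) + F x + F y - F (x * y) with hA
  have hAc : ∀ x y w, A x y + A (x * y) w = A y w + A x (y * w) := by
    intro x y w
    simp only [hA]
    rw [mul_assoc]
    linear_combination hα.cc x y w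
  have hA0 : ∀ n ∈ N, ∀ g, A n g = 0 := by
    intro n hn g
    simp only [hA]
    rw [hF2 n hn g]
    ring
  have hAl : ∀ z x, ∀ᶠ y in 𝓝 x, A z y = A z x := by
    intro z x
    have h4 : Continuous fun y : Γ => z * y := continuous_const_mul _
    have h5 : ∀ᶠ y in 𝓝 x, F (z * y) = F (z * x) := h4.continuousAt.eventually (hFl (z * x))
    have h6 : ∀ᶠ y in 𝓝 x, α z y = α z x :=
      (IsLocallyConstant.iff_eventually_eq _).1
        (hα.lc.comp_continuous (continuous_const.prodMk continuous_id)) x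
    filter_upwards [h5, h6, hFl x] with y h7 h8 h9
    simp only [hA]
    rw [h7, h8, h9]
  set G : Γ → ZMod l := fun h => ∑ q : Γ ⧸ N, A (q.out)⁻¹ h with hG
  have hGs : ∀ g h, G g + G h = (Fintype.card (Γ ⧸ N) : ZMod l) * A g h + G (g * h) :=
    fun g h => dsc_sum N hAc hA0 g h
  have hGl : ∀ x, ∀ᶠ y in 𝓝 x, G y = G x := by
    intro x
    have h3 : ∀ᶠ y in 𝓝 x, ∀ q : Γ ⧸ N, A (q.out)⁻¹ y = A (q.out)⁻¹ x :=
      eventually_all.2 fun q => hAl _ x
    filter_upwards [h3] with y hy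
    exact Finset.sum_congr rfl fun q _ => hy q
  set r : ZMod l := (Fintype.card (Γ ⧸ N) : ZMod l) with hr
  have hr0 : r ≠ 0 := by
    rw [hr, Ne, ZMod.natCast_eq_zero_iff, ← Nat.card_eq_fintype_card]
    exact hl
  refine ⟨fun x => F x - a0 - r⁻¹ * G x, ?_, fun σ _ τ _ => ?_⟩
  · rw [IsLocallyConstant.iff_eventually_eq]
    intro x
    filter_upwards [hFl x, hGl x] with y h3 h4
    rw [h3, h4]
  · have h3 := hGs σ τ
    have h4 : r⁻¹ * r = 1 := inv_mul_cancel₀ hr0
    have h5 : r⁻¹ * G (σ * τ) = r⁻¹ * G σ + r⁻¹ * G τ - A σ τ := by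
      have h6 : G (σ * τ) = G σ + G τ - r * A σ τ := by linear_combination -h3
      rw [h6]
      linear_combination (-A σ τ) * h4
    show F (σ * τ) - a0 - r⁻¹ * G (σ * τ) = F σ - a0 - r⁻¹ * G σ + (F τ - a0 - r⁻¹ * G τ) + α σ τ
    rw [h5]
    simp only [hA]
    ring

end Pool.Agent.H38.SR
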