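import Pool.Agent.H38.SR.Stm
import Pool.Agent.H92.EL.Ku
import Pool.Agent.H98.MF.L.CobN

/-!
# Scholz-Reichardt (MP_a3214d, T4, block S), row H5: cocycles that are trivial on the kernel of a
Kummer character are symbols (helper80)
-/

set_option autoImplicit false

open scoped BigOperators Pointwise
open NumberField IsDedekindDomain

namespace Pool.Agent.H38.SR

open Pool.Agent.H98.MF (Om Gm ord Dec top nrm cn_ev)
open Pool.Agent.H92.EL (rt chl LocW WS pw OvP KuF SKu kuz kuz_add kuz_inj kuz_ne kuz_pow kuz_ex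
  ku_w ku_fix ku_rt ku_ne)

/-- powers of powers of a root of unity -/
theorem seig_kuz_pow {l : ℕ} [NeZero l] {F : Type} [Field F] {w : F} (hw : w ^ l = 1)
    (i j : ZMod l) : kuz w i ^ j.val = kuz w (i * j) := by
  unfold kuz
  rw [ZMod.val_mul, ← pow_mul]
  exact pow_eq_pow_mod _ hw

/-- powers with exponents modulo `l` -/
theorem seig_carry {l : ℕ} [NeZero l] {F : Type} [Field F] (β : F) (i j : ZMod l) :
    β ^ (i.val + j.val) = β ^ (i + j).val * (if l ≤ i.val + j.val then β ^ l else 1) := by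
  have h1 := ZMod.val_lt i
  have h2 := ZMod.val_lt j
  rw [ZMod.val_add]
  split_ifs with h
  · have h3 : (i.val + j.val) % l = i.val + j.val - l := by
      rw [Nat.mod_eq_sub_mod h, Nat.mod_eq_of_lt (by omega)]
    rw [h3, ← pow_add]
    congr 1
    omega
  · rw [Nat.mod_eq_of_lt (by omega), mul_one]

/-- the cocycle relation of the multiplicative part -/
theorem seig_cc {F : Type} [Field F] {A B C D E T c1 c2 c3 c4 z1 z2 z3 z4 : F}
    (hA : A ≠ 0) (hB : B ≠ 0) (hC : C ≠ 0) (hD : D ≠ 0) (hT : T ≠ 0)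
    (e1 : z1 * D = A * B * c1) (e2 : z2 * E = D * C * c2) (e3 : z3 * T = B * C * c3)
    (e4 : z4 * E = A * T * c4) (hz : z1 * z2 = z3 * z4) : c1 * c2 = c3 * c4 := by
  have h : A * B * C * D * T * (c1 * c2) = A * B * C * D * T * (c3 * c4) := by
    calc A * B * C * D * T * (c1 * c2) = (A * B * c1) * (D * C * c2) * T := by ring
      _ = (z1 * z2) * (D * E * T) := by rw [← e1, ← e2]; ring
      _ = (z3 * T) * (z4 * E) * D := by rw [hz]; ring
      _ = A * B * C * D * T * (c3 * c4) := by rw [e3, e4]; ring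
  exact mul_left_cancel₀ (mul_ne_zero (mul_ne_zero (mul_ne_zero (mul_ne_zero hA hB) hC) hD) hT) h

theorem seig (hK : SKu) (hH : SHil) (hI : SInf) (hC : SCyc) : SEig := by
  classical
  intro l hl K _ _ z hz α hα a ha H hHa hcob
  have hp : l.Prime := hl.out
  have hw := ku_w hz
  have hw1 := hw.pow_eq_one
  have ku := hK l hp K z hz
  set w : Om K := algebraMap K (Om K) z with hwd
  set χ : Gm K → ZMod l := chl l z (a : K) with hχ
  have hadd : ∀ σ τ, χ (σ * τ) = χ σ + χ τ := ku.hom a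
  have hχ1 : χ 1 = 0 := by
    have h := hadd 1 1
    rw [one_mul] at h
    exact left_eq_add.1 h
  have hpow : ∀ (σ : Gm K) (n : ℕ), χ (σ ^ n) = n * χ σ := by
    intro σ n
    induction n with
    | zero => rw [pow_zero, hχ1, Nat.cast_zero, zero_mul]
    | succ n ih =>
      rw [pow_succ, hadd, ih]
      push_cast
      ring
  have hs : ∃ s, χ s = 1 := by
    obtain ⟨s0, hs0⟩ : ∃ s, χ s ≠ 0 := by
      by_contra h
      push Not at h
      exact ha ((ku.zero a).1 h)
    refine ⟨s0 ^ (χ s0)⁻¹.val, ?_⟩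
    rw [hpow, ZMod.natCast_zmod_val, inv_mul_cancel₀ hs0]
  have hnor : H.Normal := by
    refine ⟨fun n hn g => ?_⟩
    rw [hHa] at hn ⊢
    have h1 := hadd g g⁻¹
    rw [mul_inv_cancel, hχ1] at h1
    show χ (g * n * g⁻¹) = 0
    rw [hadd, hadd, hn, add_zero, ← h1]
  have hopen : IsOpen (H : Set (Gm K)) := by
    have h1 := (ku.lc a).isOpen_fiber 0
    have h2 : (H : Set (Gm K)) = {x | χ x = 0} := by
      ext x
      exact hHa x
    rw [h2]
    exact h1
  obtain ⟨G1, c, hG1, hG1n, hcn, hc1, hGc, hcH⟩ := hI l K z hz α hα H hnor hopen hcob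
  have hz4 : ∀ x y v, kuz w (α x y) * kuz w (α (x * y) v) =
      kuz w (α y v) * kuz w (α x (y * v)) := by
    intro x y v
    rw [← kuz_add hw1, ← kuz_add hw1, hα.cc]
  have hcc : ∀ x y v, c x y * c (x * y) v = x (c y v) * c x (y * v) := by
    intro x y v
    have e3 := congrArg (fun t => x t) (hGc y v)
    simp only [map_mul, map_pow] at e3
    rw [x.commutes] at e3
    refine seig_cc (A := G1 x) (B := x (G1 y)) (C := x (y (G1 v))) (D := G1 (x * y))
      (E := G1 (x * y * v)) (T := x (G1 (y * v))) (hG1n x) ?_ ?_ (hG1n _) ?_ (hGc x y)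
      (hGc (x * y) v) e3 ?_ (hz4 x y v)
    · exact (map_ne_zero x).2 (hG1n y)
    · exact (map_ne_zero x).2 ((map_ne_zero y).2 (hG1n v))
    · exact (map_ne_zero x).2 (hG1n _)
    · rw [mul_assoc x y v]
      exact hGc x (y * v)
  obtain ⟨b, G2, hG2n, hG2i, hG2⟩ := hC l K χ ⟨ku.lc a, ku.hom a⟩ hs c hcn hc1 hcc
    (fun x y h hh => hcH x y h ((hHa h).2 hh))
  refine ⟨b, ?_⟩
  set β : Om K := rt l (b : K) with hβd
  have hβ : β ^ l = algebraMap K (Om K) (b : K) := ku_rt (b : K)
  have hβ0 : β ≠ 0 := ku_ne b.ne_zero hβ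
  have hβσ : ∀ σ, σ β = kuz w (chl l z (b : K) σ) * β := fun σ => ku.root b β hβ σ
  set G : Gm K → Om K := fun x => G1 x * G2 x * β ^ (χ x).val with hG
  have hGn : ∀ x, G x ≠ 0 := fun x =>
    mul_ne_zero (mul_ne_zero (hG1n x) (hG2n x)) (pow_ne_zero _ hβ0)
  have hfix : ∀ (x : Gm K) (i : ZMod l), x (kuz w i) = kuz w i := fun x i => ku_fix z x i
  have hstar : ∀ x y, kuz w (α x y + chl l z (b : K) x * χ y) * G (x * y) = G x * x (G y) := by
    intro x y
    have e1 : kuz w (α x y) * G1 (x * y) = G1 x * x (G1 y) * c x y := hGc x y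
    have e2 := hG2 x y
    have e3 : β ^ (χ x).val * x (β ^ (χ y).val) = kuz w (chl l z (b : K) x * χ y) *
        (β ^ (χ (x * y)).val *
          (if l ≤ (χ x).val + (χ y).val then algebraMap K (Om K) (b : K) else 1)) := by
      rw [map_pow, hβσ, mul_pow, seig_kuz_pow hw1, hadd, ← hβ, ← seig_carry, pow_add]
      ring
    rw [kuz_add hw1, hG]
    simp only [map_mul]
    calc kuz w (α x y) * kuz w (chl l z (b : K) x * χ y) *
          (G1 (x * y) * G2 (x * y) * β ^ (χ (x * y)).val)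
        = (kuz w (α x y) * G1 (x * y)) * G2 (x * y) *
          (kuz w (chl l z (b : K) x * χ y) * β ^ (χ (x * y)).val) := by ring
      _ = (G1 x * x (G1 y)) * (c x y * G2 (x * y)) *
          (kuz w (chl l z (b : K) x * χ y) * β ^ (χ (x * y)).val) := by rw [e1]; ring
      _ = (G1 x * x (G1 y)) * (G2 x * x (G2 y)) * (kuz w (chl l z (b : K) x * χ y) *
        (β ^ (χ (x * y)).val *
          (if l ≤ (χ x).val + (χ y).val then algebraMap K (Om K) (b : K) else 1))) := by
          rw [e2]; ring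
      _ = _ := by rw [← e3]; ring
  have hG2lc : IsLocallyConstant G2 := by
    rw [IsLocallyConstant.iff_exists_open]
    intro x
    refine ⟨{y | χ y = χ x}, (ku.lc a).isOpen_fiber (χ x), rfl, fun y hy => ?_⟩
    have h1 : χ (y * x⁻¹) = 0 := by
      have h2 := hadd (y * x⁻¹) x
      rw [inv_mul_cancel_right] at h2
      have h3 : χ y = χ x := hy
      rw [h3] at h2
      exact right_eq_add.1 h2
    have h4 := hG2i x (y * x⁻¹) h1
    rw [inv_mul_cancel_right] at h4
    exact h4
  have hGlc : IsLocallyConstant G :=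
    (hG1.comp₂ hG2lc fun s t => s * t).comp₂ ((ku.lc a).comp fun v => β ^ v.val) fun s t => s * t
  obtain ⟨y, hy0, hy⟩ := hH K (fun σ => G σ ^ l) (hGlc.comp fun s => s ^ l)
    (fun σ => pow_ne_zero _ (hGn σ)) (fun σ τ => by
      have h1 := congrArg (fun t => t ^ l) (hstar σ τ)
      simp only [mul_pow, kuz_pow hw1, one_mul] at h1
      rw [h1, map_pow])
  obtain ⟨e, he⟩ : ∃ e : Om K, e ^ l = y := IsAlgClosed.exists_pow_nat_eq _ hp.pos
  have he0 : e ≠ 0 := by
    rintro rfl
    rw [zero_pow hp.ne_zero] at he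
    exact hy0 he.symm
  have hen : ∀ x : Gm K, x e ≠ 0 := fun x => (map_ne_zero x).2 he0
  obtain ⟨gz, hgz⟩ : ∃ gz : Om K → ZMod l, ∀ i : ZMod l, gz (kuz w i) = i := by
    refine ⟨fun t => if h : ∃ i : ZMod l, t = kuz w i then h.choose else 0, fun i => ?_⟩
    have h1 : ∃ j : ZMod l, kuz w i = kuz w j := ⟨i, rfl⟩
    show dite _ _ _ = _
    rw [dif_pos h1]
    exact (kuz_inj hw h1.choose_spec).symm
  have hWl : ∀ x : Gm K, ∃ i : ZMod l, G x * e / x e = kuz w i := by
    intro x
    refine kuz_ex hw ?_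
    rw [div_pow, mul_pow, he, ← map_pow, he, ← hy x]
    exact div_self (by rw [hy x]; exact (map_ne_zero x).2 hy0)
  set f : Gm K → ZMod l := fun x => gz (G x * e / x e) with hf
  have hfW : ∀ x, G x = kuz w (f x) * x e / e := by
    intro x
    obtain ⟨i, hi⟩ := hWl x
    have h1 : f x = i := by
      show gz (G x * e / x e) = i
      rw [hi, hgz]
    rw [h1, ← hi]
    have h2 := hen x
    field_simp
  have hflc : IsLocallyConstant f :=
    (hGlc.comp₂ (cn_ev e) fun s t => gz (s * e / t))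
  refine ⟨fun x => -f x, hflc.comp fun i => -i, fun σ _ τ _ => ?_⟩
  have h1 := hstar σ τ
  have h2 : kuz w (α σ τ + chl l z (b : K) σ * χ τ + f (σ * τ)) = kuz w (f σ + f τ) := by
    rw [kuz_add hw1 _ (f (σ * τ)), kuz_add hw1 (f σ) (f τ)]
    rw [hfW (σ * τ), hfW σ, hfW τ, map_div₀, map_mul, hfix] at h1
    have h3 : (σ * τ) e = σ (τ e) := rfl
    rw [h3] at h1
    have h4 : σ (τ e) ≠ 0 := hen (σ * τ)
    have h5 := hen σ
    field_simp at h1
    exact h1
  have h3 := kuz_inj hw h2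
  show -f (σ * τ) = -f σ + -f τ + (α σ τ + chl l z (b : K) σ * χ τ)
  linear_combination -h3

end Pool.Agent.H38.SR
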