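import Pool.Agent.H38.SR.Stm

/-!
# Scholz-Reichardt (MP_a3214d, T4, block S), row W2: characters of the decomposition group of `l`
extend
-/

set_option autoImplicit false

open scoped BigOperators Pointwise
open NumberField IsDedekindDomain

namespace Pool.Agent.H38.SR

open Pool.Agent.H98.MF (Om Gm ord Dec top nrm)
open Pool.Agent.H92.EL (chl LocW WS pw OvP SBr SKu STwo)

/-- extension by a constant from an open subgroup -/
theorem el_ext {Γ A : Type} [Group Γ] [TopologicalSpace Γ] [IsTopologicalGroup Γ]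
    (U : Subgroup Γ) (hU : IsOpen (U : Set Γ)) (a0 : A) (f0 : U → A) (h0 : IsLocallyConstant f0)
    (f : Γ → A) (h1 : ∀ x : U, f x = f0 x) (h2 : ∀ x, x ∉ U → f x = a0) :
    IsLocallyConstant f := by
  intro s
  have hcl : IsOpen ((U : Set Γ)ᶜ) := (Subgroup.isClosed_of_isOpen U hU).isOpen_compl
  have hop : IsOpen (Subtype.val '' (f0 ⁻¹' s) : Set Γ) := hU.isOpenMap_subtype_val _ (h0 s)
  by_cases ha : a0 ∈ s
  · have e : f ⁻¹' s = (Subtype.val '' (f0 ⁻¹' s)) ∪ (U : Set Γ)ᶜ := by
      ext x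
      constructor
      · intro hx
        by_cases hxU : x ∈ U
        · left
          refine ⟨⟨x, hxU⟩, ?_, rfl⟩
          show f0 ⟨x, hxU⟩ ∈ s
          rw [← h1]
          exact hx
        · right
          exact hxU
      · rintro (⟨y, hy, rfl⟩ | hx)
        · show f y ∈ s
          rw [h1]
          exact hy
        · show f x ∈ s
          rw [h2 x hx]
          exact ha
    rw [e]
    exact hop.union hcl
  · have e : f ⁻¹' s = Subtype.val '' (f0 ⁻¹' s) := by
      ext x
      constructor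
      · intro hx
        by_cases hxU : x ∈ U
        · refine ⟨⟨x, hxU⟩, ?_, rfl⟩
          show f0 ⟨x, hxU⟩ ∈ s
          rw [← h1]
          exact hx
        · exfalso
          apply ha
          rw [← h2 x hxU]
          exact hx
      · rintro ⟨y, hy, rfl⟩
        show f y ∈ s
        rw [h1]
        exact hy
    rw [e]
    exact hop

/-- the stabilizer of a root of unity of prime order -/
theorem el_stab (k : Type) [Field k] [NumberField k] (l : ℕ) (hl : l.Prime) (ζ : Om k) (hζ : IsPrimitiveRoot ζ l) :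
    IsOpen ((MulAction.stabilizer (Gm k) ζ : Subgroup (Gm k)) : Set (Gm k)) ∧
      (MulAction.stabilizer (Gm k) ζ).index ≠ 0 ∧ ¬ l ∣ (MulAction.stabilizer (Gm k) ζ).index := by
  have hint : IsIntegral k ζ := Algebra.IsIntegral.isIntegral ζ
  have hfd : FiniteDimensional k (IntermediateField.adjoin k {ζ}) :=
    IntermediateField.adjoin.finiteDimensional hint
  have hopen : IsOpen ((IntermediateField.adjoin k {ζ}).fixingSubgroup : Set (Gm k)) :=
    IntermediateField.fixingSubgroup_isOpen _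
  have he : ((MulAction.stabilizer (Gm k) ζ : Subgroup (Gm k)) : Set (Gm k)) =
      ((IntermediateField.adjoin k {ζ}).fixingSubgroup : Set (Gm k)) := by
    ext σ
    rw [SetLike.mem_coe, SetLike.mem_coe, MulAction.mem_stabilizer_iff,
      IntermediateField.mem_fixingSubgroup_iff]
    constructor
    · intro h x hx
      have h3 : IntermediateField.adjoin k {ζ} ≤
          IntermediateField.fixedField (Subgroup.zpowers σ) := by
        rw [IntermediateField.adjoin_le_iff, Set.singleton_subset_iff, SetLike.mem_coe,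
          IntermediateField.mem_fixedField_iff]
        intro g hg
        have h4 : g ∈ MulAction.stabilizer (Gm k) ζ :=
          (Subgroup.zpowers_le.2 (MulAction.mem_stabilizer_iff.2 h)) hg
        exact MulAction.mem_stabilizer_iff.1 h4
      have h4 := (IntermediateField.mem_fixedField_iff _ _).1 (h3 hx) σ
        (Subgroup.mem_zpowers σ)
      exact h4
    · intro h
      exact h ζ (IntermediateField.mem_adjoin_simple_self k ζ)
  have hsub : MulAction.orbit (Gm k) ζ ⊆ (primitiveRoots l (Om k) : Set (Om k)) := by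
    rintro _ ⟨σ, rfl⟩
    rw [Finset.mem_coe, mem_primitiveRoots hl.pos]
    exact hζ.map_of_injective (f := σ) σ.injective
  have hfin : (MulAction.orbit (Gm k) ζ).Finite := (Finset.finite_toSet _).subset hsub
  have hle : (MulAction.orbit (Gm k) ζ).ncard ≤ l - 1 := by
    refine (Set.ncard_le_ncard hsub (Finset.finite_toSet _)).trans ?_
    rw [Set.ncard_coe_finset, hζ.card_primitiveRoots, Nat.totient_prime hl]
  have hpos : 0 < (MulAction.orbit (Gm k) ζ).ncard :=
    (Set.ncard_pos hfin).2 ⟨ζ, MulAction.mem_orbit_self ζ⟩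
  rw [he]
  refine ⟨hopen, ?_, ?_⟩
  · rw [MulAction.index_stabilizer]
    exact hpos.ne'
  · rw [MulAction.index_stabilizer]
    intro hdvd
    have h1 := Nat.le_of_dvd hpos hdvd
    have h2 := hl.pos
    omega

theorem sel (hb : SBr) (hK : SKu) (h2 : STwo) (h1 : SIf) (h7 : STt) (ht : STr) : SEl := by
  classical
  intro l hl hl2 P hP h₀ hlc hadd
  have hlp : l.Prime := hl.out
  obtain ⟨ζ, hζ⟩ : ∃ ζ : Om ℚ, IsPrimitiveRoot ζ l := by
    have : NeZero l := ⟨hlp.ne_zero⟩
    exact HasEnoughRootsOfUnity.exists_primitiveRoot (Om ℚ) l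
  obtain ⟨hUo, hUi, hUl⟩ := el_stab ℚ l hlp ζ hζ
  set U : Subgroup (Gm ℚ) := MulAction.stabilizer (Gm ℚ) ζ with hU
  have hmU : ∀ σ : Gm ℚ, σ ∈ U ↔ σ ζ = ζ := by
    intro σ
    rw [hU, MulAction.mem_stabilizer_iff]
    rfl
  obtain ⟨L, _, _, _, Q, j, Θ, hj, _, hOv, hΘ, hΘs, hjσ, hDec⟩ := hb ℚ U hUo P
  -- the root of unity of `L`
  obtain ⟨z, hz⟩ : ∃ z : L, algebraMap L (Om L) z = j.symm ζ := by
    have h3 : ∀ σ : Gm L, σ (j.symm ζ) = j.symm ζ := by
      intro σ
      apply j.injective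
      rw [hjσ, RingEquiv.apply_symm_apply]
      exact (hmU _).1 (Θ σ).2
    exact (InfiniteGalois.mem_range_algebraMap_iff_fixed (j.symm ζ)).mpr h3
  have hzp : IsPrimitiveRoot z l := by
    have h3 : IsPrimitiveRoot (j.symm ζ) l := hζ.map_of_injective (f := j.symm) j.symm.injective
    rw [← hz] at h3
    exact h3.of_map_of_injective (algebraMap L (Om L)).injective
  have hKF := hK l hlp L z hzp
  obtain ⟨c, hc⟩ := h2 l hlp L z hzp Q (fun σ => h₀ (Θ σ : Gm ℚ))
    (hlc.comp_continuous (continuous_subtype_val.comp hΘ)) (by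
      intro σ hσ τ hτ
      show h₀ ((Θ (σ * τ) : U) : Gm ℚ) = _
      rw [map_mul]
      exact hadd _ ((hDec σ).1 hσ) _ ((hDec τ).1 hτ))
  -- the homomorphism on `U`
  obtain ⟨h, hh⟩ : ∃ h : Gm ℚ → ZMod l, h = fun σ => if hσ : σ ∈ U then
    chl l z (c : L) (Θ.symm ⟨σ, hσ⟩) else 0 := ⟨_, rfl⟩
  have hhU : ∀ x : U, h x = chl l z (c : L) (Θ.symm x) := by
    intro x
    rw [hh]
    exact dif_pos x.2
  have hhl : IsLocallyConstant h := by
    refine el_ext U hUo 0 (fun x => chl l z (c : L) (Θ.symm x))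
      ((hKF.lc c).comp_continuous hΘs) h hhU ?_
    intro x hx
    rw [hh]
    exact dif_neg hx
  have hhm : ∀ x ∈ U, ∀ y ∈ U, h (x * y) = h x + h y := by
    intro x hx y hy
    have e1 := hhU (⟨x, hx⟩ * ⟨y, hy⟩)
    have e2 := hhU ⟨x, hx⟩
    have e3 := hhU ⟨y, hy⟩
    rw [map_mul, hKF.hom] at e1
    rw [← e2, ← e3] at e1
    exact e1
  have hh0 : ∀ x ∈ U, x ∈ Dec P → h x = h₀ x := by
    intro x hx hxP
    have e1 := hhU ⟨x, hx⟩
    have e2 : Θ.symm ⟨x, hx⟩ ∈ Dec Q := by
      rw [hDec, MulEquiv.apply_symm_apply]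
      exact hxP
    have e3 := hc _ e2
    rw [MulEquiv.apply_symm_apply] at e3
    exact e1.trans e3.symm
  -- the product
  have hprod : ∀ g : Gm ℚ, ∃ n ∈ U, ∃ d ∈ Dec P, g = n * d := by
    intro g
    obtain ⟨τ, hτ, hτζ⟩ := h7 P ζ (by rw [hP]; exact hζ) g⁻¹
    refine ⟨g * τ, ?_, τ⁻¹, (Dec P).inv_mem ((h1 ℚ P).1 hτ), ?_⟩
    · rw [hmU]
      show g (τ ζ) = ζ
      rw [hτζ]
      exact g.apply_symm_apply ζ
    · rw [mul_assoc, mul_inv_cancel, mul_one]
  exact ht (Gm ℚ) l U (Dec P) hUo hUi hUl hprod h h₀ hhl hhm hadd hh0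

end Pool.Agent.H38.SR
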