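import Pool.Agent.H38.SR.Stm
import Pool.Agent.H98.MF.L.Top

/-! SR-R4: only finitely many primes ramify in the field of an open normal subgroup -/

set_option autoImplicit false

open scoped BigOperators Pointwise
open NumberField IsDedekindDomain

namespace Pool.Agent.H38.SR

open Pool.Agent.H98.MF (Om Gm top top_comap top_prime tp_integral tp_inj)

section

variable {k : Type} [Field k] [NumberField k]

/-- a nonzero integer lies in `top P` for finitely many `P` only -/
theorem fi_one (a : 𝓞 (Om k)) (ha : a ≠ 0) :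
    {P : HeightOneSpectrum (𝓞 k) | a ∈ top P}.Finite := by
  have := tp_integral k (Om k)
  set J : Ideal (𝓞 k) := (Ideal.span {a}).comap (algebraMap (𝓞 k) (𝓞 (Om k))) with hJ
  have hJ0 : J ≠ ⊥ := by
    rw [hJ]
    exact Ideal.comap_ne_bot_of_integral_mem ha (Ideal.mem_span_singleton_self a)
      (Algebra.IsIntegral.isIntegral a)
  have h1 := Ideal.finite_factors hJ0
  refine h1.subset ?_
  intro P hP
  have hP' : a ∈ top P := hP
  show P.asIdeal ∣ J
  rw [Ideal.dvd_iff_le, ← top_comap P, hJ]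
  apply Ideal.comap_mono
  rw [Ideal.span_singleton_le_iff_mem]
  exact hP'

/-- finitely many integers detect an open subgroup -/
theorem fi_gen (U : Subgroup (Gm k)) (hU : IsOpen (U : Set (Gm k))) :
    ∃ B : Finset (𝓞 (Om k)), ∀ τ : Gm k, (∀ b ∈ B, τ • b = b) → τ ∈ U := by
  classical
  have h1 : (U : Set (Gm k)) ∈ nhds (1 : Gm k) := hU.mem_nhds U.one_mem
  rw [krullTopology_mem_nhds_one_iff] at h1
  obtain ⟨E, hE, hEU⟩ := h1
  have : Module.Finite k E := hE
  have hx : ∀ x : Om k, ∃ y : 𝓞 k, y ≠ 0 ∧ IsIntegral (𝓞 k) (y • x) := by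
    intro x
    have hx1 : IsAlgebraic k x := (AlgebraicClosure.isAlgebraic k).isAlgebraic x
    have hx2 : IsAlgebraic (𝓞 k) x := (IsFractionRing.isAlgebraic_iff (𝓞 k) k (Om k)).2 hx1
    obtain ⟨y, hy, h⟩ := hx2.exists_integral_multiple
    exact ⟨y, hy, h⟩
  choose y hy0 hyi using hx
  have hint : ∀ x : Om k, IsIntegral ℤ (y x • x) := by
    intro x
    exact isIntegral_trans (R := ℤ) (A := 𝓞 k) _ (hyi x)
  let b := Module.finBasis k E
  let f : Fin (Module.finrank k E) → 𝓞 (Om k) := fun i => ⟨y (b i : Om k) • (b i : Om k), hint _⟩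
  refine ⟨Finset.univ.image f, ?_⟩
  intro τ hτ
  apply hEU
  have hfix : ∀ i, τ (b i : Om k) = (b i : Om k) := by
    intro i
    have h2 := hτ (f i) (Finset.mem_image_of_mem f (Finset.mem_univ i))
    have h3 : τ (y (b i : Om k) • (b i : Om k)) = y (b i : Om k) • (b i : Om k) := by
      have := congrArg (fun z : 𝓞 (Om k) => (z : Om k)) h2
      exact this
    have h4 : ∀ z : Om k, (y (b i : Om k) • z : Om k)
        = algebraMap k (Om k) (y (b i : Om k) : k) * z := by
      intro z
      exact Algebra.smul_def (y (b i : Om k) : k) z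
    rw [h4, map_mul, AlgEquiv.commutes] at h3
    have h5 : algebraMap k (Om k) (y (b i : Om k) : k) ≠ 0 := by
      intro h
      apply hy0 (b i : Om k)
      apply RingOfIntegers.coe_injective
      rw [map_eq_zero_iff _ (algebraMap k (Om k)).injective] at h
      exact h.trans (map_zero (algebraMap (𝓞 k) k)).symm
    exact mul_left_cancel₀ h5 h3
  show τ ∈ E.fixingSubgroup
  rw [IntermediateField.mem_fixingSubgroup_iff]
  intro x hxE
  have h6 : (⟨x, hxE⟩ : E) ∈ Submodule.span k (Set.range b) := by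
    rw [b.span_eq]
    exact Submodule.mem_top
  let g : E →ₗ[k] Om k := (τ.toLinearMap).comp E.val.toLinearMap
  have h7 : g = E.val.toLinearMap := by
    apply b.ext
    intro i
    exact hfix i
  exact congrArg (fun z : E →ₗ[k] Om k => z ⟨x, hxE⟩) h7

/-- conjugates are finite in number -/
theorem fi_orb (b : 𝓞 (Om k)) : (Set.range (fun τ : Gm k => τ • b)).Finite := by
  apply Set.Finite.of_finite_image (f := fun z : 𝓞 (Om k) => (z : Om k))
  · refine Set.Finite.subset ((minpoly k (b : Om k)).rootSet_finite (Om k)) ?_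
    rintro _ ⟨_, ⟨τ, rfl⟩, rfl⟩
    have h1 : IsIntegral k (b : Om k) :=
      (AlgebraicClosure.isAlgebraic k).isAlgebraic (b : Om k) |>.isIntegral
    rw [Polynomial.mem_rootSet]
    refine ⟨minpoly.ne_zero h1, ?_⟩
    show Polynomial.aeval (τ (b : Om k)) (minpoly k (b : Om k)) = 0
    rw [Polynomial.aeval_algHom_apply τ, minpoly.aeval, map_zero]
  · intro x _ y _ h
    exact RingOfIntegers.coe_injective h

end

theorem sfi : SFi := by
  intro k _ _ U hN hU
  obtain ⟨B, hB⟩ := fi_gen U hU
  have hfin : (⋃ b ∈ B, ⋃ a ∈ Set.range (fun τ : Gm k => τ • b),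
      {P : HeightOneSpectrum (𝓞 k) | a ≠ b ∧ a - b ∈ top P}).Finite := by
    apply Set.Finite.biUnion B.finite_toSet
    intro b _
    apply Set.Finite.biUnion (fi_orb b)
    intro a _
    by_cases hab : a = b
    · convert Set.finite_empty
      ext P
      simp [hab]
    · refine (fi_one (a - b) (sub_ne_zero.2 hab)).subset ?_
      intro P hP
      exact hP.2
  refine hfin.subset ?_
  intro P hP
  have hP1 : ¬ Ine P ≤ U := hP
  rw [SetLike.not_le_iff_exists] at hP1
  obtain ⟨τ, hτ1, hτ2⟩ := hP1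
  have h2 : ∃ b ∈ B, τ • b ≠ b := by
    by_contra hcon
    push Not at hcon
    exact hτ2 (hB τ hcon)
  obtain ⟨b, hbB, hb⟩ := h2
  simp only [Set.mem_iUnion]
  refine ⟨b, hbB, τ • b, ⟨τ, rfl⟩, hb, ?_⟩
  exact hτ1 b

end Pool.Agent.H38.SR
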