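import Pool.Agent.H38.SR.Odd
import Pool.Agent.H92.EL.AAll
import Pool.Agent.H92.EL.C3f
import Pool.Agent.H92.EL.DGen

/-!
# Scholz-Reichardt (MP_a3214d, T4, block S): nilpotent groups whose Sylow 2-subgroup occurs,
final form
-/

set_option autoImplicit false

open NumberField IsDedekindDomain

namespace Pool.Agent.H38.SR

open Pool.Agent.H92.EL
open Pool.Agent.EX (Occ)

/-- finite nilpotent groups whose Sylow 2-subgroup occurs over `k` occur over `k` -/
theorem sodd_all : SOdd :=
  sodd sku skuD x_two x_ng sbr ssd ssp (x_gs (sc3f x_c3g)) (x_hn (sc3f x_c3g)) sgenT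

/-- finite nilpotent groups of odd order occur over every number field -/
theorem occ_odd (k : Type) [Field k] [NumberField k] (G : Type) [Group G]
    [Finite G] (hG : Group.IsNilpotent G) (ho : Odd (Nat.card G)) : Occ k G := by
  refine sodd_all k G hG fun P => ?_
  have h1 : Nat.card P = 1 := by
    obtain ⟨n, hn⟩ := IsPGroup.iff_card.1 P.isPGroup'
    rcases Nat.eq_zero_or_pos n with h | h
    · rw [hn, h, pow_zero]
    · have h2 : 2 ∣ Nat.card G := by
        refine dvd_trans ?_ (Subgroup.card_subgroup_dvd_card (P : Subgroup G))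
        rw [show Nat.card (P : Subgroup G) = 2 ^ n from hn]
        exact dvd_pow_self 2 h.ne'
      exact absurd ho (Nat.not_odd_iff_even.2 (even_iff_two_dvd.2 h2))
  have : Subsingleton P := (Nat.card_eq_one_iff_unique.1 h1).1
  exact ⟨1, fun x => ⟨1, Subsingleton.elim _ _⟩, IsLocallyConstant.const 1⟩

end Pool.Agent.H38.SR
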