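import Pool.Agent.H38.SR.Stm

/-!
# Scholz-Reichardt (MP_a3214d, T4, block S), row L3: global lifts
-/

set_option autoImplicit false

open scoped BigOperators Pointwise
open NumberField IsDedekindDomain

namespace Pool.Agent.H38.SR

open Pool.Agent.H98.MF (Om Gm ord Dec top nrm)

/-! ### the stabilizer of a root of unity -/

section

variable {k : Type} [Field k] [NumberField k]

theorem glb_root (l : ℕ) [Fact l.Prime] : ∃ ζ : Om k, IsPrimitiveRoot ζ l := by
  have : NeZero (l : Om k) := ⟨by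
    have h := (Fact.out : l.Prime).ne_zero
    exact_mod_cast h⟩
  exact HasEnoughRootsOfUnity.exists_primitiveRoot (Om k) l

/-- the stabilizer of a root of unity -/
noncomputable def glbU (ζ : Om k) : Subgroup (Gm k) := MulAction.stabilizer (Gm k) ζ

theorem glb_mem {ζ : Om k} {σ : Gm k} : σ ∈ glbU ζ ↔ σ ζ = ζ := by
  unfold glbU
  rw [MulAction.mem_stabilizer_iff]
  rfl

theorem glb_open (ζ : Om k) : IsOpen (glbU ζ : Set (Gm k)) := by
  have h1 : FiniteDimensional k (IntermediateField.adjoin k {ζ}) :=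
    IntermediateField.adjoin.finiteDimensional (Algebra.IsIntegral.isIntegral _)
  have h2 : glbU ζ = (IntermediateField.adjoin k {ζ}).fixingSubgroup := by
    ext σ
    rw [glb_mem, IntermediateField.mem_fixingSubgroup_iff]
    constructor
    · intro h x hx
      have h3 : IntermediateField.adjoin k {ζ} ≤ IntermediateField.fixedField
          (Subgroup.zpowers σ) := by
        rw [IntermediateField.adjoin_le_iff]
        intro y hy
        have hy1 : y = ζ := hy
        rw [hy1]
        rintro ⟨τ, hτ⟩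
        obtain ⟨n, rfl⟩ := hτ
        have h5 : σ ∈ glbU ζ := glb_mem.2 h
        exact glb_mem.1 (Subgroup.zpow_mem _ h5 n)
      exact h3 hx ⟨σ, Subgroup.mem_zpowers σ⟩
    · intro h
      exact h ζ (IntermediateField.mem_adjoin_simple_self k ζ)
  rw [h2]
  exact IntermediateField.fixingSubgroup_isOpen _

theorem glb_index {l : ℕ} [Fact l.Prime] {ζ : Om k} (hζ : IsPrimitiveRoot ζ l) :
    (glbU ζ).index ≠ 0 ∧ ¬ l ∣ (glbU ζ).index := by
  classical
  have hl : l.Prime := Fact.out
  have h1 : (glbU ζ).index = (MulAction.orbit (Gm k) ζ).ncard := MulAction.index_stabilizer _ _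
  have h2 : MulAction.orbit (Gm k) ζ ⊆ (primitiveRoots l (Om k) : Set (Om k)) := by
    rintro _ ⟨σ, rfl⟩
    rw [Finset.mem_coe, mem_primitiveRoots hl.pos]
    exact hζ.map_of_injective (f := (σ : Om k ≃ₐ[k] Om k)) (AlgEquiv.injective σ)
  have h3 : (MulAction.orbit (Gm k) ζ).Finite := (Finset.finite_toSet _).subset h2
  have h4 : (MulAction.orbit (Gm k) ζ).ncard ≤ l - 1 := by
    refine (Set.ncard_le_ncard h2 (Finset.finite_toSet _)).trans ?_
    rw [Set.ncard_coe_finset, hζ.card_primitiveRoots, Nat.totient_prime hl]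
  have h5 : (MulAction.orbit (Gm k) ζ).ncard ≠ 0 := by
    rw [Ne, Set.ncard_eq_zero h3]
    exact (MulAction.nonempty_orbit ζ).ne_empty
  rw [h1]
  refine ⟨h5, fun h6 => ?_⟩
  have h7 := Nat.le_of_dvd (Nat.pos_of_ne_zero h5) h6
  have h8 := hl.two_le
  omega

end

/-! ### restriction and extension of cochains -/

section

variable {Γ Δ : Type} [Group Γ] [TopologicalSpace Γ] [Group Δ] [TopologicalSpace Δ] {l : ℕ}

theorem glb_z2 {α : Γ → Γ → ZMod l} (hα : Z2 α) (T : Δ →* Γ) (hT : Continuous T) :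
    Z2 (fun x y : Δ => α (T x) (T y)) where
  lc := by
    have h1 : Continuous fun x : Δ × Δ => (T x.1, T x.2) :=
      (hT.comp continuous_fst).prodMk (hT.comp continuous_snd)
    exact hα.lc.comp_continuous h1
  cc x y w := by
    have h := hα.cc (T x) (T y) (T w)
    rw [← map_mul, ← map_mul] at h
    exact h

theorem glb_cob {α : Γ → Γ → ZMod l} (T : Δ →* Γ) (hT : Continuous T) {D : Subgroup Γ}
    {D' : Subgroup Δ} (h : ∀ x ∈ D', T x ∈ D) (hc : Cob D α) :
    Cob D' (fun x y : Δ => α (T x) (T y)) := by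
  obtain ⟨f, hf, h1⟩ := hc
  refine ⟨fun x => f (T x), hf.comp_continuous hT, fun σ hσ τ hτ => ?_⟩
  have h2 := h1 (T σ) (h σ hσ) (T τ) (h τ hτ)
  rw [← map_mul] at h2
  exact h2

open Classical in
theorem glb_ext [IsTopologicalGroup Γ] {α : Γ → Γ → ZMod l} (T : Δ →* Γ)
    (hT : Topology.IsOpenEmbedding T) (h : Cob ⊤ (fun x y : Δ => α (T x) (T y))) :
    Cob T.range α := by
  obtain ⟨f, hf, h1⟩ := h
  have hopen : IsOpen (T.range : Set Γ) := by
    rw [MonoidHom.coe_range]
    exact hT.isOpen_range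
  have hcl : IsClosed (T.range : Set Γ) := Subgroup.isClosed_of_isOpen _ hopen
  set F : Γ → ZMod l := fun g => if hg : ∃ x, T x = g then f hg.choose else 0 with hF
  have hFT : ∀ x, F (T x) = f x := by
    intro x
    have h2 : ∃ y, T y = T x := ⟨x, rfl⟩
    rw [hF]
    simp only
    rw [dif_pos h2]
    exact congrArg f (hT.injective h2.choose_spec)
  have hF0 : ∀ g, g ∉ (T.range : Set Γ) → F g = 0 := by
    intro g hg
    rw [hF]
    simp only
    rw [dif_neg]
    rintro ⟨x, rfl⟩
    exact hg ⟨x, rfl⟩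
  refine ⟨F, ?_, ?_⟩
  · intro s
    have h2 : F ⁻¹' s = T '' (f ⁻¹' s) ∪ (if (0 : ZMod l) ∈ s then (T.range : Set Γ)ᶜ else ∅) := by
      ext g
      rw [Set.mem_preimage, Set.mem_union]
      by_cases hg : g ∈ (T.range : Set Γ)
      · obtain ⟨x, rfl⟩ := hg
        rw [hFT]
        constructor
        · intro h3
          exact Or.inl ⟨x, h3, rfl⟩
        · rintro (⟨y, hy, h3⟩ | h3)
          · rw [← hT.injective h3]
            exact hy
          · exfalso
            split_ifs at h3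
            · exact h3 ⟨x, rfl⟩
            · exact h3
      · rw [hF0 g hg]
        constructor
        · intro h3
          right
          rw [if_pos h3]
          exact hg
        · rintro (⟨y, hy, h3⟩ | h3)
          · exact absurd ⟨y, h3⟩ hg
          · split_ifs at h3 with h4
            · exact h4
            · exact absurd h3 (Set.notMem_empty _)
    rw [h2]
    refine (hT.isOpenMap _ (hf s)).union ?_
    split_ifs
    · exact hcl.isOpen_compl
    · exact isOpen_empty
  · rintro _ ⟨x, rfl⟩ _ ⟨y, rfl⟩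
    rw [← map_mul, hFT, hFT, hFT]
    exact h1 x (Subgroup.mem_top x) y (Subgroup.mem_top y)

end

/-! ### the theorem -/

/-- global lifts -/
theorem sglb (h2 : SXt2) (h3 : SXt3) (hcj : SCj) (hH : SHPt) (hO : SOb) (hD : SDsc) :
    SGlb := by
  intro l _ hl E G _ _ _ π hπ hG ρ hρ hP
  obtain ⟨ζ, hζ⟩ := glb_root (k := ℚ) l
  obtain ⟨L, _, _, _, X, hX⟩ := h2 ℚ (glbU ζ) (glb_open ζ)
  obtain ⟨hi0, hil⟩ := glb_index hζ
  -- the root of unity in `L`
  have hfix : ∀ σ : Gm L, σ (X.j.symm ζ) = X.j.symm ζ := by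
    intro σ
    have h4 : X.Th σ ∈ glbU ζ := by
      rw [← hX]
      exact ⟨σ, rfl⟩
    have h5 := X.Th_ap σ (X.j.symm ζ)
    rw [RingEquiv.apply_symm_apply, glb_mem.1 h4] at h5
    have h6 := congrArg X.j.symm h5
    rw [RingEquiv.symm_apply_apply] at h6
    exact h6.symm
  obtain ⟨z, hz⟩ := (InfiniteGalois.mem_range_algebraMap_iff_fixed (k := L) (X.j.symm ζ)).2 hfix
  have hz1 : IsPrimitiveRoot z l := by
    have h4 : IsPrimitiveRoot (X.j.symm ζ) l :=
      hζ.map_of_injective (f := X.j.symm) X.j.symm.injective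
    rw [← hz] at h4
    exact h4.of_map_of_injective (algebraMap L (Om L)).injective
  -- the obstruction
  obtain ⟨α, hα, hker, hob⟩ := hO l E G π hπ (Gm ℚ) ρ hρ
  have hTc : Continuous X.Th := X.emb.continuous
  have hGf : Finite G := Finite.of_surjective π hπ.surj
  -- the kernel
  have hρT : IsLocallyConstant (ρ.comp X.Th) := hρ.comp_continuous hTc
  obtain ⟨n, hn⟩ : ∃ n : ℕ, (ρ.comp X.Th).ker.index = l ^ n := by
    rw [Subgroup.index_ker]
    exact (IsPGroup.iff_card (p := l)).1 (hG.to_subgroup (ρ.comp X.Th).range)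
  have hLtop : Cob ⊤ (fun x y : Gm L => α (X.Th x) (X.Th y)) := by
    refine hH l hl n L z hz1 _ (glb_z2 hα X.Th hTc) (ρ.comp X.Th).ker inferInstance ?_ hn ?_ ?_
    · exact hρT {1}
    · exact glb_cob X.Th hTc (fun x hx => hx) hker
    · intro Q
      obtain ⟨P, g, hg⟩ := h3 ℚ L X Q
      have h5 : Cob (Dec P) α := (hob _).2 (hP P)
      have h6 : Cob ((Dec Q).map X.Th) α := by
        refine hcj (Gm ℚ) l α hα g (Dec P) _ ?_ h5
        rintro _ ⟨σ, hσ, rfl⟩
        exact (hg σ).1 hσ
      exact glb_cob X.Th hTc (fun x hx => Subgroup.mem_map_of_mem X.Th hx) h6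
  have hU : Cob (glbU ζ) α := by
    rw [← hX]
    exact glb_ext X.Th X.emb hLtop
  have htop : LfOn ⊤ π ρ := (hob _).1 (hD (Gm ℚ) l (glbU ζ) (glb_open ζ) hi0 hil α hα hU)
  obtain ⟨lam, hlc, hm, hlp⟩ := htop
  exact ⟨MonoidHom.mk' lam fun σ τ => hm σ (Subgroup.mem_top σ) τ (Subgroup.mem_top τ), hlc,
    fun σ => hlp σ (Subgroup.mem_top σ)⟩

end Pool.Agent.H38.SR
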