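import Pool.Agent.H38.SR.Stm
import Pool.Agent.H92.EL.Gl

/-!
# Scholz-Reichardt (MP_a3214d, T4, block S), H7: the Hasse principle in l-towers
-/

set_option autoImplicit false

open scoped BigOperators Pointwise
open NumberField IsDedekindDomain

namespace Pool.Agent.H38.SR

open Pool.Agent.H98.MF (Om Gm ord Dec top nrm)
open Pool.Agent.H92.EL (chl LocW WS pw OvP KuF SKu SGs SNG GlHn CbL TrL NGL LSy GSy)

/-- a normal subgroup of index `l ^ (n + 1)` lies in a normal subgroup of index `l` -/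
theorem hpt_sub {Γ : Type} [Group Γ] {l : ℕ} [hl : Fact l.Prime] (n : ℕ) (U : Subgroup Γ)
    [U.Normal] (hU : U.index = l ^ (n + 1)) :
    ∃ H : Subgroup Γ, U ≤ H ∧ H.Normal ∧ H.index = l := by
  have hcard : Nat.card (Γ ⧸ U) = l ^ (n + 1) := hU
  have : Finite (Γ ⧸ U) := Nat.finite_of_card_ne_zero (by
    rw [hcard]; exact pow_ne_zero _ hl.out.ne_zero)
  obtain ⟨T, hT⟩ := Sylow.exists_subgroup_card_pow_prime (G := Γ ⧸ U) l (n := n) (by
    rw [hcard]; exact pow_dvd_pow _ (Nat.le_succ n))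
  have hTi : T.index = l := by
    have h := T.card_mul_index
    rw [hT, hcard, pow_succ] at h
    exact Nat.eq_of_mul_eq_mul_left (pow_pos hl.out.pos n) h
  have hTn : T.Normal := by
    apply Subgroup.normal_of_index_eq_minFac_card
    rw [hTi, hcard, hl.out.pow_minFac (Nat.succ_ne_zero n)]
  refine ⟨T.comap (QuotientGroup.mk' U), ?_, inferInstance, ?_⟩
  · intro x hx
    rw [Subgroup.mem_comap]
    have : QuotientGroup.mk' U x = 1 := by
      rw [QuotientGroup.mk'_apply]
      exact (QuotientGroup.eq_one_iff x).2 hx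
    rw [this]
    exact T.one_mem
  · rw [Subgroup.index_comap_of_surjective _ (QuotientGroup.mk'_surjective U), hTi]

/-- the character of a normal open subgroup of index `l` -/
theorem hpt_chi {Γ : Type} [Group Γ] [TopologicalSpace Γ] [IsTopologicalGroup Γ] {l : ℕ}
    [hl : Fact l.Prime] (H : Subgroup Γ) [H.Normal] (hH : H.index = l)
    (hO : IsOpen (H : Set Γ)) :
    ∃ χ : Γ → ZMod l, IsLocallyConstant χ ∧ (∀ σ τ, χ (σ * τ) = χ σ + χ τ) ∧
      ∀ σ, σ ∈ H ↔ χ σ = 0 := by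
  have hcard : Nat.card (Γ ⧸ H) = l := hH
  have hcard' : Nat.card (Multiplicative (ZMod l)) = l := by
    rw [Nat.card_congr Multiplicative.toAdd, Nat.card_zmod]
  let e : (Γ ⧸ H) ≃* Multiplicative (ZMod l) := mulEquivOfPrimeCardEq hcard hcard'
  have hz : ∀ σ : Γ, σ ∈ H ↔ Multiplicative.toAdd (e (σ : Γ ⧸ H)) = 0 := by
    intro σ
    rw [← QuotientGroup.eq_one_iff (N := H) σ]
    constructor
    · intro h
      rw [h, map_one]
      rfl
    · intro h
      have h' : e (σ : Γ ⧸ H) = 1 := h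
      exact (MulEquiv.map_eq_one_iff e).1 h'
  have hadd : ∀ σ τ : Γ, Multiplicative.toAdd (e ((σ * τ : Γ) : Γ ⧸ H)) =
      Multiplicative.toAdd (e (σ : Γ ⧸ H)) + Multiplicative.toAdd (e (τ : Γ ⧸ H)) := by
    intro σ τ
    rw [QuotientGroup.mk_mul, map_mul, toAdd_mul]
  refine ⟨fun σ => Multiplicative.toAdd (e (σ : Γ ⧸ H)), ?_, hadd, hz⟩
  rw [IsLocallyConstant.iff_exists_open]
  intro x
  refine ⟨(fun y => x⁻¹ * y) ⁻¹' (H : Set Γ), hO.preimage (continuous_const_mul _), ?_, ?_⟩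
  · simp
  · intro y hy
    have hy' : x⁻¹ * y ∈ H := hy
    have h0 := (hz _).1 hy'
    have h1 := hadd x (x⁻¹ * y)
    rw [mul_inv_cancel_left, h0, add_zero] at h1
    exact h1

/-- transport of a trivialisation along an open embedding -/
theorem hpt_ext {Γ Δ : Type} [Group Γ] [TopologicalSpace Γ] [IsTopologicalGroup Γ] [Group Δ]
    [TopologicalSpace Δ] {l : ℕ} (T : Δ →* Γ) (hT : Topology.IsOpenEmbedding T)
    (α : Γ → Γ → ZMod l) (h : Cob ⊤ (fun σ τ => α (T σ) (T τ))) : Cob T.range α := by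
  classical
  obtain ⟨f, hf, hfc⟩ := h
  have hinj : Function.Injective T := hT.injective
  have hO : IsOpen (T.range : Set Γ) := by
    rw [MonoidHom.coe_range]; exact hT.isOpen_range
  have hC : IsClosed (T.range : Set Γ) := Subgroup.isClosed_of_isOpen _ hO
  let g : Γ → ZMod l := fun x => if h : ∃ σ, T σ = x then f h.choose else 0
  have hg : ∀ σ, g (T σ) = f σ := by
    intro σ
    have hex : ∃ σ', T σ' = T σ := ⟨σ, rfl⟩
    have h1 : g (T σ) = f hex.choose := dif_pos hex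
    rw [h1, hinj hex.choose_spec]
  have hg0 : ∀ x, x ∉ T.range → g x = 0 := by
    intro x hx
    exact dif_neg (fun h => hx (MonoidHom.mem_range.2 h))
  refine ⟨g, ?_, ?_⟩
  · rw [IsLocallyConstant.iff_exists_open]
    intro x
    by_cases hx : x ∈ T.range
    · obtain ⟨σ, rfl⟩ := MonoidHom.mem_range.1 hx
      obtain ⟨V, hV, hσ, hVc⟩ := (IsLocallyConstant.iff_exists_open f).1 hf σ
      refine ⟨T '' V, hT.isOpenMap V hV, ⟨σ, hσ, rfl⟩, ?_⟩
      rintro _ ⟨τ, hτ, rfl⟩
      rw [hg, hg]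
      exact hVc τ hτ
    · refine ⟨(T.range : Set Γ)ᶜ, hC.isOpen_compl, hx, ?_⟩
      intro y hy
      rw [hg0 x hx, hg0 y hy]
  · intro x hx y hy
    obtain ⟨σ, rfl⟩ := MonoidHom.mem_range.1 hx
    obtain ⟨τ, rfl⟩ := MonoidHom.mem_range.1 hy
    rw [← map_mul, hg, hg, hg]
    exact hfc σ (Subgroup.mem_top _) τ (Subgroup.mem_top _)

/-- pullback of a trivialisation -/
theorem hpt_pull {Γ Δ : Type} [Group Γ] [TopologicalSpace Γ] [Group Δ]
    [TopologicalSpace Δ] {l : ℕ} (T : Δ →* Γ) (hT : Continuous T)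
    (α : Γ → Γ → ZMod l) (D : Subgroup Γ) (D' : Subgroup Δ) (hD : ∀ σ ∈ D', T σ ∈ D)
    (h : Cob D α) : Cob D' (fun σ τ => α (T σ) (T τ)) := by
  obtain ⟨f, hf, hfc⟩ := h
  refine ⟨fun σ => f (T σ), hf.comp_continuous hT, ?_⟩
  intro σ hσ τ hτ
  have h := hfc _ (hD σ hσ) _ (hD τ hτ)
  rw [← map_mul] at h
  exact h

/-- pullback of a cocycle -/
theorem hpt_z2 {Γ Δ : Type} [Group Γ] [TopologicalSpace Γ] [Group Δ]
    [TopologicalSpace Δ] {l : ℕ} (T : Δ →* Γ) (hT : Continuous T)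
    (α : Γ → Γ → ZMod l) (h : Z2 α) : Z2 (fun σ τ => α (T σ) (T τ)) := by
  refine ⟨?_, ?_⟩
  · exact h.lc.comp_continuous (f := fun x : Δ × Δ => (T x.1, T x.2))
      ((hT.comp continuous_fst).prodMk (hT.comp continuous_snd))
  · intro x y w
    have := h.cc (T x) (T y) (T w)
    simpa only [map_mul] using this

/-- H7: the Hasse principle in towers -/
theorem shpt (hKu : SKu) (hG : SGs) (hn : GlHn) (hN : SNG) (h2 : SXt2) (h3 : SXt3) (hcj : SCj)
    (he : SEig) : SHPt := by
  intro l hl hl2 n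
  induction n with
  | zero =>
    intro K _ _ z hz α hα U _ _ hUi hUc _
    have : U = ⊤ := Subgroup.index_eq_one.1 (by rw [hUi, pow_zero])
    rw [this] at hUc
    exact hUc
  | succ n ih =>
    intro K _ _ z hz α hα U hUn hUo hUi hUc hloc
    obtain ⟨H, hUH, hHn, hHi⟩ := hpt_sub n U hUi
    have hHo : IsOpen (H : Set (Gm K)) := Subgroup.isOpen_mono hUH hUo
    obtain ⟨χ, hχl, hχa, hχH⟩ := hpt_chi H hHi hHo
    have hK := hKu l hl.out K z hz
    obtain ⟨a, ha⟩ := hK.surj χ hχl hχa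
    have hap : a ∉ pw l (⊤ : Subgroup Kˣ) := by
      intro hap
      have h0 := (hK.zero a).2 hap
      have : H = ⊤ := by
        rw [eq_top_iff]
        intro σ _
        rw [hχH, ha, h0]
      rw [this, Subgroup.index_top] at hHi
      exact hl.out.one_lt.ne hHi
    obtain ⟨L, _, _, _, X, hXr⟩ := h2 K H hHo
    have hXc : Continuous X.Th := X.emb.continuous
    have hzL : IsPrimitiveRoot (algebraMap K L z) l :=
      hz.map_of_injective (algebraMap K L).injective
    have hαL := hpt_z2 X.Th hXc α hα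
    have hUL : Cob (U.comap X.Th) (fun σ τ => α (X.Th σ) (X.Th τ)) :=
      hpt_pull X.Th hXc α U _ (fun σ hσ => hσ) hUc
    have hULo : IsOpen ((U.comap X.Th : Subgroup (Gm L)) : Set (Gm L)) := hUo.preimage hXc
    have hULi : (U.comap X.Th).index = l ^ n := by
      rw [Subgroup.index_comap, hXr]
      have h := Subgroup.relIndex_mul_index hUH
      rw [hHi, hUi, pow_succ] at h
      exact Nat.eq_of_mul_eq_mul_right hl.out.pos h
    have hlocL : ∀ Q : HeightOneSpectrum (𝓞 L),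
        Cob (Dec Q) (fun σ τ => α (X.Th σ) (X.Th τ)) := by
      intro Q
      obtain ⟨P, g, hPg⟩ := h3 K L X Q
      have h := hcj (Gm K) l α hα g (Dec P) ((Dec Q).map X.Th) (by
        intro σ hσ
        obtain ⟨τ, hτ, rfl⟩ := Subgroup.mem_map.1 hσ
        exact (hPg τ).1 hτ) (hloc P)
      exact hpt_pull X.Th hXc α _ _ (fun σ hσ => Subgroup.mem_map_of_mem _ hσ) h
    have hLt := ih L (algebraMap K L z) hzL _ hαL (U.comap X.Th) inferInstance hULo hULi hUL hlocL
    have hHc : Cob H α := by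
      have := hpt_ext X.Th X.emb α hLt
      rwa [hXr] at this
    obtain ⟨b, f, hf, hfc⟩ := he l K z hz α hα a hap H (fun σ => by rw [hχH, ha]) hHc
    -- the cup product is locally trivial
    obtain ⟨G⟩ := hG l hl2 K z hz
    have hhs : ∀ P, G.hs P b a = 0 := by
      intro P
      obtain ⟨f', hf', hfc'⟩ := hloc P
      have ht : TrL l z (Dec P) (fun _ : Fin 1 => (b : K)) (fun _ : Fin 1 => (a : K)) := by
        refine ⟨fun σ => f σ - f' σ, hf.sub hf', ?_⟩
        intro σ hσ τ hτ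
        have h1 := hfc σ (Subgroup.mem_top _) τ (Subgroup.mem_top _)
        have h2 := hfc' σ hσ τ hτ
        simp only [Finset.univ_unique, Finset.sum_const, Finset.card_singleton, one_smul]
        rw [h1, h2]
        ring
      have := (G.triv P (fun _ : Fin 1 => b) (fun _ : Fin 1 => a)).1 ht
      simpa using this
    have hNb : a ∈ NGL l b := hn l hl2 K z hz G b a hhs
    obtain ⟨f'', hf'', hfc''⟩ := (hN l hl.out hl2 K z hz b a).1 hNb
    refine ⟨fun σ => f σ - f'' σ, hf.sub hf'', ?_⟩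
    intro σ hσ τ hτ
    have h1 := hfc σ hσ τ hτ
    have h2 := hfc'' σ hσ τ hτ
    simp only
    rw [h1, h2]
    ring

end Pool.Agent.H38.SR
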