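import Pool.Agent.H38.SR.Stm

/-!
# Scholz-Reichardt (MP_a3214d, T4, block S): Hilbert 90 for the absolute Galois group
-/

set_option autoImplicit false

open scoped BigOperators Pointwise Topology
open NumberField IsDedekindDomain

namespace Pool.Agent.H38.SR

open Pool.Agent.H98.MF (Om Gm ord Dec top nrm)

/-- H1: Hilbert 90 for the absolute Galois group -/
theorem shil : SHil := by
  intro K _ _ f hf h0 hc
  have hf1 : f 1 = 1 := by
    have h := hc 1 1
    rw [mul_one, AlgEquiv.one_apply] at h
    exact mul_left_cancel₀ (h0 1) (by rw [mul_one]; exact h.symm)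
  have hopen : {σ : Gm K | f σ = 1} ∈ 𝓝 (1 : Gm K) := by
    have h1 : IsOpen (f ⁻¹' {1}) := hf {1}
    exact h1.mem_nhds hf1
  rw [krullTopology_mem_nhds_one_iff_of_normal] at hopen
  obtain ⟨E, hE1, hE2, hE3⟩ := hopen
  have hV : ∀ v ∈ E.fixingSubgroup, f v = 1 := fun v hv => hE3 hv
  have hR : ∀ σ : Gm K, ∀ v ∈ E.fixingSubgroup, f (σ * v) = f σ := by
    intro σ v hv
    rw [hc, hV v hv, map_one, mul_one]
  have hnor : E.fixingSubgroup.Normal := by
    rw [← IntermediateField.restrictNormalHom_ker E]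
    exact MonoidHom.normal_ker _
  have hfix : ∀ σ : Gm K, f σ ∈ E := by
    intro σ
    rw [← InfiniteGalois.fixedField_fixingSubgroup E, IntermediateField.mem_fixedField_iff]
    intro v hv
    have h1 : f (v * σ) = v (f σ) := by rw [hc, hV v hv, one_mul]
    have h2 : v * σ = σ * (σ⁻¹ * v * σ) := by group
    have h3 : σ⁻¹ * v * σ ∈ E.fixingSubgroup := by
      have h4 := hnor.conj_mem v hv σ⁻¹
      rwa [inv_inv] at h4
    rw [← h1, h2, hR σ _ h3]
  have hres : ∀ σ τ : Gm K, σ.restrictNormal E = τ.restrictNormal E → f σ = f τ := by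
    intro σ τ h
    have h1 : τ⁻¹ * σ ∈ E.fixingSubgroup := by
      rw [IntermediateField.mem_fixingSubgroup_iff]
      intro x hx
      have h2 := σ.restrictNormal_commutes E ⟨x, hx⟩
      have h3 := τ.restrictNormal_commutes E ⟨x, hx⟩
      rw [h] at h2
      have h4 : σ x = τ x := by
        have h5 := h2.symm.trans h3
        exact h5
      rw [AlgEquiv.mul_apply, h4, ← AlgEquiv.mul_apply, inv_mul_cancel, AlgEquiv.one_apply]
    have h6 : σ = τ * (τ⁻¹ * σ) := by group
    rw [h6, hR τ _ h1]
  let u : (E ≃ₐ[K] E) → Eˣ := fun g => Units.mk0 ⟨f (g.liftNormal (Om K)), hfix _⟩ (by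
    intro h
    exact h0 _ (congrArg Subtype.val h))
  have hu : ∀ g, ((u g : E) : Om K) = f (g.liftNormal (Om K)) := fun g => rfl
  have hcoc : groupCohomology.IsMulCocycle₁ u := by
    intro g h
    refine Units.ext (Subtype.ext ?_)
    rw [hu]
    have h1 : f ((g * h).liftNormal (Om K)) =
        f (g.liftNormal (Om K) * h.liftNormal (Om K)) := by
      refine hres _ _ ?_
      rw [AlgEquiv.restrict_liftNormal]
      have h2 := (AlgEquiv.restrictNormalHom E).map_mul (g.liftNormal (Om K))
        (h.liftNormal (Om K))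
      have h3 : (AlgEquiv.restrictNormalHom E) (g.liftNormal (Om K)) = g :=
        AlgEquiv.restrict_liftNormal _ g
      have h4 : (AlgEquiv.restrictNormalHom E) (h.liftNormal (Om K)) = h :=
        AlgEquiv.restrict_liftNormal _ h
      rw [h3, h4] at h2
      exact h2.symm
    rw [h1, hc]
    have h5 : (g.liftNormal (Om K)) (f (h.liftNormal (Om K))) =
        ((g (u h : E) : E) : Om K) := by
      rw [← hu h]
      exact AlgEquiv.liftNormal_commutes g (Om K) (u h : E)
    rw [h5, ← hu g, mul_comm]
    rfl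
  obtain ⟨β, hβ⟩ := groupCohomology.isMulCoboundary₁_of_isMulCocycle₁_of_aut_to_units u hcoc
  refine ⟨((β : E) : Om K), ?_, fun σ => ?_⟩
  · intro h
    exact β.ne_zero (Subtype.ext h)
  · have h1 := hβ (σ.restrictNormal E)
    rw [div_eq_iff_eq_mul] at h1
    have h2 : f σ = ((u (σ.restrictNormal E) : E) : Om K) := by
      rw [hu]
      exact hres _ _ (AlgEquiv.restrict_liftNormal _ _).symm
    have h3 := congrArg (fun w : Eˣ => ((w : E) : Om K)) h1
    have h4 : (((σ.restrictNormal E) (β : E) : E) : Om K) =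
        ((u (σ.restrictNormal E) : E) : Om K) * ((β : E) : Om K) := h3
    rw [h2, ← h4]
    exact σ.restrictNormal_commutes E (β : E)

end Pool.Agent.H38.SR
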