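import Pool.Agent.H38.SR.Stm

/-!
# Scholz-Reichardt, row SR-P2: the roots of the primes are independent over a nilpotent extension
-/

set_option autoImplicit false

open scoped BigOperators
open NumberField IsDedekindDomain

namespace Pool.Agent.H38.SR

open Pool.Agent.H98.MF (Om Gm nrm)

/-! ### general fields -/

section

variable {k : Type} [Field k] [NumberField k]

theorem id_gfix (x : Om k) (h : ∀ σ : Gm k, σ x = x) : ∃ r : k, algebraMap k (Om k) r = x :=
  (InfiniteGalois.mem_range_algebraMap_iff_fixed x).2 h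

theorem id_gconj {l : ℕ} (hl : l ≠ 0) {x y : Om k} (hx : IsPrimitiveRoot x l)
    (hy : IsPrimitiveRoot y l) (hi : Irreducible (Polynomial.cyclotomic l k)) :
    ∃ t : Gm k, t y = x := by
  have : NeZero (l : k) := ⟨Nat.cast_ne_zero.2 hl⟩
  have h3 : minpoly k x = minpoly k y := by
    rw [← hx.minpoly_eq_cyclotomic_of_irreducible hi, ← hy.minpoly_eq_cyclotomic_of_irreducible hi]
  exact (isConjRoot_iff_exists_algEquiv (K := k) (L := Om k) (x := x) (y := y)).1 h3

end

theorem id_qfix (x : Om ℚ) (h : ∀ σ : Gm ℚ, σ x = x) : ∃ r : ℚ, (r : Om ℚ) = x := by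
  obtain ⟨r, hr⟩ := id_gfix (k := ℚ) x h
  exact ⟨r, by rw [← hr, eq_ratCast]⟩

section

variable {l : ℕ} [Fact l.Prime] {ζ : Om ℚ}

/-- the root of unity with exponent `a` -/
noncomputable def idE (ζ : Om ℚ) (a : ZMod l) : Om ℚ := ζ ^ a.val

theorem idE_add (hζ : IsPrimitiveRoot ζ l) (a b : ZMod l) :
    idE ζ (a + b) = idE ζ a * idE ζ b := by
  unfold idE
  rw [← pow_add]
  refine pow_eq_pow_of_modEq ?_ hζ.pow_eq_one
  rw [ZMod.val_add]
  exact Nat.mod_modEq _ _

theorem idE_zero : idE ζ (0 : ZMod l) = 1 := by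
  unfold idE
  rw [ZMod.val_zero, pow_zero]

theorem idE_one : idE ζ (1 : ZMod l) = ζ := by
  unfold idE
  have : Fact (1 < l) := ⟨(Fact.out : l.Prime).one_lt⟩
  rw [ZMod.val_one, pow_one]

theorem idE_pow (hζ : IsPrimitiveRoot ζ l) (a b : ZMod l) :
    idE ζ a ^ b.val = idE ζ (a * b) := by
  unfold idE
  rw [← pow_mul]
  refine pow_eq_pow_of_modEq ?_ hζ.pow_eq_one
  rw [ZMod.val_mul]
  exact (Nat.mod_modEq _ _).symm

theorem idE_inj (hζ : IsPrimitiveRoot ζ l) {a b : ZMod l} (h : idE ζ a = idE ζ b) : a = b :=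
  ZMod.val_injective l (hζ.pow_inj (ZMod.val_lt a) (ZMod.val_lt b) h)

theorem idE_ex (hζ : IsPrimitiveRoot ζ l) {x : Om ℚ} (hx : x ^ l = 1) :
    ∃ a : ZMod l, x = idE ζ a := by
  have : NeZero l := ⟨(Fact.out : l.Prime).ne_zero⟩
  obtain ⟨i, hi, h⟩ := hζ.eq_pow_of_pow_eq_one hx
  refine ⟨(i : ZMod l), ?_⟩
  unfold idE
  rw [ZMod.val_natCast, Nat.mod_eq_of_lt hi, h]

omit [Fact l.Prime] in
theorem idE_powl (hζ : IsPrimitiveRoot ζ l) (a : ZMod l) : idE ζ a ^ l = 1 := by
  unfold idE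
  rw [← pow_mul, mul_comm, pow_mul, hζ.pow_eq_one, one_pow]

theorem idE_ne (hζ : IsPrimitiveRoot ζ l) (a : ZMod l) : idE ζ a ≠ 0 := by
  intro h
  have h1 := idE_powl hζ a
  rw [h, zero_pow (Fact.out : l.Prime).ne_zero] at h1
  exact zero_ne_one h1

/-- the cyclotomic character -/
theorem id_om (hζ : IsPrimitiveRoot ζ l) (σ : Gm ℚ) :
    ∃ a : ZMod l, ∀ b : ZMod l, σ (idE ζ b) = idE ζ (a * b) := by
  obtain ⟨a, ha⟩ := idE_ex hζ (x := σ ζ) (by rw [← map_pow, hζ.pow_eq_one, map_one])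
  refine ⟨a, fun b => ?_⟩
  rw [← idE_pow hζ, ← ha]
  unfold idE
  rw [map_pow]

/-- the Kummer cocycle of an `l`-th root of a rational number -/
theorem id_ka (hζ : IsPrimitiveRoot ζ l) {y : Om ℚ} (hy : y ≠ 0) {q : ℚ}
    (hq : y ^ l = (q : Om ℚ)) (σ : Gm ℚ) :
    ∃ a : ZMod l, σ y = idE ζ a * y := by
  obtain ⟨a, ha⟩ := idE_ex hζ (x := σ y / y) (by
    rw [div_pow, ← map_pow, hq, map_ratCast, ← hq, div_self (pow_ne_zero _ hy)])
  exact ⟨a, by rw [← ha, div_mul_cancel₀ _ hy]⟩

end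

/-- an automorphism that does not fix the roots of unity of order `l` -/
theorem id_t {l : ℕ} [Fact l.Prime] (hl : l ≠ 2) {ζ : Om ℚ} (hζ : IsPrimitiveRoot ζ l) :
    ∃ t : Gm ℚ, t ζ = ζ ^ 2 := by
  have hp : l.Prime := Fact.out
  have h2 : IsPrimitiveRoot (ζ ^ 2) l :=
    hζ.pow_of_coprime 2 ((Nat.coprime_primes Nat.prime_two hp).2 (Ne.symm hl))
  exact id_gconj hp.ne_zero h2 hζ (Polynomial.cyclotomic.irreducible_rat hp.pos)

/-- exponents of a product of distinct primes that is an `l`-th power -/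
theorem id_val {ι : Type*} [DecidableEq ι] (T : Finset ι) (p : ι → ℕ) (hp : ∀ i ∈ T, (p i).Prime)
    (hinj : ∀ i ∈ T, ∀ j ∈ T, p i = p j → i = j) (e : ι → ℕ) {l : ℕ} (r : ℚ)
    (hr : r ^ l = ((∏ i ∈ T, p i ^ e i : ℕ) : ℚ)) (i : ι) (hi : i ∈ T) : l ∣ e i := by
  have : Fact (p i).Prime := ⟨hp i hi⟩
  have h1 : padicValNat (p i) (∏ j ∈ T, p j ^ e j) = e i := by
    rw [← Finset.mul_prod_erase T (fun j => p j ^ e j) hi]
    have h2 : ∏ j ∈ T.erase i, p j ^ e j ≠ 0 := by
      refine Finset.prod_ne_zero_iff.2 fun j hj => pow_ne_zero _ (hp j ?_).ne_zero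
      exact Finset.mem_of_mem_erase hj
    have h3 : ¬ p i ∣ ∏ j ∈ T.erase i, p j ^ e j := by
      intro h
      obtain ⟨j, hj, hd⟩ := ((hp i hi).prime.dvd_finsetProd_iff _).1 h
      have h4 := (hp i hi).dvd_of_dvd_pow hd
      have hjT := Finset.mem_of_mem_erase hj
      have h5 := (Nat.prime_dvd_prime_iff_eq (hp i hi) (hp j hjT)).1 h4
      exact Finset.ne_of_mem_erase hj (hinj i hi j hjT h5).symm
    rw [padicValNat.mul (pow_ne_zero _ (hp i hi).ne_zero) h2, padicValNat.prime_pow,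
      padicValNat.eq_zero_of_not_dvd h3, add_zero]
  have hr0 : r ≠ 0 ∨ l = 0 := by
    by_cases h : l = 0
    · exact Or.inr h
    · left
      intro h0
      rw [h0, zero_pow h] at hr
      have h2 : (∏ j ∈ T, p j ^ e j : ℕ) ≠ 0 :=
        Finset.prod_ne_zero_iff.2 fun j hj => pow_ne_zero _ (hp j hj).ne_zero
      exact h2 (by exact_mod_cast hr.symm)
  rcases hr0 with hr0 | hl0
  · have h2 := congrArg (padicValRat (p i)) hr
    rw [padicValRat.pow, padicValRat.of_nat, h1] at h2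
    have h3 : (l : ℤ) ∣ (e i : ℤ) := ⟨_, h2.symm⟩
    exact Int.natCast_dvd_natCast.1 h3
  · -- `l = 0`: the product is one
    subst hl0
    rw [pow_zero] at hr
    have h2 : (∏ j ∈ T, p j ^ e j : ℕ) = 1 := by exact_mod_cast hr.symm
    rw [h2, padicValNat_one_right] at h1
    rw [← h1]

/-- row SR-P2 -/
theorem sid (h6 : SPq) : SId := by
  classical
  intro l _ hl n G _ _ hG ρ z hz T y hy c
  have hlp : l.Prime := Fact.out
  have : NeZero l := ⟨hlp.ne_zero⟩
  set ζ : Om ℚ := z ^ l ^ n with hζd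
  have hζ : IsPrimitiveRoot ζ l := by
    refine hz.pow (pow_pos hlp.pos _) ?_
    rw [pow_succ]
  have hy0 : ∀ P ∈ T, y P ≠ 0 := by
    intro P hP h0
    have h1 := hy P hP
    rw [h0, zero_pow hlp.ne_zero] at h1
    exact (h6.1 P).ne_zero (by exact_mod_cast h1.symm)
  have hyq : ∀ P ∈ T, y P ^ l = ((nrm P : ℚ) : Om ℚ) := by
    intro P hP
    rw [hy P hP, Rat.cast_natCast]
  -- the image of `W0`
  let A : AddSubgroup (T → ZMod l) :=
    { carrier := {v | ∃ σ : Gm ℚ, ρ σ = 1 ∧ σ z = z ∧ ∀ P : T, σ (y P) = idE ζ (v P) * y P}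
      zero_mem' := ⟨1, map_one ρ, rfl, fun P => by
        rw [Pi.zero_apply, idE_zero, one_mul]
        rfl⟩
      add_mem' := by
        rintro v w ⟨σ, h1, h2, h3⟩ ⟨τ, h4, h5, h6⟩
        refine ⟨σ * τ, by rw [map_mul, h1, h4, one_mul], ?_, fun P => ?_⟩
        · show σ (τ z) = z
          rw [h5, h2]
        · show σ (τ (y P)) = _
          have h7 : σ (idE ζ (w P)) = idE ζ (w P) := by
            unfold idE
            rw [hζd, map_pow, map_pow, h2]
          rw [h6, map_mul, h7, h3, Pi.add_apply, idE_add hζ]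
          ring
      neg_mem' := by
        rintro v ⟨σ, h1, h2, h3⟩
        refine ⟨σ⁻¹, by rw [map_inv, h1, inv_one], ?_, fun P => ?_⟩
        · have h4 : σ⁻¹ (σ z) = z := σ.symm_apply_apply z
          rwa [h2] at h4
        · have h2' : σ⁻¹ z = z := by
            have h4 : σ⁻¹ (σ z) = z := σ.symm_apply_apply z
            rwa [h2] at h4
          have h4 : σ⁻¹ (σ (y P)) = y P := σ.symm_apply_apply _
          have h7 : σ⁻¹ (idE ζ (v P)) = idE ζ (v P) := by
            unfold idE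
            rw [hζd, map_pow, map_pow, h2']
          rw [h3, map_mul, h7] at h4
          have h8 : idE ζ ((-v) P) * idE ζ (v P) = 1 := by
            rw [← idE_add hζ, Pi.neg_apply, neg_add_cancel, idE_zero]
          calc σ⁻¹ (y P) = idE ζ ((-v) P) * idE ζ (v P) * σ⁻¹ (y P) := by rw [h8, one_mul]
            _ = idE ζ ((-v) P) * (idE ζ (v P) * σ⁻¹ (y P)) := by ring
            _ = idE ζ ((-v) P) * y P := by rw [h4] }
  by_cases hA : AddSubgroup.toZModSubmodule l A = ⊤
  · have h1 : (fun P : T => c P) ∈ AddSubgroup.toZModSubmodule l A := by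
      rw [hA]
      exact Submodule.mem_top
    obtain ⟨σ, h2, h3, h4⟩ := (AddSubgroup.mem_toZModSubmodule l).1 h1
    exact ⟨σ, h2, h3, fun P hP => h4 ⟨P, hP⟩⟩
  · exfalso
    obtain ⟨f, hf0, hf⟩ := Submodule.exists_le_ker_of_lt_top _ (lt_top_iff_ne_top.2 hA)
    set e : T → ZMod l := fun P => f (Pi.single P 1) with he
    have hfe : ∀ v : T → ZMod l, f v = ∑ P, v P * e P := by
      intro v
      have h1 := LinearMap.pi_apply_eq_sum_univ f v
      rw [h1]
      refine Finset.sum_congr rfl fun P _ => ?_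
      rw [smul_eq_mul, he]
      congr 2
      funext j
      rw [Pi.single_apply]
      by_cases hj : P = j
      · rw [if_pos hj, if_pos hj.symm]
      · rw [if_neg hj, if_neg (Ne.symm hj)]
    have hAe : ∀ v : T → ZMod l, v ∈ A → ∑ P, v P * e P = 0 := by
      intro v hv
      rw [← hfe]
      exact hf hv
    obtain ⟨P0, hP0⟩ : ∃ P0, e P0 ≠ 0 := by
      by_contra hno
      push Not at hno
      refine hf0 (LinearMap.ext fun v => ?_)
      rw [hfe]
      exact Finset.sum_eq_zero fun P _ => by rw [hno P, mul_zero]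
    -- the product
    set Y : Om ℚ := ∏ P : T, y P ^ (e P).val with hY
    have hY0 : Y ≠ 0 := Finset.prod_ne_zero_iff.2 fun P _ => pow_ne_zero _ (hy0 P P.2)
    have hYl : Y ^ l = (((∏ P : T, nrm (P : HeightOneSpectrum (𝓞 ℚ)) ^
        (e P).val : ℕ) : ℚ) : Om ℚ) := by
      rw [hY, ← Finset.prod_pow, Rat.cast_natCast, Nat.cast_prod]
      refine Finset.prod_congr rfl fun P _ => ?_
      rw [Nat.cast_pow, ← hy P P.2, ← pow_mul, ← pow_mul, mul_comm]
    -- characters
    choose om hom using id_om hζ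
    choose ka hka using id_ka hζ hY0 hYl
    have om_mul : ∀ σ τ, om (σ * τ) = om σ * om τ := by
      intro σ τ
      have h1 : (σ * τ) (idE ζ (1 : ZMod l)) = idE ζ (om σ * om τ) := by
        show σ (τ _) = _
        rw [hom τ, hom σ, mul_one]
      rw [hom, mul_one] at h1
      exact idE_inj hζ h1
    have ka_mul : ∀ σ τ, ka (σ * τ) = ka σ + om σ * ka τ := by
      intro σ τ
      have h1 : (σ * τ) Y = idE ζ (ka σ + om σ * ka τ) * Y := by
        show σ (τ Y) = _
        rw [hka τ, map_mul, hom, hka σ, idE_add hζ]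
        ring
      rw [hka] at h1
      exact idE_inj hζ (mul_right_cancel₀ hY0 h1)
    -- `W0`
    have w_om : ∀ σ : Gm ℚ, σ z = z → om σ = 1 := by
      intro σ h1
      have h2 : σ (idE ζ (1 : ZMod l)) = idE ζ (1 : ZMod l) := by
        rw [idE_one, hζd, map_pow, h1]
      rw [hom, mul_one] at h2
      exact idE_inj hζ h2
    have w_ka : ∀ σ : Gm ℚ, ρ σ = 1 → σ z = z → ka σ = 0 := by
      intro σ h1 h2
      have h3 : ∀ P : T, ∃ a : ZMod l, σ (y P) = idE ζ a * y P := fun P =>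
        id_ka hζ (hy0 P P.2) (hyq P P.2) σ
      choose v hv using h3
      have h4 : ∑ P, v P * e P = 0 := hAe v ⟨σ, h1, h2, hv⟩
      have h5 : σ Y = Y := by
        have h6 : σ Y = (∏ P : T, idE ζ (v P * e P)) * Y := by
          rw [hY, map_prod, ← Finset.prod_mul_distrib]
          refine Finset.prod_congr rfl fun P _ => ?_
          rw [map_pow, hv, mul_pow, idE_pow hζ]
        have h7 : ∀ s : Finset T, ∏ P ∈ s, idE ζ (v P * e P) = idE ζ (∑ P ∈ s, v P * e P) := by
          intro s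
          induction s using Finset.induction_on with
          | empty => rw [Finset.prod_empty, Finset.sum_empty, idE_zero]
          | insert a s has ih =>
            rw [Finset.prod_insert has, Finset.sum_insert has, ih, idE_add hζ]
        rw [h6, h7, h4, idE_zero, one_mul]
      rw [hka] at h5
      have h8 : idE ζ (ka σ) = idE ζ (0 : ZMod l) := by
        rw [idE_zero]
        exact mul_right_cancel₀ hY0 (by rw [h5, one_mul])
      exact idE_inj hζ h8
    -- the element `t'`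
    obtain ⟨t, ht⟩ := id_t hl hζ
    obtain ⟨m, hm⟩ := IsPGroup.iff_card.1 hG
    set t' : Gm ℚ := t ^ l ^ m with ht'
    have hρt : ρ t' = 1 := by
      rw [ht', map_pow, ← hm]
      exact pow_card_eq_one'
    have hot : om t = 2 := by
      have h1 : t (idE ζ (1 : ZMod l)) = idE ζ (2 : ZMod l) := by
        rw [idE_one, ht, (by norm_num : (2 : ZMod l) = 1 + 1), idE_add hζ, idE_one, pow_two]
      rw [hom, mul_one] at h1
      exact idE_inj hζ h1
    have hom_pow : ∀ k : ℕ, om (t ^ k) = om t ^ k := by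
      intro k
      induction k with
      | zero =>
        rw [pow_zero, pow_zero]
        exact w_om 1 rfl
      | succ k ih => rw [pow_succ, om_mul, ih, pow_succ]
    have hot' : om t' = 2 := by
      rw [ht', hom_pow, hot, ZMod.pow_card_pow]
    have h21 : (1 : ZMod l) - 2 ≠ 0 := by
      have h3 : (1 : ZMod l) - 2 = -1 := by ring
      rw [h3]
      exact neg_ne_zero.2 one_ne_zero
    -- commutators
    have hcom : ∀ σ : Gm ℚ, ka (σ * t') = ka (t' * σ) := by
      intro σ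
      have hpw : ∀ (g : Gm ℚ) (x : Om ℚ), x ^ l ^ (n + 1) = 1 → ∃ i : ℕ, g x = x ^ i := by
        intro g x hx
        have : NeZero (l ^ (n + 1)) := ⟨pow_ne_zero _ hlp.ne_zero⟩
        obtain ⟨i, -, hi⟩ := hz.eq_pow_of_pow_eq_one (ξ := g z) (by
          rw [← map_pow, hz.pow_eq_one, map_one])
        obtain ⟨j, -, hj⟩ := hz.eq_pow_of_pow_eq_one hx
        refine ⟨i, ?_⟩
        rw [← hj, map_pow, ← hi, ← pow_mul, ← pow_mul, mul_comm]
      have hcm : ∀ (g h : Gm ℚ) (x : Om ℚ), x ^ l ^ (n + 1) = 1 → g (h x) = h (g x) := by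
        intro g h x hx
        obtain ⟨i, hi⟩ := hpw g x hx
        obtain ⟨j, hj⟩ := hpw h x hx
        rw [hj, map_pow, hi, map_pow, hj, ← pow_mul, ← pow_mul, mul_comm]
      set u : Gm ℚ := (σ * t') * (t' * σ)⁻¹ with hu
      have hu1 : ρ u = 1 := by
        rw [hu, map_mul, map_inv, map_mul, map_mul, hρt, mul_one, one_mul, mul_inv_cancel]
      have hu2 : u z = z := by
        set x : Om ℚ := (t' * σ)⁻¹ z with hx
        have hx1 : x ^ l ^ (n + 1) = 1 := by
          rw [hx, ← map_pow, hz.pow_eq_one, map_one]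
        have hx2 : t' (σ x) = z := (t' * σ).apply_symm_apply z
        show σ (t' x) = z
        rw [hcm σ t' x hx1, hx2]
      have hu3 : σ * t' = u * (t' * σ) := by
        rw [hu, inv_mul_cancel_right]
      rw [hu3, ka_mul, w_ka u hu1 hu2, w_om u hu2, zero_add, one_mul]
    set d : ZMod l := ka t' / (1 - 2) with hd
    have hkd : ∀ σ, ka σ = d * (1 - om σ) := by
      intro σ
      have h1 := hcom σ
      rw [ka_mul, ka_mul, hot'] at h1
      have h2 : ka σ * (1 - 2) = ka t' * (1 - om σ) := by linear_combination h1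
      rw [hd, div_mul_eq_mul_div, eq_div_iff h21, h2]
    -- the rational number
    have hfix : ∀ σ : Gm ℚ, σ (idE ζ d * Y) = idE ζ d * Y := by
      intro σ
      rw [map_mul, hom, hka, ← mul_assoc, ← idE_add hζ, hkd]
      congr 2
      ring
    obtain ⟨r, hr⟩ := id_qfix (idE ζ d * Y) hfix
    have hrl : r ^ l = ((∏ P : T, nrm (P : HeightOneSpectrum (𝓞 ℚ)) ^ (e P).val : ℕ) : ℚ) := by
      have h1 : ((r ^ l : ℚ) : Om ℚ) = (((∏ P : T, nrm (P : HeightOneSpectrum (𝓞 ℚ)) ^
          (e P).val : ℕ) : ℚ) : Om ℚ) := by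
        rw [Rat.cast_pow, hr, mul_pow, idE_powl hζ, one_mul, hYl]
      exact Rat.cast_injective h1
    have hdvd := id_val (Finset.univ : Finset T) (fun P => nrm (P : HeightOneSpectrum (𝓞 ℚ)))
      (fun P _ => h6.1 P) (fun P _ Q _ h => Subtype.ext (h6.2.1 P Q h)) (fun P => (e P).val)
      r hrl P0 (Finset.mem_univ _)
    have hlt := ZMod.val_lt (e P0)
    have hz0 : (e P0).val = 0 := Nat.eq_zero_of_dvd_of_lt hdvd hlt
    exact hP0 ((ZMod.val_eq_zero _).1 hz0)

end Pool.Agent.H38.SR
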