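import Pool.Agent.H38.SR.Stm
import Pool.Agent.H98.MF.L.Top

/-!
# Scholz-Reichardt (MP_a3214d, T4, block S), row SR-R1: inertia groups and Frobenius elements
(helper2)
-/

set_option autoImplicit false

open scoped BigOperators Pointwise
open NumberField IsDedekindDomain

namespace Pool.Agent.H38.SR

open Pool.Agent.H98.MF (Om Gm ord Dec top nrm top_prime top_comap tp_integral tp_cont)

section

variable {k : Type} [Field k] [NumberField k]

private theorem if_max (P : HeightOneSpectrum (𝓞 k)) : (top P).IsMaximal := by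
  have := tp_integral k (Om k)
  have := top_prime P
  refine Ideal.isMaximal_of_isIntegral_of_isMaximal_comap (R := 𝓞 k) (top P) ?_
  rw [top_comap]
  exact P.isMaximal

omit [NumberField k] in
private theorem if_scc : SMulCommClass (Gm k) (𝓞 k) (𝓞 (Om k)) := by
  constructor
  intro σ a b
  rw [Algebra.smul_def, Algebra.smul_def]
  apply RingOfIntegers.coe_injective
  show σ (algebraMap k (Om k) (a : k) * (b : Om k)) = algebraMap k (Om k) (a : k) * σ (b : Om k)
  rw [map_mul, σ.commutes]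

private theorem if_inv : Algebra.IsInvariant (𝓞 k) (𝓞 (Om k)) (Gm k) := by
  constructor
  intro b hb
  have h1 : (b : Om k) ∈ Set.range (algebraMap k (Om k)) := by
    rw [InfiniteGalois.mem_range_algebraMap_iff_fixed]
    intro σ
    have h2 : ((σ • b : 𝓞 (Om k)) : Om k) = b := by rw [hb σ]
    exact h2
  obtain ⟨a, ha⟩ := h1
  have h2 : IsIntegral ℤ a := by
    have h3 : IsIntegral ℤ (algebraMap k (Om k) a) := by rw [ha]; exact b.2
    exact (isIntegral_algebraMap_iff (algebraMap k (Om k)).injective).1 h3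
  exact ⟨⟨a, h2⟩, RingOfIntegers.coe_injective ha⟩

attribute [local instance] Ideal.Quotient.field in
private theorem if_exists (P : HeightOneSpectrum (𝓞 k)) : ∃ φ : Gm k, IsFr P φ := by
  let _ : TopologicalSpace (𝓞 (Om k)) := ⊥
  have : DiscreteTopology (𝓞 (Om k)) := ⟨rfl⟩
  have : ContinuousSMul (Gm k) (𝓞 (Om k)) := tp_cont k
  have := if_scc (k := k)
  have := if_inv (k := k)
  have := top_prime P
  have := if_max P
  have := tp_integral k (Om k)
  have : (top P).LiesOver P.asIdeal := ⟨(top_comap P).symm⟩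
  have : P.asIdeal.IsMaximal := P.isMaximal
  have : Finite (𝓞 k ⧸ P.asIdeal) := P.asIdeal.finiteQuotientOfFreeOfNeBot P.ne_bot
  obtain ⟨p, hc⟩ := CharP.exists (𝓞 k ⧸ P.asIdeal)
  cases nonempty_fintype (𝓞 k ⧸ P.asIdeal)
  obtain ⟨m, hp, hk⟩ := FiniteField.card (𝓞 k ⧸ P.asIdeal) p
  have := CharP.of_ringHom_of_ne_zero
    (algebraMap (𝓞 k ⧸ P.asIdeal) (𝓞 (Om k) ⧸ top P)) p hp.ne_zero
  have : ExpChar (𝓞 (Om k) ⧸ top P) p := .prime hp
  have : Algebra.IsIntegral (𝓞 k ⧸ P.asIdeal) (𝓞 (Om k) ⧸ top P) := by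
    constructor
    intro y
    obtain ⟨x, rfl⟩ := Ideal.Quotient.mk_surjective y
    have h1 : IsIntegral (𝓞 k) x := Algebra.IsIntegral.isIntegral x
    have h2 : IsIntegral (𝓞 k) (Ideal.Quotient.mk (top P) x) :=
      h1.map (Ideal.Quotient.mkₐ (𝓞 k) (top P))
    exact h2.tower_top
  have : Algebra.IsAlgebraic (𝓞 k ⧸ P.asIdeal) (𝓞 (Om k) ⧸ top P) := inferInstance
  have : PerfectField (𝓞 (Om k) ⧸ top P) :=
    Algebra.IsAlgebraic.perfectField (K := 𝓞 k ⧸ P.asIdeal)
  have : PerfectRing (𝓞 (Om k) ⧸ top P) p := PerfectField.toPerfectRing p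
  let l : (𝓞 (Om k) ⧸ top P) ≃ₐ[𝓞 k ⧸ P.asIdeal] 𝓞 (Om k) ⧸ top P :=
    { __ := iterateFrobeniusEquiv (𝓞 (Om k) ⧸ top P) p m,
      commutes' r := by
        dsimp [iterateFrobenius_def]
        rw [← map_pow, ← hk, FiniteField.pow_card] }
  obtain ⟨σ, hσ⟩ := Ideal.Quotient.stabilizerHom_surjective_of_profinite (G := Gm k)
    P.asIdeal (top P) l
  refine ⟨σ, fun x => ?_⟩
  have hn : nrm P = p ^ (m : ℕ) := by
    unfold nrm
    rw [Ideal.absNorm_apply, Submodule.cardQuot_apply, Nat.card_eq_fintype_card]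
    exact hk
  rw [← Ideal.Quotient.eq, hn]
  exact DFunLike.congr_fun hσ (Ideal.Quotient.mk (top P) x)

end

theorem sif : SIf := by
  intro k _ _ P
  refine ⟨Ideal.inertia_le_stabilizer _, if_exists P, ?_, ?_⟩
  · intro φ hφ
    have := top_prime P
    have hq : nrm P ≠ 0 := by
      intro h
      have h1 := hφ 0
      rw [h, pow_zero, smul_zero, zero_sub] at h1
      exact (top_prime P).ne_top ((Ideal.eq_top_iff_one _).2 (by
        simpa using (top P).neg_mem h1))
    show φ • top P = top P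
    have h2 : ∀ x : 𝓞 (Om k), φ • x ∈ top P ↔ x ∈ top P := by
      intro x
      constructor
      · intro h
        have h3 : x ^ nrm P ∈ top P := by
          have h4 := (top P).sub_mem h (hφ x)
          rwa [sub_sub_cancel] at h4
        exact (top_prime P).mem_of_pow_mem _ h3
      · intro h
        have h3 : x ^ nrm P ∈ top P := Ideal.pow_mem_of_mem _ h _ (Nat.pos_of_ne_zero hq)
        have h4 := (top P).add_mem (hφ x) h3
        rwa [sub_add_cancel] at h4
    ext x
    rw [Ideal.mem_pointwise_smul_iff_inv_smul_mem, ← h2, smul_inv_smul]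
  · intro σ hσ τ hτ x
    have h1 : σ • top P = top P := hσ
    have h2 : τ • (σ⁻¹ • x) - σ⁻¹ • x ∈ top P := hτ _
    have h3 : σ • (τ • (σ⁻¹ • x) - σ⁻¹ • x) ∈ σ • top P :=
      Ideal.smul_mem_pointwise_smul_iff.2 h2
    rw [h1, smul_sub, smul_inv_smul] at h3
    show (σ * τ * σ⁻¹) • x - x ∈ top P
    rw [mul_smul, mul_smul]
    exact h3

end Pool.Agent.H38.SR
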