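import Pool.Agent.H38.SR.Stm
import Pool.Agent.H92.EL.Ku
import Pool.Agent.H98.MF.L.CobN

/-!
# Scholz-Reichardt (MP_a3214d, T4, block S), row H3: a cocycle that is trivial on an open normal
subgroup is inflated in the multiplicative group
-/

set_option autoImplicit false

open scoped BigOperators Pointwise
open NumberField IsDedekindDomain

namespace Pool.Agent.H38.SR

open Pool.Agent.H98.MF (Om Gm)
open Pool.Agent.H92.EL (kuz kuz_zero kuz_add kuz_neg kuz_ne kuz_map SKuD)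

section

variable {Γ : Type} [Group Γ] {l : ℕ}

/-- representatives of the right cosets -/
theorem inf_rep [TopologicalSpace Γ] [IsTopologicalGroup Γ] (H : Subgroup Γ)
    (hH : IsOpen (H : Set Γ)) :
    ∃ r : Γ → Γ, (∀ g, g * (r g)⁻¹ ∈ H) ∧ (∀ h ∈ H, ∀ g, r (h * g) = r g) ∧ r 1 = 1 ∧
      IsLocallyConstant r := by
  classical
  have h0 : ∀ q : Quotient (QuotientGroup.rightRel H), ∃ s : Γ,
      Quotient.mk (QuotientGroup.rightRel H) s = q ∧
      (q = Quotient.mk (QuotientGroup.rightRel H) 1 → s = 1) := by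
    intro q
    by_cases h : q = Quotient.mk (QuotientGroup.rightRel H) 1
    · exact ⟨1, h.symm, fun _ => rfl⟩
    · exact ⟨q.out, Quotient.out_eq q, fun h' => absurd h' h⟩
  choose s hs1 hs2 using h0
  have hr : ∀ g, g * (s (Quotient.mk (QuotientGroup.rightRel H) g))⁻¹ ∈ H := by
    intro g
    have h1 := hs1 (Quotient.mk (QuotientGroup.rightRel H) g)
    have h2 := Quotient.exact h1
    exact QuotientGroup.rightRel_apply.1 h2
  have hr2 : ∀ h ∈ H, ∀ g, s (Quotient.mk (QuotientGroup.rightRel H) (h * g)) =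
      s (Quotient.mk (QuotientGroup.rightRel H) g) := by
    intro h hh g
    congr 1
    apply Quotient.sound
    apply QuotientGroup.rightRel_apply.2
    rw [mul_inv_rev, mul_inv_cancel_left]
    exact H.inv_mem hh
  refine ⟨fun g => s (Quotient.mk (QuotientGroup.rightRel H) g), hr, hr2, hs2 _ rfl, ?_⟩
  rw [IsLocallyConstant.iff_eventually_eq]
  intro g
  have h1 : IsOpen ((fun τ : Γ => τ * g⁻¹) ⁻¹' (H : Set Γ)) :=
    hH.preimage (continuous_id.mul continuous_const)
  have h2 : g ∈ (fun τ : Γ => τ * g⁻¹) ⁻¹' (H : Set Γ) := by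
    rw [Set.mem_preimage, mul_inv_cancel]
    exact H.one_mem
  filter_upwards [h1.mem_nhds h2] with τ hτ
  have h3 := hr2 (τ * g⁻¹) hτ g
  rwa [inv_mul_cancel_right] at h3

/-- the values at one -/
theorem inf_one {α : Γ → Γ → ZMod l}
    (hc : ∀ x y w, α x y + α (x * y) w = α y w + α x (y * w)) (x : Γ) :
    α 1 x = α 1 1 ∧ α x 1 = α 1 1 := by
  have h1 := hc 1 1 x
  have h2 := hc x 1 1
  rw [one_mul, one_mul] at h1
  rw [mul_one, one_mul] at h2
  exact ⟨(add_right_cancel h1).symm, by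
    have h3 : α x 1 + α x 1 = α x 1 + α 1 1 := by rw [h2, add_comm]
    exact add_left_cancel h3⟩

/-- reduction to a cocycle that vanishes on `H × Γ` -/
theorem inf_red [TopologicalSpace Γ] [IsTopologicalGroup Γ] {α : Γ → Γ → ZMod l} (hα : Z2 α)
    (H : Subgroup Γ) (f : Γ → ZMod l) (hf : IsLocallyConstant f)
    (hfa : ∀ σ ∈ H, ∀ τ ∈ H, f (σ * τ) = f σ + f τ + α σ τ) (r : Γ → Γ)
    (hr1 : ∀ g, g * (r g)⁻¹ ∈ H) (hr2 : ∀ h ∈ H, ∀ g, r (h * g) = r g) (hr3 : r 1 = 1)
    (hrl : IsLocallyConstant r) :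
    ∃ F : Γ → ZMod l, IsLocallyConstant F ∧
      ∀ h ∈ H, ∀ g, α h g - (F (h * g) - F h - F g) = 0 := by
  have hrh : ∀ h ∈ H, r h = 1 := by
    intro h hh
    have h1 := hr2 h hh 1
    rwa [mul_one, hr3] at h1
  have hsub : ∀ g, g * (r g)⁻¹ * r g = g := fun g => inv_mul_cancel_right g (r g)
  refine ⟨fun g => f (g * (r g)⁻¹) + α (g * (r g)⁻¹) (r g) - α 1 1, ?_, ?_⟩
  · have hc : Continuous fun g : Γ => g * (r g)⁻¹ :=
      continuous_id.mul ((hrl.comp fun x => x⁻¹).continuous)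
    have h1 : IsLocallyConstant fun g : Γ => f (g * (r g)⁻¹) := hf.comp_continuous hc
    have h2 : IsLocallyConstant fun g : Γ => α (g * (r g)⁻¹) (r g) :=
      hα.lc.comp_continuous (f := fun g : Γ => (g * (r g)⁻¹, r g)) (hc.prodMk hrl.continuous)
    exact (h1.add h2).sub (IsLocallyConstant.const _)
  · intro h hh g
    show α h g - ((f (h * g * (r (h * g))⁻¹) + α (h * g * (r (h * g))⁻¹) (r (h * g)) - α 1 1) -
      (f (h * (r h)⁻¹) + α (h * (r h)⁻¹) (r h) - α 1 1) -
      (f (g * (r g)⁻¹) + α (g * (r g)⁻¹) (r g) - α 1 1)) = 0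
    rw [hr2 h hh g, hrh h hh, inv_one, mul_one, (inf_one hα.cc h).2, mul_assoc h g,
      hfa h hh _ (hr1 g)]
    have h1 := hα.cc h (g * (r g)⁻¹) (r g)
    rw [hsub] at h1
    linear_combination -h1

variable {β : Γ → Γ → ZMod l} {H : Subgroup Γ}

theorem inf_b1 (hc : ∀ x y w, β x y + β (x * y) w = β y w + β x (y * w))
    (h0 : ∀ h ∈ H, ∀ g, β h g = 0) (h : Γ) (hh : h ∈ H) (g w : Γ) :
    β (h * g) w = β g w := by
  have h1 := hc h g w
  rw [h0 h hh, h0 h hh, zero_add, add_zero] at h1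
  exact h1

theorem inf_b2 [H.Normal] (hc : ∀ x y w, β x y + β (x * y) w = β y w + β x (y * w))
    (h0 : ∀ h ∈ H, ∀ g, β h g = 0) (x h : Γ) (hh : h ∈ H) (g : Γ) :
    β x (h * g) = β x h + β x g := by
  have h1 := hc x h g
  have h2 : x * h = x * h * x⁻¹ * x := by rw [inv_mul_cancel_right]
  rw [h0 h hh, zero_add, h2, inf_b1 hc h0 _ (Subgroup.Normal.conj_mem inferInstance h hh x)] at h1
  exact h1.symm

/-- the identity for the conjugates -/
theorem inf_b3 [H.Normal] (hc : ∀ x y w, β x y + β (x * y) w = β y w + β x (y * w))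
    (h0 : ∀ h ∈ H, ∀ g, β h g = 0) (x y h : Γ) (hh : h ∈ H) :
    β (x * y) ((x * y)⁻¹ * h * (x * y)) =
      β y ((x * y)⁻¹ * h * (x * y)) + β x (x⁻¹ * h * x) := by
  have h1 := hc x y ((x * y)⁻¹ * h * (x * y))
  have h2 : y * ((x * y)⁻¹ * h * (x * y)) = x⁻¹ * h * x * y := by group
  have h3 : x⁻¹ * h * x ∈ H := by
    have h4 := Subgroup.Normal.conj_mem (H := H) inferInstance h hh x⁻¹
    rwa [inv_inv] at h4
  rw [h2, inf_b2 hc h0 x _ h3] at h1
  linear_combination h1

end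

section

variable {K : Type} [Field K] [NumberField K] {l : ℕ} [Fact l.Prime]

theorem inf_kz (z : K) (σ : Gm K) (c : ZMod l) :
    σ (kuz (algebraMap K (Om K) z) c) = kuz (algebraMap K (Om K) z) c := by
  unfold kuz
  rw [map_pow, σ.commutes]

/-- the twisted sections -/
theorem inf_G (hD : SKuD) {z : K} (hz : IsPrimitiveRoot z l) {β : Gm K → Gm K → ZMod l}
    (hβ : Z2 β) {H : Subgroup (Gm K)} [H.Normal] (hH : IsOpen (H : Set (Gm K)))
    (h0 : ∀ h ∈ H, ∀ g, β h g = 0) (r : Gm K → Gm K) (hr1 : ∀ g, g * (r g)⁻¹ ∈ H)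
    (hr2 : ∀ h ∈ H, ∀ g, r (h * g) = r g) (hr3 : r 1 = 1) (hrl : IsLocallyConstant r) :
    ∃ G : Gm K → Om K, IsLocallyConstant G ∧ (∀ x, G x ≠ 0) ∧ G 1 = 1 ∧
      (∀ h ∈ H, ∀ x, G (h * x) = h (G x)) ∧
      ∀ h ∈ H, ∀ x, h (G x) =
        kuz (algebraMap K (Om K) z) (-β x (x⁻¹ * h * x)) * G x := by
  classical
  have hlp : l.Prime := Fact.out
  have : NeZero l := ⟨hlp.ne_zero⟩
  set w : Om K := algebraMap K (Om K) z with hw
  have hcl : IsClosed (H : Set (Gm K)) := Subgroup.isClosed_of_isOpen H hH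
  have hcj : ∀ s : Gm K, ∀ h ∈ H, s⁻¹ * h * s ∈ H := by
    intro s h hh
    have h4 := Subgroup.Normal.conj_mem (H := H) inferInstance h hh s⁻¹
    rwa [inv_inv] at h4
  have hy : ∀ s : Gm K, ∃ y : Om K, y ≠ 0 ∧ (s = 1 → y = 1) ∧
      ∀ h ∈ H, h y = kuz w (-β s (s⁻¹ * h * s)) * y := by
    intro s
    by_cases hs : s = 1
    · subst hs
      refine ⟨1, one_ne_zero, fun _ => rfl, fun h hh => ?_⟩
      rw [h0 1 H.one_mem, neg_zero, kuz_zero, one_mul, map_one]
    · obtain ⟨y, hy1, hy2⟩ := hD l hlp K z hz H hcl (fun h => -β s (s⁻¹ * h * s)) (by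
        have hc : Continuous fun h : Gm K => (s, s⁻¹ * h * s) :=
          continuous_const.prodMk ((continuous_const.mul continuous_id).mul continuous_const)
        exact (hβ.lc.comp_continuous hc).neg) (by
        intro σ hσ τ hτ
        have h1 : s⁻¹ * (σ * τ) * s = s⁻¹ * σ * s * (s⁻¹ * τ * s) := by group
        rw [h1, inf_b2 hβ.cc h0 s _ (hcj s σ hσ), neg_add])
      exact ⟨y, hy1, fun h => absurd h hs, hy2⟩
  choose y hy1 hy2 hy3 using hy
  refine ⟨fun g => (g * (r g)⁻¹) (y (r g)), ?_, ?_, ?_, ?_, ?_⟩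
  · rw [IsLocallyConstant.iff_eventually_eq]
    intro g
    have h1 : IsLocallyConstant fun τ : Gm K => (τ * (r g)⁻¹) (y (r g)) :=
      (Pool.Agent.H98.MF.cn_ev (y (r g))).comp_continuous (continuous_id.mul continuous_const)
    have h2 := (IsLocallyConstant.iff_eventually_eq _).1 hrl g
    have h3 := (IsLocallyConstant.iff_eventually_eq _).1 h1 g
    filter_upwards [h2, h3] with τ e2 e3
    rw [e2, e3]
  · intro x
    exact (map_ne_zero_iff _ (x * (r x)⁻¹).injective).2 (hy1 _)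
  · show (1 * (r 1)⁻¹ : Gm K) (y (r 1)) = 1
    rw [hr3, inv_one, one_mul, AlgEquiv.one_apply]
    exact hy2 1 rfl
  · intro h hh x
    show (h * x * (r (h * x))⁻¹) (y (r (h * x))) = h ((x * (r x)⁻¹) (y (r x)))
    rw [hr2 h hh x, mul_assoc, AlgEquiv.mul_apply]
  · intro h hh x
    show h ((x * (r x)⁻¹) (y (r x))) =
      kuz w (-β x (x⁻¹ * h * x)) * (x * (r x)⁻¹) (y (r x))
    have hk := hr1 x
    set k := x * (r x)⁻¹ with hkdef
    have hx : x = k * r x := by rw [hkdef, inv_mul_cancel_right]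
    have h1 : k⁻¹ * h * k ∈ H := hcj k h hh
    have h2 : h (k (y (r x))) = k ((k⁻¹ * h * k) (y (r x))) := by
      rw [← AlgEquiv.mul_apply, ← AlgEquiv.mul_apply]
      congr 1
      group
    have h3 : β x (x⁻¹ * h * x) = β (r x) ((r x)⁻¹ * (k⁻¹ * h * k) * r x) := by
      have h4 : x⁻¹ * h * x = (r x)⁻¹ * (k⁻¹ * h * k) * r x := by
        conv_lhs => rw [hx]
        group
      rw [← h4]
      have h5 := inf_b1 hβ.cc h0 k hk (r x) (x⁻¹ * h * x)
      rwa [← hx] at h5
    rw [h2, hy3 (r x) _ h1, map_mul, ← h3, hw, inf_kz]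

/-- the inflated cocycle for a normalised cocycle -/
theorem inf_c {z : K} (hz : IsPrimitiveRoot z l) {β : Gm K → Gm K → ZMod l}
    (hβ : Z2 β) {H : Subgroup (Gm K)} [H.Normal] (h0 : ∀ h ∈ H, ∀ g, β h g = 0)
    (G : Gm K → Om K) (hG0 : ∀ x, G x ≠ 0) (hG1 : G 1 = 1)
    (hG2 : ∀ h ∈ H, ∀ x, G (h * x) = h (G x))
    (hG3 : ∀ h ∈ H, ∀ x, h (G x) =
      kuz (algebraMap K (Om K) z) (-β x (x⁻¹ * h * x)) * G x) :
    ∃ c : Gm K → Gm K → Om K, (∀ x y, c x y ≠ 0) ∧ c 1 1 = 1 ∧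
      (∀ x y, kuz (algebraMap K (Om K) z) (β x y) * G (x * y) = G x * x (G y) * c x y) ∧
      ∀ x y, ∀ h ∈ H, c (h * x) y = c x y ∧ c x (h * y) = c x y ∧ h (c x y) = c x y := by
  have hlp : l.Prime := Fact.out
  have : NeZero l := ⟨hlp.ne_zero⟩
  have hw1 : (algebraMap K (Om K) z) ^ l = 1 := by rw [← map_pow, hz.pow_eq_one, map_one]
  set w : Om K := algebraMap K (Om K) z with hw
  have hne : ∀ a : ZMod l, kuz w a ≠ 0 := fun a => kuz_ne hw1 a
  have hkz : ∀ (σ : Gm K) (a : ZMod l), σ (kuz w a) = kuz w a := fun σ a => inf_kz z σ a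
  have hxG : ∀ x y : Gm K, x (G y) ≠ 0 := fun x y =>
    (map_ne_zero_iff _ x.injective).2 (hG0 y)
  set c : Gm K → Gm K → Om K := fun x y => kuz w (β x y) * G (x * y) / (G x * x (G y)) with hc
  have hfix : ∀ x y, ∀ h ∈ H, h (c x y) = c x y := by
    intro x y h hh
    have e1 : h (G (x * y)) = kuz w (-β (x * y) ((x * y)⁻¹ * h * (x * y))) * G (x * y) :=
      hG3 h hh (x * y)
    have e2 : h (G x) = kuz w (-β x (x⁻¹ * h * x)) * G x := hG3 h hh x
    have h3 : x⁻¹ * h * x ∈ H := by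
      have h4 := Subgroup.Normal.conj_mem (H := H) inferInstance h hh x⁻¹
      rwa [inv_inv] at h4
    have e3 : h (x (G y)) = kuz w (-β y ((x * y)⁻¹ * h * (x * y))) * x (G y) := by
      have h5 : h (x (G y)) = x ((x⁻¹ * h * x) (G y)) := by
        rw [← AlgEquiv.mul_apply, ← AlgEquiv.mul_apply]
        congr 1
        group
      have h6 : y⁻¹ * (x⁻¹ * h * x) * y = (x * y)⁻¹ * h * (x * y) := by group
      rw [h5, hG3 _ h3 y, map_mul, hkz, h6]
    have e4 : kuz w (-β (x * y) ((x * y)⁻¹ * h * (x * y))) =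
        kuz w (-β x (x⁻¹ * h * x)) * kuz w (-β y ((x * y)⁻¹ * h * (x * y))) := by
      rw [← kuz_add hw1, inf_b3 hβ.cc h0 x y h hh]
      congr 1
      ring
    show h (kuz w (β x y) * G (x * y) / (G x * x (G y))) =
      kuz w (β x y) * G (x * y) / (G x * x (G y))
    rw [map_div₀, map_mul, map_mul, hkz, e1, e2, e3, e4]
    have n1 := hne (-β x (x⁻¹ * h * x))
    have n2 := hne (-β y ((x * y)⁻¹ * h * (x * y)))
    have n3 := hG0 x
    have n4 := hxG x y
    field_simp
  refine ⟨c, ?_, ?_, ?_, ?_⟩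
  · intro x y
    exact div_ne_zero (mul_ne_zero (hne _) (hG0 _)) (mul_ne_zero (hG0 _) (hxG _ _))
  · show kuz w (β 1 1) * G (1 * 1) / (G 1 * (1 : Gm K) (G 1)) = 1
    rw [h0 1 H.one_mem, kuz_zero, one_mul, one_mul, hG1, map_one, one_mul, div_one]
  · intro x y
    show kuz w (β x y) * G (x * y) =
      G x * x (G y) * (kuz w (β x y) * G (x * y) / (G x * x (G y)))
    rw [mul_div_cancel₀ _ (mul_ne_zero (hG0 _) (hxG _ _))]
  · intro x y h hh
    refine ⟨?_, ?_, hfix x y h hh⟩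
    · have e1 : c (h * x) y = h (c x y) := by
        show kuz w (β (h * x) y) * G (h * x * y) / (G (h * x) * (h * x) (G y)) =
          h (kuz w (β x y) * G (x * y) / (G x * x (G y)))
        rw [inf_b1 hβ.cc h0 h hh, mul_assoc h x y, hG2 h hh, hG2 h hh, AlgEquiv.mul_apply,
          map_div₀, map_mul, map_mul, hkz]
      rw [e1, hfix x y h hh]
    · have h3 : x * h * x⁻¹ ∈ H := Subgroup.Normal.conj_mem (H := H) inferInstance h hh x
      have e1 : c x (h * y) = (x * h * x⁻¹) (c x y) := by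
        have e2 : G (x * (h * y)) = (x * h * x⁻¹) (G (x * y)) := by
          rw [← hG2 _ h3]
          congr 1
          group
        have e3 : x (G (h * y)) = (x * h * x⁻¹) (x (G y)) := by
          rw [hG2 h hh, ← AlgEquiv.mul_apply, ← AlgEquiv.mul_apply]
          congr 1
          group
        have e4 : (x * h * x⁻¹) (G x) = kuz w (-β x h) * G x := by
          rw [hG3 _ h3]
          congr 3
          group
        have e5 : kuz w (-β x h) * kuz w (β x h) = 1 := kuz_neg hw1 _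
        show kuz w (β x (h * y)) * G (x * (h * y)) / (G x * x (G (h * y))) =
          (x * h * x⁻¹) (kuz w (β x y) * G (x * y) / (G x * x (G y)))
        rw [e2, e3, inf_b2 hβ.cc h0 x h hh, kuz_add hw1, map_div₀, map_mul, map_mul, hkz, e4]
        have n1 := hne (-β x h)
        have n2 := hG0 x
        have n3 : (x * h * x⁻¹) (x (G y)) ≠ 0 :=
          (map_ne_zero_iff _ (x * h * x⁻¹).injective).2 (hxG x y)
        rw [div_eq_div_iff (mul_ne_zero n2 n3) (mul_ne_zero (mul_ne_zero n1 n2) n3)]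
        linear_combination (kuz w (β x y) * (x * h * x⁻¹) (G (x * y)) * G x *
          (x * h * x⁻¹) (x (G y))) * e5
      rw [e1, hfix x y _ h3]

end

/-- H3 -/
theorem sinf (hD : SKuD) : SInf := by
  intro l _ K _ _ z hz α hα H hHn hH hcob
  obtain ⟨f, hf, hfa⟩ := hcob
  have hlp : l.Prime := Fact.out
  have : NeZero l := ⟨hlp.ne_zero⟩
  have : H.Normal := hHn
  have hw1 : (algebraMap K (Om K) z) ^ l = 1 := by rw [← map_pow, hz.pow_eq_one, map_one]
  obtain ⟨r, hr1, hr2, hr3, hrl⟩ := inf_rep H hH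
  obtain ⟨F, hF, h0⟩ := inf_red hα H f hf hfa r hr1 hr2 hr3 hrl
  have hβ : Z2 (fun x y => α x y - (F (x * y) - F x - F y)) := by
    constructor
    · have hm : Continuous fun p : Gm K × Gm K => p.1 * p.2 := continuous_mul
      have h1 : IsLocallyConstant fun p : Gm K × Gm K => F (p.1 * p.2) := hF.comp_continuous hm
      have h2 : IsLocallyConstant fun p : Gm K × Gm K => F p.1 := hF.comp_continuous continuous_fst
      have h3 : IsLocallyConstant fun p : Gm K × Gm K => F p.2 := hF.comp_continuous continuous_snd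
      exact hα.lc.sub ((h1.sub h2).sub h3)
    · intro x y w
      show α x y - (F (x * y) - F x - F y) + (α (x * y) w - (F (x * y * w) - F (x * y) - F w)) =
        α y w - (F (y * w) - F y - F w) + (α x (y * w) - (F (x * (y * w)) - F x - F (y * w)))
      rw [mul_assoc x y w]
      linear_combination hα.cc x y w
  obtain ⟨G, g1, g2, g3, g4, g5⟩ := inf_G hD hz hβ hH h0 r hr1 hr2 hr3 hrl
  obtain ⟨c, c1, c2, c3, c4⟩ := inf_c hz hβ h0 G g2 g3 g4 g5
  refine ⟨fun x => G x * kuz (algebraMap K (Om K) z) (-F x), c, ?_, ?_, c1, c2, ?_, c4⟩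
  · exact g1.mul (hF.comp fun a => kuz (algebraMap K (Om K) z) (-a))
  · intro x
    exact mul_ne_zero (g2 x) (kuz_ne hw1 _)
  · intro x y
    show kuz (algebraMap K (Om K) z) (α x y) * (G (x * y) * kuz (algebraMap K (Om K) z)
      (-F (x * y))) = G x * kuz (algebraMap K (Om K) z) (-F x) *
        x (G y * kuz (algebraMap K (Om K) z) (-F y)) * c x y
    rw [map_mul, inf_kz]
    have e1 : kuz (algebraMap K (Om K) z) (α x y) * kuz (algebraMap K (Om K) z) (-F (x * y)) =
        kuz (algebraMap K (Om K) z) (α x y - (F (x * y) - F x - F y)) *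
          (kuz (algebraMap K (Om K) z) (-F x) * kuz (algebraMap K (Om K) z) (-F y)) := by
      rw [← kuz_add hw1, ← kuz_add hw1, ← kuz_add hw1]
      congr 1
      ring
    have e2 := c3 x y
    linear_combination G (x * y) * e1 + kuz (algebraMap K (Om K) z) (-F x) *
      kuz (algebraMap K (Om K) z) (-F y) * e2

end Pool.Agent.H38.SR
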