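import Pool.Agent.H38.SR.Stm
import Pool.Agent.H38.SR.If
import Pool.Agent.H98.MF.L.Top

/-!
# Scholz-Reichardt (MP_a3214d, T4, block S), row SR-R2: inertia groups of quotients, generation of
decomposition groups by Frobenius elements and inertia
-/

set_option autoImplicit false

open scoped BigOperators Pointwise
open NumberField IsDedekindDomain

namespace Pool.Agent.H38.SR

open Pool.Agent.H98.MF (Om Gm ord Dec top nrm top_prime top_comap tp_integral tp_cont low
  low_prime low_comap low_ne_bot nf_of_fd dec_restrict tp_res tp_mem_low)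

section

variable {k : Type} [Field k] [NumberField k]

/-- the integers fixed by `U` -/
def iqR (U : Subgroup (Gm k)) : Subring (𝓞 (Om k)) where
  carrier := {x | ∀ u ∈ U, u • x = x}
  mul_mem' := by
    intro a b ha hb u hu
    rw [smul_mul', ha u hu, hb u hu]
  one_mem' := fun u _ => smul_one u
  add_mem' := by
    intro a b ha hb u hu
    rw [smul_add, ha u hu, hb u hu]
  zero_mem' := fun u _ => smul_zero u
  neg_mem' := by
    intro a ha u hu
    rw [smul_neg, ha u hu]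

omit [NumberField k] in
theorem iq_mem {U : Subgroup (Gm k)} {x : 𝓞 (Om k)} : x ∈ iqR U ↔ ∀ u ∈ U, u • x = x := Iff.rfl

omit [NumberField k] in
theorem iq_scc (U : Subgroup (Gm k)) : SMulCommClass U (iqR U) (𝓞 (Om k)) := by
  constructor
  intro u a b
  show (u : Gm k) • ((a : 𝓞 (Om k)) * b) = (a : 𝓞 (Om k)) * ((u : Gm k) • b)
  rw [smul_mul', a.2 u u.2]

omit [NumberField k] in
theorem iq_inv (U : Subgroup (Gm k)) : Algebra.IsInvariant (iqR U) (𝓞 (Om k)) U := by
  constructor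
  intro b hb
  exact ⟨⟨b, fun u hu => hb ⟨u, hu⟩⟩, rfl⟩

/-- the inertia group of a quotient -/
theorem iq_a (P : HeightOneSpectrum (𝓞 k)) (U : Subgroup (Gm k)) (hU : IsOpen (U : Set (Gm k)))
    (σ : Gm k) (hσ : ∀ x : 𝓞 (Om k), (∀ u ∈ U, u • x = x) → σ • x - x ∈ top P) :
    ∃ τ ∈ Ine P, τ⁻¹ * σ ∈ U := by
  let _ : TopologicalSpace (𝓞 (Om k)) := ⊥
  have : DiscreteTopology (𝓞 (Om k)) := ⟨rfl⟩
  have : ContinuousSMul (Gm k) (𝓞 (Om k)) := tp_cont k
  have := top_prime P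
  have hcl : IsClosed (U : Set (Gm k)) := U.isClosed_of_isOpen hU
  have : CompactSpace U := isCompact_iff_compactSpace.1 hcl.isCompact
  have := iq_scc U
  have := iq_inv U
  have hσp : (σ⁻¹ • top P).IsPrime := Ideal.IsPrime.smul _
  have hund : (σ⁻¹ • top P).under (iqR U) = (top P).under (iqR U) := by
    ext x
    rw [Ideal.mem_comap, Ideal.mem_comap, Ideal.mem_pointwise_smul_iff_inv_smul_mem, inv_inv]
    have h1 := hσ (x : 𝓞 (Om k)) x.2
    change σ • (x : 𝓞 (Om k)) ∈ top P ↔ (x : 𝓞 (Om k)) ∈ top P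
    constructor
    · intro h
      have h2 := (top P).sub_mem h h1
      rwa [sub_sub_cancel] at h2
    · intro h
      have h2 := (top P).add_mem h1 h
      rwa [sub_add_cancel] at h2
  obtain ⟨u, hu⟩ := Algebra.IsInvariant.exists_smul_of_under_eq_of_profinite (A := iqR U)
    (G := U) (σ⁻¹ • top P) (top P) hund
  have hu1 : (u : Gm k) • (σ⁻¹ • top P) = top P := hu.symm
  -- `σ u⁻¹` stabilises `top P` and acts trivially on the fixed integers
  have hs : (σ * (u : Gm k)⁻¹) • top P = top P := by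
    conv_lhs => rw [← hu1]
    rw [mul_smul, inv_smul_smul, smul_inv_smul]
  set δ : Gm k := σ * (u : Gm k)⁻¹ with hδ
  have hδ1 : ∀ x : 𝓞 (Om k), x ∈ iqR U → δ • x - x ∈ top P := by
    intro x hx
    rw [hδ, mul_smul, hx _ (U.inv_mem u.2)]
    exact hσ x hx
  have hmap : top P = Ideal.map (MulSemiringAction.toRingEquiv (Gm k) (𝓞 (Om k)) δ : 𝓞 (Om k) →+*
      𝓞 (Om k)) (top P) := by
    conv_lhs => rw [← hs]
    rfl
  let e : (𝓞 (Om k) ⧸ top P) ≃+* (𝓞 (Om k) ⧸ top P) :=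
    Ideal.quotientEquiv (top P) (top P) (MulSemiringAction.toRingEquiv (Gm k) (𝓞 (Om k)) δ) hmap
  have he : ∀ x : 𝓞 (Om k), e (Ideal.Quotient.mk (top P) x) = Ideal.Quotient.mk (top P) (δ • x) :=
    fun x => rfl
  have hcom : ∀ r : iqR U ⧸ (top P).under (iqR U),
      e (algebraMap _ (𝓞 (Om k) ⧸ top P) r) = algebraMap _ (𝓞 (Om k) ⧸ top P) r := by
    intro r
    obtain ⟨x, rfl⟩ := Ideal.Quotient.mk_surjective r
    have h1 : algebraMap (iqR U ⧸ (top P).under (iqR U)) (𝓞 (Om k) ⧸ top P)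
        (Ideal.Quotient.mk _ x) = Ideal.Quotient.mk (top P) (x : 𝓞 (Om k)) := rfl
    rw [h1, he, Ideal.Quotient.eq]
    exact hδ1 x x.2
  obtain ⟨w, hw⟩ := Ideal.Quotient.stabilizerHom_surjective_of_profinite (G := U)
    ((top P).under (iqR U)) (top P) (AlgEquiv.ofRingEquiv hcom)
  have hw1 : ∀ x : 𝓞 (Om k), ((w : U) : Gm k) • x - δ • x ∈ top P := by
    intro x
    rw [← Ideal.Quotient.eq]
    exact DFunLike.congr_fun hw (Ideal.Quotient.mk (top P) x)
  refine ⟨δ * ((w : U) : Gm k)⁻¹, ?_, ?_⟩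
  · intro x
    have h1 := hw1 (((w : U) : Gm k)⁻¹ • x)
    rw [smul_inv_smul] at h1
    show (δ * ((w : U) : Gm k)⁻¹) • x - x ∈ top P
    rw [mul_smul, ← neg_sub]
    exact (top P).neg_mem h1
  · have h1 : (δ * ((w : U) : Gm k)⁻¹)⁻¹ * σ = ((w : U) : Gm k) * (u : Gm k) := by
      rw [hδ]
      group
    rw [h1]
    exact U.mul_mem (w : U).2 u.2

omit [NumberField k] in
theorem iq_scc2 (K : IntermediateField k (Om k)) :
    SMulCommClass (K ≃ₐ[k] K) (𝓞 k) (𝓞 K) := by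
  constructor
  intro σ a b
  rw [Algebra.smul_def, Algebra.smul_def]
  apply RingOfIntegers.coe_injective
  show σ (algebraMap k K (a : k) * (b : K)) = algebraMap k K (a : k) * σ (b : K)
  rw [map_mul, σ.commutes]

/-- powers of Frobenius elements -/
theorem iq_pow {P : HeightOneSpectrum (𝓞 k)} {φ : Gm k} (hφ : IsFr P φ) (n : ℕ)
    (x : 𝓞 (Om k)) : (φ ^ n) • x - x ^ nrm P ^ n ∈ top P := by
  induction n generalizing x with
  | zero =>
    rw [pow_zero, one_smul, pow_zero, pow_one, sub_self]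
    exact (top P).zero_mem
  | succ n ih =>
    have h1 := ih (φ • x)
    have h2 : (φ • x) ^ nrm P ^ n - (x ^ nrm P) ^ nrm P ^ n ∈ top P := by
      rw [← Ideal.Quotient.eq, map_pow, map_pow]
      congr 1
      rw [Ideal.Quotient.eq]
      exact hφ x
    have h3 := (top P).add_mem h1 h2
    rw [sub_add_sub_cancel, ← pow_mul, ← pow_succ', ← mul_smul, ← pow_succ] at h3
    exact h3

attribute [local instance] Ideal.Quotient.field in
/-- elements of the decomposition group act on the residue field of a layer as powers of the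
Frobenius automorphism -/
theorem iq_lay (P : HeightOneSpectrum (𝓞 k)) (K : IntermediateField k (Om k))
    [FiniteDimensional k K] [Normal k K] (σ : Gm k) (hσ : σ ∈ Dec P) :
    ∃ n : ℕ, ∀ x : 𝓞 K, σ • algebraMap (𝓞 K) (𝓞 (Om k)) x -
      algebraMap (𝓞 K) (𝓞 (Om k)) x ^ nrm P ^ n ∈ top P := by
  have := nf_of_fd K
  have hp := low_prime P K
  have hmax : (low P K).IsMaximal :=
    Ring.DimensionLEOne.maximalOfPrime (low_ne_bot P K) hp
  have : Finite (𝓞 K ⧸ low P K) := (low P K).finiteQuotientOfFreeOfNeBot (low_ne_bot P K)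
  have : P.asIdeal.IsMaximal := P.isMaximal
  have : Finite (𝓞 k ⧸ P.asIdeal) := P.asIdeal.finiteQuotientOfFreeOfNeBot P.ne_bot
  have : (low P K).LiesOver P.asIdeal := ⟨(low_comap P K).symm⟩
  have := iq_scc2 K
  cases nonempty_fintype (𝓞 k ⧸ P.asIdeal)
  have : Algebra.IsAlgebraic (𝓞 k ⧸ P.asIdeal) (𝓞 K ⧸ low P K) := by
    have : Module.Finite (𝓞 k ⧸ P.asIdeal) (𝓞 K ⧸ low P K) := Module.Finite.of_finite
    exact Algebra.IsAlgebraic.of_finite _ _
  let g : MulAction.stabilizer (K ≃ₐ[k] K) (low P K) :=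
    ⟨AlgEquiv.restrictNormal σ K, dec_restrict P K σ hσ⟩
  obtain ⟨n, hn⟩ := (FiniteField.bijective_frobeniusAlgEquivOfAlgebraic_pow
    (𝓞 k ⧸ P.asIdeal) (𝓞 K ⧸ low P K)).2
    (Ideal.Quotient.stabilizerHom (low P K) P.asIdeal (K ≃ₐ[k] K) g)
  refine ⟨n, fun x => ?_⟩
  have hq : Fintype.card (𝓞 k ⧸ P.asIdeal) = nrm P := by
    unfold nrm
    rw [Ideal.absNorm_apply, Submodule.cardQuot_apply, Nat.card_eq_fintype_card]
  have h1 := DFunLike.congr_fun hn (Ideal.Quotient.mk (low P K) x)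
  have h2 : (FiniteField.frobeniusAlgEquivOfAlgebraic (𝓞 k ⧸ P.asIdeal) (𝓞 K ⧸ low P K) ^
      (n : ℕ)) (Ideal.Quotient.mk (low P K) x) =
      Ideal.Quotient.mk (low P K) (x ^ nrm P ^ (n : ℕ)) := by
    rw [map_pow, ← hq]
    rw [AlgEquiv.coe_pow]
    exact congrFun (FiniteField.coe_frobeniusAlgEquivOfAlgebraic_iterate _ _ (n : ℕ)) _
  have h3 : Ideal.Quotient.stabilizerHom (low P K) P.asIdeal (K ≃ₐ[k] K) g
      (Ideal.Quotient.mk (low P K) x) =
      Ideal.Quotient.mk (low P K) (AlgEquiv.restrictNormal σ K • x) := rfl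
  have h4 : AlgEquiv.restrictNormal σ K • x - x ^ nrm P ^ (n : ℕ) ∈ low P K := by
    rw [← Ideal.Quotient.eq, ← h3, ← h2]
    exact h1.symm
  rw [tp_mem_low, map_sub, map_pow, tp_res] at h4
  exact h4

end

theorem siq : SIq := by
  intro k _ _ P U hN hU
  refine ⟨iq_a P U hU, fun φ hφ σ hσ => ?_⟩
  have hcl : IsClosed (U : Set (Gm k)) := U.isClosed_of_isOpen hU
  let K := IntermediateField.fixedField U
  have hK : K.fixingSubgroup = U :=
    InfiniteGalois.fixingSubgroup_fixedField (⟨U, hcl⟩ : ClosedSubgroup (Gm k))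
  have : FiniteDimensional k K :=
    (InfiniteGalois.isOpen_iff_finite K).1 (by rw [hK]; exact hU)
  have : IsGalois k K := (InfiniteGalois.normal_iff_isGalois K).1 (by rw [hK]; exact hN)
  obtain ⟨n, hn⟩ := iq_lay P K σ hσ
  have hφD : φ ∈ Dec P := (sif k P).2.2.1 φ hφ
  have hφn : φ ^ n ∈ Dec P := (Dec P).pow_mem hφD n
  have h1 : ∀ x : 𝓞 (Om k), (∀ u ∈ U, u • x = x) → ((φ ^ n)⁻¹ * σ) • x - x ∈ top P := by
    intro x hx
    have hxK : (x : Om k) ∈ K := by
      rw [IntermediateField.mem_fixedField_iff]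
      intro u hu
      have h2 := congrArg (fun y : 𝓞 (Om k) => (y : Om k)) (hx u hu)
      exact h2
    have hint : IsIntegral ℤ (⟨(x : Om k), hxK⟩ : K) := by
      have h3 : IsIntegral ℤ (algebraMap K (Om k) ⟨(x : Om k), hxK⟩) := x.2
      exact (isIntegral_algebraMap_iff (algebraMap K (Om k)).injective).1 h3
    obtain ⟨y, hy⟩ : ∃ y : 𝓞 K, algebraMap (𝓞 K) (𝓞 (Om k)) y = x :=
      ⟨⟨⟨(x : Om k), hxK⟩, hint⟩, RingOfIntegers.coe_injective rfl⟩
    have h2 := hn y
    rw [hy] at h2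
    have h3 := (top P).sub_mem h2 (iq_pow hφ n x)
    rw [sub_sub_sub_cancel_right] at h3
    have h4 : (φ ^ n)⁻¹ • (σ • x - (φ ^ n) • x) ∈ (φ ^ n)⁻¹ • top P :=
      Ideal.smul_mem_pointwise_smul_iff.2 h3
    have h5 : (φ ^ n)⁻¹ • top P = top P := (Dec P).inv_mem hφn
    rw [h5, smul_sub, inv_smul_smul] at h4
    rw [mul_smul]
    exact h4
  obtain ⟨τ, hτ, hτU⟩ := iq_a P U hU _ h1
  refine ⟨n, τ, hτ, ?_⟩
  rw [mul_inv_rev, mul_assoc]
  exact hτU

end Pool.Agent.H38.SR
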