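import Pool.Agent.H38.SR.Stm
import Pool.Agent.H98.MF.L.ChiB

/-!
# Scholz-Reichardt (MP_a3214d, T4, block S), I2: a lift that is unramified at `l`
-/

set_option autoImplicit false

open scoped BigOperators Pointwise
open NumberField IsDedekindDomain

namespace Pool.Agent.H38.SR

open Pool.Agent.H98.MF (Om Gm Dec top nrm lc_unif)

/-- coordinates on the kernel of a central extension of prime order -/
private theorem kl_co {l : ℕ} [Fact l.Prime] {E G : Type} [Group E] [Group G] {π : E →* G}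
    (hC : Cx l π) : ∃ (ι : ZMod l → E) (κ : E → ZMod l), (∀ a b, ι (a + b) = ι a * ι b) ∧
      (∀ a, π (ι a) = 1) ∧ (∀ c, π c = 1 → ι (κ c) = c) ∧
      ∀ c d, π c = 1 → π d = 1 → κ (c * d) = κ c + κ d := by
  classical
  have h1 : Nat.card (Multiplicative (ZMod l)) = l := by
    rw [Nat.card_congr Multiplicative.toAdd, Nat.card_zmod]
  let e : Multiplicative (ZMod l) ≃* π.ker := mulEquivOfPrimeCardEq h1 hC.crd
  have hmem : ∀ c, π c = 1 → c ∈ π.ker := fun c hc => hc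
  refine ⟨fun t => (e (Multiplicative.ofAdd t) : E),
    fun c => if h : π c = 1 then Multiplicative.toAdd (e.symm ⟨c, hmem c h⟩) else 0, ?_, ?_, ?_,
    ?_⟩
  · intro a b
    show (e (Multiplicative.ofAdd (a + b)) : E) = _
    rw [ofAdd_add, map_mul, Subgroup.coe_mul]
  · intro a
    exact (e (Multiplicative.ofAdd a)).2
  · intro c hc
    show (e (Multiplicative.ofAdd (if h : π c = 1 then
      Multiplicative.toAdd (e.symm ⟨c, hmem c h⟩) else 0)) : E) = c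
    rw [dif_pos hc, ofAdd_toAdd, MulEquiv.apply_symm_apply]
  · intro c d hc hd
    have hcd : π (c * d) = 1 := by rw [map_mul, hc, hd, mul_one]
    show (if h : π (c * d) = 1 then Multiplicative.toAdd (e.symm ⟨c * d, hmem _ h⟩) else 0) =
      (if h : π c = 1 then Multiplicative.toAdd (e.symm ⟨c, hmem c h⟩) else 0) +
      (if h : π d = 1 then Multiplicative.toAdd (e.symm ⟨d, hmem d h⟩) else 0)
    rw [dif_pos hcd, dif_pos hc, dif_pos hd, ← toAdd_mul, ← map_mul]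
    rfl

/-- a lift that is unramified at `l` -/
theorem skl (hf : SIf) (hq : SIq) (h6 : SPq) (hu : SUr) (he : SEl) : SKl := by
  classical
  intro l _ hl2 E G _ _ _ π hC ρ₀ hρ₀ hram
  obtain ⟨P, hP⟩ := h6.2.2.1 l Fact.out
  have hPu : ∀ Q : HeightOneSpectrum (𝓞 ℚ), nrm Q = l → Q = P := fun Q hQ =>
    h6.2.1 Q P (hQ.trans hP.symm)
  obtain ⟨hID, ⟨φ, hφ⟩, hFD, -⟩ := hf ℚ P
  have hφD := hFD φ hφ
  have hm0 : NeZero (Nat.card E) := ⟨Nat.card_pos.ne'⟩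
  obtain ⟨n, hn, hnD, hnI, hnF⟩ := hu ℚ P (Nat.card E)
  have hn1 : n 1 = 0 := hnI 1 (one_mem _)
  have hcen : ∀ c, π c = 1 → ∀ e, c * e = e * c := hC.cen
  -- an open subgroup
  obtain ⟨U, hUn, hUo, hU⟩ := lc_unif (fun σ : Gm ℚ => (ρ₀ σ, n σ)) (hρ₀.prodMk hn)
  have hU1 : ∀ u ∈ U, ρ₀ u = 1 ∧ n u = 0 := by
    intro u hu
    have h := hU 1 u hu
    simp only [one_mul, Prod.mk.injEq] at h
    exact ⟨h.1.trans (map_one ρ₀), h.2.trans hn1⟩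
  -- the unramified part
  have hpow : ∀ (a : E) (i : ℕ), a ^ (((i : ℕ) : ZMod (Nat.card E))).val = a ^ i := by
    intro a i
    rw [ZMod.val_natCast, pow_mod_natCard]
  have hlamm : ∀ σ ∈ Dec P, ∀ τ ∈ Dec P,
      ρ₀ φ ^ (n (σ * τ)).val = ρ₀ φ ^ (n σ).val * ρ₀ φ ^ (n τ).val := by
    intro σ hσ τ hτ
    rw [hnD σ hσ τ hτ, ZMod.val_add, pow_mod_natCard, pow_add]
  -- the remaining part
  have hker : ∀ σ ∈ Dec P, π (ρ₀ σ * (ρ₀ φ ^ (n σ).val)⁻¹) = 1 := by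
    intro σ hσ
    obtain ⟨i, τ, hτ, hi⟩ := (hq ℚ P U hUn hUo).2 φ hφ σ hσ
    have hτD := hID hτ
    have hiD : φ ^ i * τ ∈ Dec P := (Dec P).mul_mem ((Dec P).pow_mem hφD i) hτD
    have hu2 : σ = (φ ^ i * τ) * ((φ ^ i * τ)⁻¹ * σ) := by rw [mul_inv_cancel_left]
    have huD : (φ ^ i * τ)⁻¹ * σ ∈ Dec P := (Dec P).mul_mem ((Dec P).inv_mem hiD) hσ
    obtain ⟨hu3, hu4⟩ := hU1 _ hi
    have hni : ∀ i : ℕ, n (φ ^ i) = (i : ZMod (Nat.card E)) := by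
      intro i
      induction i with
      | zero => rw [pow_zero, hn1, Nat.cast_zero]
      | succ i ih =>
        rw [pow_succ, hnD _ ((Dec P).pow_mem hφD i) _ hφD, ih, hnF φ hφ]
        push_cast
        ring
    have e1 : n σ = (i : ZMod (Nat.card E)) := by
      rw [hu2, hnD _ hiD _ huD, hu4, hnD _ ((Dec P).pow_mem hφD i) _ hτD, hni, hnI τ hτ,
        add_zero, add_zero]
    have e2 : ρ₀ σ = ρ₀ φ ^ i * ρ₀ τ := by
      conv_lhs => rw [hu2]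
      rw [map_mul, hu3, mul_one, map_mul, map_pow]
    have e3 : π (ρ₀ τ) = 1 := hram P hP τ hτ
    rw [e1, hpow, e2, map_mul, map_mul, e3, mul_one, ← map_mul, mul_inv_cancel, map_one]
  obtain ⟨ι, κ, hι, hιπ, hικ, hκ⟩ := kl_co hC
  have hmul : ∀ σ ∈ Dec P, ∀ τ ∈ Dec P,
      ρ₀ (σ * τ) * (ρ₀ φ ^ (n (σ * τ)).val)⁻¹ =
        (ρ₀ σ * (ρ₀ φ ^ (n σ).val)⁻¹) * (ρ₀ τ * (ρ₀ φ ^ (n τ).val)⁻¹) := by
    intro σ hσ τ hτ
    have h1 := hcen _ (hker τ hτ) ((ρ₀ φ ^ (n σ).val)⁻¹)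
    rw [hlamm σ hσ τ hτ, map_mul, mul_inv_rev, mul_assoc (ρ₀ σ) ((ρ₀ φ ^ (n σ).val)⁻¹), ← h1]
    simp only [mul_assoc]
  obtain ⟨χ, hχ, hχD⟩ := he l hl2 P hP (fun σ => κ (ρ₀ σ * (ρ₀ φ ^ (n σ).val)⁻¹))
    ((hρ₀.prodMk hn).comp (fun p : E × ZMod (Nat.card E) => κ (p.1 * (ρ₀ φ ^ p.2.val)⁻¹)))
    (fun σ hσ τ hτ => by rw [hmul σ hσ τ hτ, hκ _ _ (hker σ hσ) (hker τ hτ)])
  have hι0 : ι 0 = 1 := by
    have h := hι 0 0
    rw [add_zero] at h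
    exact left_eq_mul.1 h
  have hχ1 : χ 1 = 0 := by
    have h := hχ.add 1 1
    rw [mul_one] at h
    exact left_eq_add.1 h
  refine ⟨{ toFun := fun σ => ρ₀ σ * ι (-χ σ), map_one' := ?_, map_mul' := ?_ }, ?_, ?_, ?_⟩
  · rw [map_one, hχ1, neg_zero, hι0, mul_one]
  · intro σ τ
    have h1 := hcen _ (hιπ (-χ σ)) (ρ₀ τ)
    rw [map_mul, hχ.add, neg_add, hι]
    calc ρ₀ σ * ρ₀ τ * (ι (-χ σ) * ι (-χ τ)) = ρ₀ σ * (ρ₀ τ * ι (-χ σ)) * ι (-χ τ) := by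
          simp only [mul_assoc]
      _ = ρ₀ σ * (ι (-χ σ) * ρ₀ τ) * ι (-χ τ) := by rw [h1]
      _ = ρ₀ σ * ι (-χ σ) * (ρ₀ τ * ι (-χ τ)) := by simp only [mul_assoc]
  · exact (hρ₀.prodMk hχ.lc).comp (fun p : E × ZMod l => p.1 * ι (-p.2))
  · intro σ
    show π (ρ₀ σ * ι (-χ σ)) = _
    rw [map_mul, hιπ, mul_one]
  · intro Q hQ τ hτ
    obtain rfl := hPu Q hQ
    show ρ₀ τ * ι (-χ τ) = 1
    have h1 : χ τ = κ (ρ₀ τ) := by
      rw [hχD τ (hID hτ), hnI τ hτ, ZMod.val_zero, pow_zero, inv_one, mul_one]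
    have h2 : ι (-χ τ) = (ι (χ τ))⁻¹ := by
      rw [eq_inv_iff_mul_eq_one, ← hι, neg_add_cancel, hι0]
    rw [h2, h1, hικ _ (hram Q hP τ hτ), mul_inv_cancel]

end Pool.Agent.H38.SR
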