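import Pool.Agent.H38.SR.Stm

/-!
# Scholz-Reichardt (MP_a3214d, T4, block S), row I3: a lift without new ramification
-/

set_option autoImplicit false

open scoped BigOperators Pointwise
open NumberField IsDedekindDomain

namespace Pool.Agent.H38.SR

open Pool.Agent.H98.MF (Om Gm ord Dec top nrm)

namespace Kp

/-- a parametrisation of a kernel of prime order -/
theorem iota {l : ℕ} [hl : Fact l.Prime] {E G : Type} [Group E] [Group G] (π : E →* G)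
    (h : Nat.card π.ker = l) : ∃ ι : ZMod l → E, (∀ a b, ι (a + b) = ι a * ι b) ∧
      (∀ a, π (ι a) = 1) ∧ ∀ x, π x = 1 → ∃ a, ι a = x := by
  subst h
  have : IsCyclic π.ker := isCyclic_of_prime_card (p := Nat.card π.ker) rfl
  have e := zmodCyclicMulEquiv (G := π.ker) inferInstance
  refine ⟨fun a => (e (Multiplicative.ofAdd a) : E), ?_, ?_, ?_⟩
  · intro a b
    show (e (Multiplicative.ofAdd (a + b)) : E) = _
    rw [ofAdd_add, map_mul, Subgroup.coe_mul]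
  · intro a
    exact (e (Multiplicative.ofAdd a)).2
  · intro x hx
    refine ⟨Multiplicative.toAdd (e.symm ⟨x, hx⟩), ?_⟩
    simp

section

variable {Γ : Type} [Group Γ] [TopologicalSpace Γ] {l : ℕ}

theorem hm_zero : HmZ l (fun _ : Γ => (0 : ZMod l)) :=
  ⟨IsLocallyConstant.const 0, fun _ _ => by simp⟩

theorem hm_smul {χ : Γ → ZMod l} (h : HmZ l χ) (a : ZMod l) : HmZ l (fun σ => a * χ σ) :=
  ⟨h.lc.comp (fun x => a * x), fun σ τ => by rw [h.add, mul_add]⟩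

theorem hm_add {χ ψ : Γ → ZMod l} (h : HmZ l χ) (h' : HmZ l ψ) :
    HmZ l (fun σ => χ σ + ψ σ) :=
  ⟨h.lc.add h'.lc, fun σ τ => by rw [h.add, h'.add]; abel⟩

theorem hm_sum {I : Type*} (s : Finset I) (χ : I → Γ → ZMod l) (h : ∀ i ∈ s, HmZ l (χ i)) :
    HmZ l (fun σ => ∑ i ∈ s, χ i σ) := by
  classical
  induction s using Finset.induction_on with
  | empty => simpa using hm_zero
  | insert a s ha ih =>
    have h1 := hm_add (h a (Finset.mem_insert_self a s))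
      (ih fun i hi => h i (Finset.mem_insert_of_mem hi))
    simpa [Finset.sum_insert ha] using h1

end

/-- the local character at one prime -/
theorem loc (hf : SIf) (ht : STa) (h6 : SPq) (hc : SCh) {l : ℕ} [hl : Fact l.Prime]
    {E G : Type} [Group E] [Finite E] [Group G] {π : E →* G} (hx : Cx l π) (hE : IsPGroup l E)
    (ρ : Gm ℚ →* E) (hρ : IsLocallyConstant ρ)
    (hr : ∀ P : HeightOneSpectrum (𝓞 ℚ), nrm P = l → ∀ τ ∈ Ine P, ρ τ = 1)
    {ι : ZMod l → E} (i1 : ∀ a b, ι (a + b) = ι a * ι b) (i3 : ∀ x, π x = 1 → ∃ a, ι a = x)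
    (P : HeightOneSpectrum (𝓞 ℚ)) (hP : ∀ τ ∈ Ine P, π (ρ τ) = 1) :
    ∃ ψ : Gm ℚ → ZMod l, HmZ l ψ ∧ (∀ σ ∈ Ine P, ρ σ = ι (ψ σ)) ∧
      ∀ Q : HeightOneSpectrum (𝓞 ℚ), Q ≠ P → ∀ τ ∈ Ine Q, ψ τ = 0 := by
  classical
  have i0 : ι 0 = 1 := by
    have h := i1 0 0
    rw [add_zero] at h
    exact (mul_eq_left.1 h.symm)
  by_cases hram : ∀ τ ∈ Ine P, ρ τ = 1
  · exact ⟨fun _ => 0, hm_zero, fun σ hσ => by rw [hram σ hσ, i0], fun _ _ _ _ => rfl⟩
  push Not at hram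
  obtain ⟨τ, hτ, hτ1⟩ := hram
  have hnl : nrm P ≠ l := fun h => hτ1 (hr P h τ hτ)
  have hpr : (nrm P).Prime := h6.1 P
  have hco : Nat.Coprime l (nrm P) := (Nat.coprime_primes hl.out hpr).2 (Ne.symm hnl)
  obtain ⟨n, hn⟩ := IsPGroup.iff_card.1 hE
  obtain ⟨-, ht2⟩ := ht ℚ P E ρ hρ (by rw [hn]; exact hco.pow_left n)
  obtain ⟨-, ⟨φ, hφ⟩, -, -⟩ := hf ℚ P
  -- the order of `ρ τ` is `l`
  have h1 := ht2 φ hφ τ hτ
  rw [map_mul, map_mul, map_inv, ← hx.cen (ρ τ) (hP τ hτ) (ρ φ), mul_assoc, mul_inv_cancel,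
    mul_one] at h1
  have h2 : ρ τ ^ l = 1 := by
    have h3 : (⟨ρ τ, hP τ hτ⟩ : π.ker) ^ Nat.card π.ker = 1 := pow_card_eq_one'
    rw [hx.crd] at h3
    have h4 := congrArg Subtype.val h3
    simpa using h4
  have h3 : orderOf (ρ τ) = l := orderOf_eq_prime h2 hτ1
  have h4 : l ∣ nrm P - 1 := by
    rw [← h3]
    apply orderOf_dvd_of_pow_eq_one
    have h5 : ρ τ ^ (nrm P - 1) * ρ τ = 1 * ρ τ := by
      rw [← pow_succ, Nat.sub_add_cancel hpr.one_le, ← h1, one_mul]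
    exact mul_right_cancel h5
  have : NeZero l := ⟨hl.out.ne_zero⟩
  obtain ⟨χ, hχ, ⟨τ1, hτ1I, hτ11⟩, hχ0⟩ := hc P l h4
  -- the pair
  let χm : Gm ℚ →* Multiplicative (ZMod l) :=
    { toFun := fun σ => Multiplicative.ofAdd (χ σ)
      map_one' := by
        have h := hχ.add 1 1
        rw [mul_one] at h
        have h' : χ 1 = 0 := by
          have := left_eq_add.1 h
          exact this
        rw [h']
        rfl
      map_mul' := fun σ τ => by rw [hχ.add]; rfl }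
  have hpair : IsLocallyConstant (ρ.prod χm) := by
    have h : IsLocallyConstant (fun σ => (ρ σ, Multiplicative.ofAdd (χ σ))) :=
      hρ.prodMk (hχ.lc.comp Multiplicative.ofAdd)
    exact h
  obtain ⟨⟨τ0, hτ0, hgen⟩, -⟩ := ht ℚ P (E × Multiplicative (ZMod l)) (ρ.prod χm) hpair (by
    rw [Nat.card_prod, hn, Nat.card_congr Multiplicative.toAdd, Nat.card_zmod]
    exact (hco.pow_left n).mul_left hco)
  have hgen' : ∀ σ ∈ Ine P, ∃ i : ℕ, ρ σ = ρ τ0 ^ i ∧ χ σ = i * χ τ0 := by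
    intro σ hσ
    obtain ⟨i, hi⟩ := hgen σ hσ
    refine ⟨i, congrArg Prod.fst hi, ?_⟩
    have h := congrArg (fun z : E × Multiplicative (ZMod l) => Multiplicative.toAdd z.2) hi
    have h' : χ σ = i • χ τ0 := h
    rw [h', nsmul_eq_mul]
  obtain ⟨b, hb⟩ := i3 (ρ τ0) (hP τ0 hτ0)
  have hu : χ τ0 ≠ 0 := by
    intro h0
    obtain ⟨i, -, hi⟩ := hgen' τ1 hτ1I
    rw [hτ11, h0, mul_zero] at hi
    exact one_ne_zero hi
  have ipow : ∀ (i : ℕ) (a : ZMod l), ι (i * a) = ι a ^ i := by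
    intro i a
    induction i with
    | zero => simp [i0]
    | succ i ih =>
      rw [Nat.cast_succ, add_mul, one_mul, i1, ih, pow_succ]
  refine ⟨fun σ => b * (χ τ0)⁻¹ * χ σ, hm_smul hχ _, ?_, ?_⟩
  · intro σ hσ
    obtain ⟨i, h5, h6⟩ := hgen' σ hσ
    have h7 : b * (χ τ0)⁻¹ * χ σ = i * b := by
      rw [h6]
      field_simp
    show ρ σ = ι (b * (χ τ0)⁻¹ * χ σ)
    rw [h7, ipow, hb, h5]
  · intro Q hQ τ hτ
    show b * (χ τ0)⁻¹ * χ τ = 0
    rw [hχ0 Q hQ τ hτ, mul_zero]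

end Kp

open Kp in
theorem skp (hf : SIf) (ht : STa) (h4 : SFi) (h6 : SPq) (hc : SCh) : SKp := by
  classical
  intro l hl _ E G _ _ _ π hx hE ρ hρ hr
  obtain ⟨ι, i1, i2, i3⟩ := iota π hx.crd
  have i0 : ι 0 = 1 := by
    have h := i1 0 0
    rw [add_zero] at h
    exact (mul_eq_left.1 h.symm)
  -- the local characters
  have hloc : ∀ P : HeightOneSpectrum (𝓞 ℚ), ∃ ψ : Gm ℚ → ZMod l, HmZ l ψ ∧
      ((∀ τ ∈ Ine P, π (ρ τ) = 1) → ∀ σ ∈ Ine P, ρ σ = ι (ψ σ)) ∧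
      ∀ Q : HeightOneSpectrum (𝓞 ℚ), Q ≠ P → ∀ τ ∈ Ine Q, ψ τ = 0 := by
    intro P
    by_cases hP : ∀ τ ∈ Ine P, π (ρ τ) = 1
    · obtain ⟨ψ, h1, h2, h3⟩ := loc hf ht h6 hc hx hE ρ hρ hr i1 i3 P hP
      exact ⟨ψ, h1, fun _ => h2, h3⟩
    · exact ⟨fun _ => 0, hm_zero, fun h => absurd h hP, fun _ _ _ _ => rfl⟩
  choose ψ h1 h2 h3 using hloc
  have hop : IsOpen (ρ.ker : Set (Gm ℚ)) := by
    have h : (ρ.ker : Set (Gm ℚ)) = ρ ⁻¹' {1} := by
      ext σ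
      simp [MonoidHom.mem_ker]
    rw [h]
    exact hρ.isOpen_fiber 1
  have hfin := h4 ℚ ρ.ker inferInstance hop
  set S := hfin.toFinset.filter fun P => ∀ τ ∈ Ine P, π (ρ τ) = 1 with hS
  have hΨ := hm_sum S ψ fun i _ => h1 i
  set Ψ : Gm ℚ → ZMod l := fun σ => ∑ P ∈ S, ψ P σ with hΨd
  have hcen : ∀ a e, ι a * e = e * ι a := fun a e => hx.cen (ι a) (i2 a) e
  have hinv : ∀ a, ι (-a) = (ι a)⁻¹ := by
    intro a
    rw [eq_inv_iff_mul_eq_one, ← i1, neg_add_cancel, i0]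
  let ρ₁ : Gm ℚ →* E :=
    { toFun := fun σ => ρ σ * ι (-Ψ σ)
      map_one' := by
        have h := hΨ.add 1 1
        rw [mul_one] at h
        have h' : Ψ 1 = 0 := left_eq_add.1 h
        rw [h', neg_zero, i0, map_one, mul_one]
      map_mul' := fun σ τ => by
        rw [map_mul, hΨ.add, neg_add, i1]
        calc ρ σ * ρ τ * (ι (-Ψ σ) * ι (-Ψ τ)) = ρ σ * (ρ τ * ι (-Ψ σ)) * ι (-Ψ τ) := by
              simp only [mul_assoc]
          _ = ρ σ * (ι (-Ψ σ) * ρ τ) * ι (-Ψ τ) := by rw [hcen]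
          _ = ρ σ * ι (-Ψ σ) * (ρ τ * ι (-Ψ τ)) := by simp only [mul_assoc] }
  refine ⟨ρ₁, ?_, ?_, ?_⟩
  · have h : IsLocallyConstant (fun σ => ρ σ * ι (-Ψ σ)) := by
      have h' : IsLocallyConstant (fun σ => (ρ σ, Ψ σ)) := hρ.prodMk hΨ.lc
      exact h'.comp fun z : E × ZMod l => z.1 * ι (-z.2)
    exact h
  · intro σ
    show π (ρ σ * ι (-Ψ σ)) = π (ρ σ)
    rw [map_mul, i2, mul_one]
  · intro P hP τ hτ
    show ρ τ * ι (-Ψ τ) = 1
    by_cases hPS : P ∈ S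
    · have h5 : Ψ τ = ψ P τ := by
        show ∑ Q ∈ S, ψ Q τ = ψ P τ
        rw [Finset.sum_eq_single_of_mem P hPS]
        intro Q _ hQ
        exact h3 Q P (Ne.symm hQ) τ hτ
      rw [h5, hinv, h2 P hP τ hτ, mul_inv_cancel]
    · have h5 : Ψ τ = 0 := by
        show ∑ Q ∈ S, ψ Q τ = 0
        refine Finset.sum_eq_zero fun Q hQ => ?_
        refine h3 Q P ?_ τ hτ
        rintro rfl
        exact hPS hQ
      have h6 : ρ τ = 1 := by
        by_contra hne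
        apply hPS
        rw [hS, Finset.mem_filter, Set.Finite.mem_toFinset]
        refine ⟨?_, hP⟩
        show ¬ Ine P ≤ ρ.ker
        intro hle
        exact hne (MonoidHom.mem_ker.1 (hle hτ))
      rw [h5, h6, neg_zero, i0, mul_one]

end Pool.Agent.H38.SR
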