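import Pool.Agent.H38.SR.Stm

/-!
# Scholz-Reichardt (MP_a3214d, T4, block S): I1, local lifts of Scholz homomorphisms
-/

set_option autoImplicit false

open scoped BigOperators Pointwise Topology
open NumberField IsDedekindDomain

namespace Pool.Agent.H38.SR

open Pool.Agent.H98.MF (Om Gm ord Dec top nrm)

private lemma ll_nor {Γ : Type} [Group Γ] [TopologicalSpace Γ] [IsTopologicalGroup Γ]
    [CompactSpace Γ] [TotallyDisconnectedSpace Γ] {X : Type} {f : Γ → X}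
    (hf : IsLocallyConstant f) :
    ∃ U : Subgroup Γ, U.Normal ∧ IsOpen (U : Set Γ) ∧ ∀ σ, ∀ u ∈ U, f (σ * u) = f σ := by
  have hfin : (Set.range f).Finite := hf.range_finite
  have h1 : ∀ x : X, ∃ V ∈ 𝓝 (1 : Γ), (f ⁻¹' {x}) * V ⊆ f ⁻¹' {x} := fun x =>
    compact_open_separated_mul_right ((hf.isClosed_fiber x).isCompact) (hf.isOpen_fiber x)
      subset_rfl
  choose V hV hVs using h1
  have h2 : (⋂ x ∈ Set.range f, V x) ∈ 𝓝 (1 : Γ) := (Filter.biInter_mem hfin).2 fun x _ => hV x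
  obtain ⟨W, hW, hWo, h1W⟩ := mem_nhds_iff.1 h2
  obtain ⟨H, hH⟩ := ProfiniteGrp.exist_openNormalSubgroup_sub_open_nhds_of_one hWo h1W
  refine ⟨(H : Subgroup Γ), H.isNormal', H.isOpen', fun σ u hu => ?_⟩
  have h3 : u ∈ V (f σ) := by
    have h4 := hW (hH hu)
    rw [Set.mem_iInter₂] at h4
    exact h4 _ ⟨σ, rfl⟩
  exact hVs (f σ) (Set.mul_mem_mul (show σ ∈ f ⁻¹' {f σ} from rfl) h3)

section

variable {G : Type} [Group G] {m : ℕ}

private lemma ll_add [NeZero m] {g : G} (hg : g ^ m = 1) (a b : ZMod m) :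
    g ^ (a + b).val = g ^ a.val * g ^ b.val := by
  rw [ZMod.val_add, ← pow_add, ← pow_eq_pow_mod _ hg]

private lemma ll_cast {g : G} (hg : g ^ m = 1) (i : ℕ) :
    g ^ (i : ZMod m).val = g ^ i := by
  rw [ZMod.val_natCast, ← pow_eq_pow_mod _ hg]

private lemma ll_npow {Γ : Type} [Group Γ] {D : Subgroup Γ} {n : Γ → ZMod m}
    (hna : ∀ σ ∈ D, ∀ τ ∈ D, n (σ * τ) = n σ + n τ) {φ : Γ} (hφ : φ ∈ D) (i : ℕ) :
    n (φ ^ i) = i * n φ := by
  have h1 : n 1 = 0 := by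
    have h := hna 1 D.one_mem 1 D.one_mem
    rw [mul_one] at h
    have h2 : n 1 + 0 = n 1 + n 1 := by rw [add_zero]; exact h
    exact (add_left_cancel h2).symm
  induction i with
  | zero => rw [pow_zero, h1]; simp
  | succ i ih =>
    rw [pow_succ, hna _ (D.pow_mem hφ i) _ hφ, ih]
    push_cast
    ring

private lemma ll_dpow {Γ : Type} [Group Γ] {D : Subgroup Γ} {δ : Γ → G}
    (hδ : ∀ σ ∈ D, ∀ τ ∈ D, δ (σ * τ) = δ σ * δ τ) {φ : Γ} (hφ : φ ∈ D) (i : ℕ) :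
    δ (φ ^ i) = δ φ ^ i := by
  have h1 : δ 1 = 1 := by
    have h := hδ 1 D.one_mem 1 D.one_mem
    rw [mul_one] at h
    have h2 : δ 1 * 1 = δ 1 * δ 1 := by rw [mul_one]; exact h
    exact (mul_left_cancel h2).symm
  induction i with
  | zero => rw [pow_zero, pow_zero, h1]
  | succ i ih => rw [pow_succ, hδ _ (D.pow_mem hφ i) _ hφ, ih, pow_succ]

end

/-- unramified maps on the decomposition group are powers of the value at Frobenius -/
private lemma ll_unr (hq : SIq) {k : Type} [Field k] [NumberField k]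
    (P : HeightOneSpectrum (𝓞 k)) (hID : Ine P ≤ Dec P) {m : ℕ} {n : Gm k → ZMod m}
    (hn : IsLocallyConstant n) (hna : ∀ σ ∈ Dec P, ∀ τ ∈ Dec P, n (σ * τ) = n σ + n τ)
    (hni : ∀ τ ∈ Ine P, n τ = 0) {φ : Gm k} (hφ : IsFr P φ) (hφD : φ ∈ Dec P) (hnφ : n φ = 1)
    {G : Type} [Group G] (hG : ∀ g : G, g ^ m = 1) {δ : Gm k → G} (hδ : IsLocallyConstant δ)
    (hδm : ∀ σ ∈ Dec P, ∀ τ ∈ Dec P, δ (σ * τ) = δ σ * δ τ) (hδi : ∀ τ ∈ Ine P, δ τ = 1) :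
    ∀ σ ∈ Dec P, δ σ = δ φ ^ (n σ).val := by
  intro σ hσ
  obtain ⟨U, hUn, hUo, hU⟩ := ll_nor (hn.prodMk hδ)
  obtain ⟨i, τ, hτ, hi⟩ := (hq k P U hUn hUo).2 φ hφ σ hσ
  have h1 : σ = φ ^ i * τ * ((φ ^ i * τ)⁻¹ * σ) := by group
  have h2 := hU (φ ^ i * τ) _ hi
  rw [← h1] at h2
  have h3 : n σ = n (φ ^ i * τ) := congrArg Prod.fst h2
  have h4 : δ σ = δ (φ ^ i * τ) := congrArg Prod.snd h2
  rw [h4, h3, hna _ ((Dec P).pow_mem hφD i) _ (hID hτ), hδm _ ((Dec P).pow_mem hφD i) _ (hID hτ),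
    hni τ hτ, hδi τ hτ, add_zero, mul_one, ll_npow hna hφD, ll_dpow hδm hφD, hnφ, mul_one,
    ll_cast (hG _)]

/-- I1: local lifts of Scholz homomorphisms -/
theorem sll (hf : SIf) (hq : SIq) (ht : STa) (h6 : SPq) (hu : SUr) (hc : SCh) : SLl := by
  intro l hl hl2 N E G _ _ _ π hπ hE hcE ρ hS P
  have : Finite G := Finite.of_surjective π hπ.surj
  set m : ℕ := l ^ N with hm
  have hm0 : m ≠ 0 := pow_ne_zero _ hl.out.ne_zero
  have : NeZero m := ⟨hm0⟩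
  have hEm : ∀ e : E, e ^ m = 1 := fun e => orderOf_dvd_iff_pow_eq_one.1
    ((orderOf_dvd_natCard e).trans hcE)
  have hGm : ∀ g : G, g ^ m = 1 := by
    intro g
    obtain ⟨e, rfl⟩ := hπ.surj g
    rw [← map_pow, hEm, map_one]
  obtain ⟨hID, ⟨φ, hφ⟩, hφD', -⟩ := hf ℚ P
  have hφD := hφD' φ hφ
  obtain ⟨n, hn, hna, hni, hnφ'⟩ := hu ℚ P m
  have hnφ := hnφ' φ hφ
  by_cases hA : ∀ τ ∈ Ine P, ρ τ = 1
  · obtain ⟨e, he⟩ := hπ.surj (ρ φ)
    refine ⟨fun σ => e ^ (n σ).val, hn.comp fun a => e ^ a.val, ?_, ?_⟩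
    · intro σ hσ τ hτ
      show e ^ (n (σ * τ)).val = e ^ (n σ).val * e ^ (n τ).val
      rw [hna σ hσ τ hτ, ll_add (hEm e)]
    · intro σ hσ
      show π (e ^ (n σ).val) = ρ σ
      rw [map_pow, he]
      exact (ll_unr hq P hID hn hna hni hφ hφD hnφ hGm hS.lc
        (fun _ _ _ _ => map_mul ρ _ _) hA σ hσ).symm
  · push_neg at hA
    have hell : nrm P ≠ l := fun h => by
      obtain ⟨τ, hτ, hne⟩ := hA
      exact hne (hS.ell P h τ hτ)
    obtain ⟨hmod, hram⟩ := hS.ram P hA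
    have hpr : (nrm P).Prime := h6.1 P
    have hdvd : m ∣ nrm P - 1 := (Nat.modEq_iff_dvd' hpr.one_lt.le).1 hmod.symm
    obtain ⟨κ, hκ, ⟨τ1, hτ1, hκ1⟩, -⟩ := hc P m hdvd
    let κ' : Gm ℚ →* Multiplicative (ZMod m) := MonoidHom.mk' (fun σ => Multiplicative.ofAdd (κ σ))
      (fun σ τ => by rw [hκ.add, ofAdd_add])
    have hcG : Nat.card G ∣ l ^ N := (Subgroup.card_dvd_of_surjective π hπ.surj).trans hcE
    have hcop : Nat.Coprime (Nat.card (G × Multiplicative (ZMod m))) (nrm P) := by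
      rw [Nat.card_prod]
      have h1 : Nat.card (Multiplicative (ZMod m)) = l ^ N := by
        rw [Nat.card_congr Multiplicative.toAdd, Nat.card_zmod]
      have h2 : Nat.Coprime (l ^ N) (nrm P) :=
        Nat.Coprime.pow_left _ ((Nat.coprime_primes hl.out hpr).2 hell.symm)
      rw [h1]
      exact Nat.Coprime.mul_left (h2.coprime_dvd_left hcG) h2
    have hlc : IsLocallyConstant (ρ.prod κ') := hS.lc.prodMk (hκ.lc.comp Multiplicative.ofAdd)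
    obtain ⟨⟨τ0, hτ0, hgen⟩, -⟩ := ht ℚ P (G × Multiplicative (ZMod m)) (ρ.prod κ') hlc hcop
    have hgen' : ∀ σ ∈ Ine P, ∃ i : ℕ, ρ σ = ρ τ0 ^ i ∧ κ σ = i * κ τ0 := by
      intro σ hσ
      obtain ⟨i, hi⟩ := hgen σ hσ
      refine ⟨i, congrArg Prod.fst hi, ?_⟩
      have h1 : κ' σ = κ' τ0 ^ i := congrArg Prod.snd hi
      have h2 : Multiplicative.toAdd (κ' σ) = Multiplicative.toAdd (κ' τ0 ^ i) :=
        congrArg Multiplicative.toAdd h1
      rw [toAdd_pow, nsmul_eq_mul] at h2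
      exact h2
    obtain ⟨i1, hi1, hk1⟩ := hgen' τ1 hτ1
    set g : G := ρ τ1 with hg
    have hI : ∀ σ ∈ Ine P, ρ σ = g ^ (κ σ).val := by
      intro σ hσ
      obtain ⟨i, hi, hk⟩ := hgen' σ hσ
      have h1 : ((i1 * (κ σ).val : ℕ) : ZMod m) = (i : ℕ) := by
        push_cast
        rw [ZMod.natCast_zmod_val, hk]
        calc (i1 : ZMod m) * ((i : ZMod m) * κ τ0) = i * (i1 * κ τ0) := by ring
          _ = i := by rw [← hk1, hκ1, mul_one]
      rw [hi1, ← pow_mul, ← ll_cast (hGm (ρ τ0)), h1, ll_cast (hGm _), hi]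
    have hDg : ∀ σ ∈ Dec P, ∃ a : ℕ, ρ σ = g ^ a := by
      intro σ hσ
      obtain ⟨τ, hτ, h⟩ := hram σ hσ
      exact ⟨_, h.trans (hI τ hτ)⟩
    have hadd : ∀ σ τ, g ^ (κ (σ * τ)).val = g ^ (κ σ).val * g ^ (κ τ).val := by
      intro σ τ
      rw [hκ.add, ll_add (hGm g)]
    have hδ : ∀ σ ∈ Dec P, ρ σ * (g ^ (κ σ).val)⁻¹ =
        (ρ φ * (g ^ (κ φ).val)⁻¹) ^ (n σ).val := by
      refine ll_unr hq P hID hn hna hni hφ hφD hnφ hGm
        (δ := fun σ => ρ σ * (g ^ (κ σ).val)⁻¹)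
        (hS.lc.comp₂ hκ.lc fun a b => a * (g ^ b.val)⁻¹) ?_ ?_
      · intro σ hσ τ hτ
        show ρ (σ * τ) * (g ^ (κ (σ * τ)).val)⁻¹ =
          ρ σ * (g ^ (κ σ).val)⁻¹ * (ρ τ * (g ^ (κ τ).val)⁻¹)
        obtain ⟨a, ha⟩ := hDg σ hσ
        obtain ⟨b, hb⟩ := hDg τ hτ
        rw [hadd, map_mul, ha, hb]
        have hc1 : Commute (g ^ b) ((g ^ (κ σ).val)⁻¹) :=
          ((Commute.refl g).pow_pow _ _).inv_right
        have hc2 : Commute ((g ^ (κ σ).val)⁻¹) ((g ^ (κ τ).val)⁻¹) :=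
          (((Commute.refl g).pow_pow _ _).inv_right).inv_left
        rw [mul_inv_rev, ← hc2.eq, mul_assoc, mul_assoc, ← mul_assoc (g ^ b), hc1.eq, mul_assoc]
      · intro τ hτ
        show ρ τ * (g ^ (κ τ).val)⁻¹ = 1
        rw [hI τ hτ, mul_inv_cancel]
    obtain ⟨a, ha⟩ := hDg φ hφD
    obtain ⟨e, he⟩ := hπ.surj g
    set d : ℤ := (a : ℤ) - ((κ φ).val : ℤ) with hd
    have hdg : ρ φ * (g ^ (κ φ).val)⁻¹ = g ^ d := by
      rw [ha, hd, zpow_sub, zpow_natCast, zpow_natCast]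
    refine ⟨fun σ => e ^ (κ σ).val * (e ^ d) ^ (n σ).val,
      hκ.lc.comp₂ hn fun a b => e ^ a.val * (e ^ d) ^ b.val, ?_, ?_⟩
    · intro σ hσ τ hτ
      show e ^ (κ (σ * τ)).val * (e ^ d) ^ (n (σ * τ)).val =
        e ^ (κ σ).val * (e ^ d) ^ (n σ).val * (e ^ (κ τ).val * (e ^ d) ^ (n τ).val)
      rw [hκ.add, hna σ hσ τ hτ, ll_add (hEm e), ll_add (hEm (e ^ d))]
      have hc1 : Commute ((e ^ d) ^ (n σ).val) (e ^ (κ τ).val) :=
        (((Commute.refl e).zpow_left d).pow_pow _ _)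
      rw [mul_assoc, mul_assoc, ← mul_assoc (e ^ (κ τ).val), ← hc1.eq]
      simp only [mul_assoc]
    · intro σ hσ
      show π (e ^ (κ σ).val * (e ^ d) ^ (n σ).val) = ρ σ
      rw [map_mul, map_pow, map_pow, map_zpow, he, ← hdg, ← hδ σ hσ]
      obtain ⟨b, hb⟩ := hDg σ hσ
      rw [hb]
      have hc1 : Commute (g ^ b) (g ^ (κ σ).val) := (Commute.refl g).pow_pow _ _
      rw [← mul_assoc, ← hc1.eq, mul_assoc, mul_inv_cancel, mul_one]

end Pool.Agent.H38.SR
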