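import Pool.Agent.H38.SR.Stm

/-!
# Scholz-Reichardt (MP_a3214d, T4, block S), row I5: `l`-groups over the rational numbers
-/

set_option autoImplicit false

open NumberField IsDedekindDomain

namespace Pool.Agent.H38.SR

open Pool.Agent.H98.MF (Om Gm ord Dec top nrm)

/-- the trivial homomorphism is a Scholz homomorphism -/
theorem mai_one (l N : ℕ) {G : Type} [Group G] : Sch l N (1 : Gm ℚ →* G) where
  lc := fun s => by
    have h : (⇑(1 : Gm ℚ →* G) ⁻¹' s) = ∅ ∨ (⇑(1 : Gm ℚ →* G) ⁻¹' s) = Set.univ := by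
      by_cases h1 : (1 : G) ∈ s
      · exact Or.inr (Set.eq_univ_of_forall fun _ => h1)
      · exact Or.inl (Set.eq_empty_of_forall_notMem fun _ h2 => h1 h2)
    rcases h with h | h <;> rw [h]
    · exact isOpen_empty
    · exact isOpen_univ
  ell := fun _ _ _ _ => rfl
  ram := fun _ ⟨_, _, h⟩ => absurd rfl h

/-- a central subgroup of order `l` -/
theorem mai_cen (l : ℕ) [Fact l.Prime] (E : Type) [Group E] [Finite E] [Nontrivial E]
    (hE : IsPGroup l E) : ∃ (C : Subgroup E) (_ : C.Normal), Cx l (QuotientGroup.mk' C) ∧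
      Nat.card C = l := by
  have h1 : Nontrivial (Subgroup.center E) := hE.center_nontrivial
  obtain ⟨n, hn⟩ := IsPGroup.iff_card.1 (hE.to_subgroup (Subgroup.center E))
  have h2 : l ∣ Nat.card (Subgroup.center E) := by
    rw [hn]
    refine dvd_pow_self _ fun h => ?_
    rw [h, pow_zero] at hn
    exact absurd hn (Finite.one_lt_card (α := Subgroup.center E)).ne'
  obtain ⟨c, hc⟩ := exists_prime_orderOf_dvd_card' l h2
  have hc1 : orderOf (c : E) = l := by rw [← hc, Subgroup.orderOf_coe]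
  have hcen : ∀ x ∈ Subgroup.zpowers (c : E), ∀ e : E, x * e = e * x := by
    intro x hx e
    obtain ⟨k, rfl⟩ := Subgroup.mem_zpowers_iff.1 hx
    have h3 : (c : E) ^ k ∈ Subgroup.center E := Subgroup.zpow_mem _ c.2 k
    exact (Subgroup.mem_center_iff.1 h3 e).symm
  have hN : (Subgroup.zpowers (c : E)).Normal := ⟨fun x hx g => by
    rw [← hcen x hx g, mul_assoc, mul_inv_cancel, mul_one]
    exact hx⟩
  have hcard : Nat.card (Subgroup.zpowers (c : E)) = l := by rw [Nat.card_zpowers, hc1]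
  refine ⟨Subgroup.zpowers (c : E), hN, ⟨QuotientGroup.mk'_surjective _, ?_, ?_⟩, hcard⟩
  · intro x hx
    refine hcen x ?_
    rwa [← MonoidHom.mem_ker, QuotientGroup.ker_mk'] at hx
  · rw [QuotientGroup.ker_mk', hcard]

/-- **Row I5.** `l`-groups over the rational numbers, surjective on a given open subgroup. -/
theorem smai (hs : SStp) : SMai := by
  intro l _ hl E _ _ hE V hV hVo
  obtain ⟨N, hN⟩ := IsPGroup.iff_card.1 hE
  have key : ∀ (n : ℕ) (E' : Type) [Group E'] [Finite E'], IsPGroup l E' → Nat.card E' = n →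
      Nat.card E' ∣ l ^ N → ∃ ρ : Gm ℚ →* E', Sch l N ρ ∧ ∀ e, ∃ v ∈ V, ρ v = e := by
    intro n
    induction n using Nat.strong_induction_on with
    | _ n ih =>
      intro E' _ _ hE' hn hd
      rcases subsingleton_or_nontrivial E' with h0 | h0
      · exact ⟨1, mai_one l N, fun e => ⟨1, V.one_mem, Subsingleton.elim _ _⟩⟩
      · obtain ⟨C, hC, hx, hcard⟩ := mai_cen l E' hE'
        have h1 : Nat.card E' = Nat.card (E' ⧸ C) * Nat.card C :=
          Subgroup.card_eq_card_quotient_mul_card_subgroup C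
        have h2 : 0 < Nat.card (E' ⧸ C) := Nat.card_pos
        have h3 : 1 < l := (Fact.out : l.Prime).one_lt
        have h4 : Nat.card (E' ⧸ C) < n := by
          rw [← hn, h1, hcard]
          exact lt_mul_of_one_lt_right h2 h3
        obtain ⟨ρ, hρ, hsu⟩ := ih _ h4 (E' ⧸ C) (hE'.to_quotient C) rfl
          ((Dvd.intro _ h1.symm).trans hd)
        exact hs l hl N E' (E' ⧸ C) (QuotientGroup.mk' C) hx hE' hd V hV hVo ρ hρ hsu
  obtain ⟨ρ, hρ, hsu⟩ := key _ E hE rfl (by rw [hN])
  exact ⟨ρ, hρ.lc, hsu⟩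

end Pool.Agent.H38.SR
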