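import Pool.Agent.H38.SR.Stm

/-!
# Scholz-Reichardt (MP_a3214d), I7: nilpotent groups
-/

set_option autoImplicit false

open scoped BigOperators Topology
open Filter NumberField

namespace Pool.Agent.H38.SR

open Pool.Agent.H98.MF (Gm)
open Pool.Agent.EX (Occ)

/-- a family of locally constant maps -/
theorem nil_lc {X : Type*} [TopologicalSpace X] {ι : Type*} [Finite ι] {Y : ι → Type*}
    (f : X → ∀ i, Y i) (h : ∀ i, IsLocallyConstant fun x => f x i) : IsLocallyConstant f := by
  rw [IsLocallyConstant.iff_eventually_eq]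
  intro x
  have h1 : ∀ᶠ y in 𝓝 x, ∀ i, f y i = f x i :=
    eventually_all.2 fun i => (IsLocallyConstant.iff_eventually_eq _).1 (h i) x
  exact h1.mono fun y hy => funext hy

theorem snil : SNil := by
  classical
  intro k _ _ G _ _ hG hP
  let I : Type := (Nat.card G).primeFactors
  have hI : ∀ p : I, Fact (p.1 : ℕ).Prime := fun p => ⟨Nat.prime_of_mem_primeFactors p.2⟩
  obtain ⟨e⟩ : Nonempty ((∀ p : (Nat.card G).primeFactors, ∀ P : Sylow p G,
      (↑P : Subgroup G)) ≃* G) :=
    ((Group.isNilpotent_of_finite_tfae (G := G)).out 0 4 rfl rfl).1 hG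
  have h1 : ∀ (p : I) (P : Sylow p.1 G), ∃ ρ : Gm k →* P, Function.Surjective ρ ∧
      IsLocallyConstant ρ := fun p P => by
    have := hI p
    exact hP p.1 P
  choose ρ hρs hρl using h1
  let Φ : Gm k →* (∀ p : (Nat.card G).primeFactors, ∀ P : Sylow p G, (↑P : Subgroup G)) :=
    { toFun := fun σ p P => ρ p P σ
      map_one' := by
        funext p P
        exact map_one _
      map_mul' := fun σ τ => by
        funext p P
        exact map_mul _ _ _ }
  have hΦl : IsLocallyConstant Φ := by
    refine nil_lc (fun σ => Φ σ) fun p => ?_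
    exact nil_lc (fun σ => Φ σ p) fun P => hρl p P
  let Ψ : Gm k →* G := e.toMonoidHom.comp Φ
  have hcard : Nat.card G ∣ Nat.card Ψ.range := by
    have hG0 : Nat.card G ≠ 0 := Nat.card_pos.ne'
    have hR0 : Nat.card Ψ.range ≠ 0 := Nat.card_pos.ne'
    rw [← Nat.factorization_le_iff_dvd hG0 hR0]
    intro q
    by_cases hq : q ∈ (Nat.card G).primeFactors
    · have hqp : q.Prime := Nat.prime_of_mem_primeFactors hq
      have : Fact q.Prime := ⟨hqp⟩
      rw [← hqp.pow_dvd_iff_le_factorization hR0]
      obtain ⟨P⟩ : Nonempty (Sylow q G) := inferInstance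
      rw [← Sylow.card_eq_multiplicity P]
      let ev : G →* P := ((Pi.evalMonoidHom (fun P : Sylow q G => (P : Subgroup G)) P).comp
        (Pi.evalMonoidHom (fun p : (Nat.card G).primeFactors => ∀ P : Sylow p G,
          (↑P : Subgroup G)) ⟨q, hq⟩)).comp e.symm.toMonoidHom
      let ev' : Ψ.range →* P := ev.comp Ψ.range.subtype
      have hev : Function.Surjective ev' := by
        intro x
        obtain ⟨σ, hσ⟩ := hρs ⟨q, hq⟩ P x
        refine ⟨⟨Ψ σ, σ, rfl⟩, ?_⟩
        show (e.symm (e (Φ σ))) ⟨q, hq⟩ P = x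
        rw [e.symm_apply_apply]
        exact hσ
      exact Subgroup.card_dvd_of_surjective ev' hev
    · have h0 : (Nat.card G).factorization q = 0 := by
        rw [← Nat.support_factorization] at hq
        exact Finsupp.notMem_support_iff.1 hq
      rw [h0]
      exact Nat.zero_le _
  have htop : Ψ.range = ⊤ := by
    refine Subgroup.eq_top_of_card_eq _ ?_
    exact Nat.dvd_antisymm (Subgroup.card_subgroup_dvd_card _) hcard
  refine ⟨Ψ, MonoidHom.range_eq_top.1 htop, ?_⟩
  exact hΦl.comp e

end Pool.Agent.H38.SR
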