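import Pool.Agent.H38.SR.Stm

/-!
# Scholz-Reichardt (MP_a3214d, T4, block S), row SR-L1: the obstruction cocycle
-/

set_option autoImplicit false

open scoped BigOperators Pointwise

namespace Pool.Agent.H38.SR

/-- Row L1: the obstruction. -/
theorem sob : SOb := by
  intro l _ E G _ _ _ π hπ Γ _ _ _ ρ hρ
  have hfin : Finite π.ker := inferInstance
  -- the kernel
  have hc1 : Nat.card (Multiplicative (ZMod l)) = l := by
    rw [Nat.card_congr Multiplicative.toAdd, Nat.card_zmod]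
  set e : Multiplicative (ZMod l) ≃* π.ker := mulEquivOfPrimeCardEq hc1 hπ.crd with he
  set ι : ZMod l → E := fun a => ((e (Multiplicative.ofAdd a) : π.ker) : E) with hι
  have hadd : ∀ a b, ι (a + b) = ι a * ι b := by
    intro a b
    simp only [hι, ofAdd_add, map_mul, Subgroup.coe_mul]
  have hinj : Function.Injective ι := by
    intro a b h
    have h1 : e (Multiplicative.ofAdd a) = e (Multiplicative.ofAdd b) := Subtype.ext h
    exact Multiplicative.ofAdd.injective (e.injective h1)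
  have hker : ∀ a, π (ι a) = 1 := fun a => MonoidHom.mem_ker.1 (e (Multiplicative.ofAdd a)).2
  have hsur : ∀ c, π c = 1 → ∃ a, ι a = c := by
    intro c hc
    refine ⟨Multiplicative.toAdd (e.symm ⟨c, MonoidHom.mem_ker.2 hc⟩), ?_⟩
    simp only [hι, ofAdd_toAdd, MulEquiv.apply_symm_apply]
  have hcen : ∀ a x, ι a * x = x * ι a := fun a x => hπ.cen _ (hker a) x
  set κ : E → ZMod l := Function.invFun ι with hκ
  have hκι : ∀ a, κ (ι a) = a := fun a => Function.leftInverse_invFun hinj a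
  have hικ : ∀ c, π c = 1 → ι (κ c) = c := by
    intro c hc
    obtain ⟨a, rfl⟩ := hsur c hc
    rw [hκι]
  -- the section
  set s : G → E := Function.surjInv hπ.surj with hs
  have hπs : ∀ g, π (s g) = g := Function.surjInv_eq hπ.surj
  set a : G → G → ZMod l := fun g h => κ (s g * s h * (s (g * h))⁻¹) with ha
  have hsm : ∀ g h, s g * s h = ι (a g h) * s (g * h) := by
    intro g h
    have h1 : π (s g * s h * (s (g * h))⁻¹) = 1 := by
      rw [map_mul, map_mul, map_inv, hπs, hπs, hπs, mul_inv_cancel]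
    rw [ha]
    simp only [hικ _ h1, inv_mul_cancel_right]
  have hcc : ∀ g h w, a g h + a (g * h) w = a h w + a g (h * w) := by
    intro g h w
    apply hinj
    rw [hadd, hadd]
    apply mul_right_cancel (b := s (g * h * w))
    calc ι (a g h) * ι (a (g * h) w) * s (g * h * w) = ι (a g h) * (s (g * h) * s w) := by
          rw [hsm, mul_assoc]
      _ = s g * s h * s w := by rw [hsm g h, mul_assoc]
      _ = s g * (s h * s w) := mul_assoc _ _ _
      _ = s g * (ι (a h w) * s (h * w)) := by rw [hsm h w]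
      _ = ι (a h w) * (s g * s (h * w)) := by
          rw [← mul_assoc, ← hcen, mul_assoc]
      _ = ι (a h w) * ι (a g (h * w)) * s (g * h * w) := by
          rw [hsm g, mul_assoc, mul_assoc g h w]
  refine ⟨fun σ τ => a (ρ σ) (ρ τ), ⟨?_, ?_⟩, ?_, ?_⟩
  · exact (hρ.comp_continuous continuous_fst).comp₂ (hρ.comp_continuous continuous_snd) a
  · intro x y w
    simp only [map_mul]
    exact hcc _ _ _
  · refine ⟨fun _ => -a 1 1, IsLocallyConstant.const _, ?_⟩
    intro σ hσ τ hτ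
    show -a 1 1 = -a 1 1 + -a 1 1 + a (ρ σ) (ρ τ)
    rw [MonoidHom.mem_ker.1 hσ, MonoidHom.mem_ker.1 hτ]
    ring
  · intro D
    constructor
    · rintro ⟨f, hf, hfD⟩
      refine ⟨fun σ => ι (f σ) * s (ρ σ), hf.comp₂ hρ fun x g => ι x * s g, ?_, ?_⟩
      · intro σ hσ τ hτ
        show ι (f (σ * τ)) * s (ρ (σ * τ)) = ι (f σ) * s (ρ σ) * (ι (f τ) * s (ρ τ))
        rw [hfD σ hσ τ hτ, hadd, hadd, map_mul, mul_assoc (ι (f σ) * ι (f τ)), ← hsm]
        calc ι (f σ) * ι (f τ) * (s (ρ σ) * s (ρ τ)) = ι (f σ) * (ι (f τ) * s (ρ σ)) * s (ρ τ) := by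
              simp only [mul_assoc]
          _ = ι (f σ) * s (ρ σ) * (ι (f τ) * s (ρ τ)) := by
              rw [hcen (f τ) (s (ρ σ))]
              simp only [mul_assoc]
      · intro σ _
        show π (ι (f σ) * s (ρ σ)) = ρ σ
        rw [map_mul, hker, hπs, one_mul]
    · rintro ⟨lam, hlam, hmul, hπl⟩
      refine ⟨fun σ => κ (lam σ * (s (ρ σ))⁻¹), hlam.comp₂ hρ fun x g => κ (x * (s g)⁻¹), ?_⟩
      have h1 : ∀ σ ∈ D, lam σ = ι (κ (lam σ * (s (ρ σ))⁻¹)) * s (ρ σ) := by
        intro σ hσ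
        have h2 : π (lam σ * (s (ρ σ))⁻¹) = 1 := by
          rw [map_mul, map_inv, hπs, hπl σ hσ, mul_inv_cancel]
        rw [hικ _ h2, inv_mul_cancel_right]
      intro σ hσ τ hτ
      have h3 := h1 _ (D.mul_mem hσ hτ)
      rw [hmul σ hσ τ hτ] at h3
      set fσ : ZMod l := κ (lam σ * (s (ρ σ))⁻¹) with hfσ
      set fτ : ZMod l := κ (lam τ * (s (ρ τ))⁻¹) with hfτ
      show κ (lam (σ * τ) * (s (ρ (σ * τ)))⁻¹) = fσ + fτ + a (ρ σ) (ρ τ)
      rw [hmul σ hσ τ hτ]
      apply hinj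
      apply mul_right_cancel (b := s (ρ (σ * τ)))
      rw [← h3, hadd, hadd, map_mul, mul_assoc, ← hsm]
      calc lam σ * lam τ = ι fσ * s (ρ σ) * (ι fτ * s (ρ τ)) := by rw [← h1 σ hσ, ← h1 τ hτ]
        _ = ι fσ * (ι fτ * s (ρ σ)) * s (ρ τ) := by
            rw [hcen fτ (s (ρ σ))]
            simp only [mul_assoc]
        _ = ι fσ * ι fτ * (s (ρ σ) * s (ρ τ)) := by simp only [mul_assoc]

end Pool.Agent.H38.SR
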