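import Pool.Agent.H38.SR.Stm
import Pool.Agent.H98.MF.L.Top

/-!
# Scholz-Reichardt (MP_a3214d, T4, block S), row R6: the primes of the rational numbers
-/

set_option autoImplicit false

open NumberField IsDedekindDomain

namespace Pool.Agent.H38.SR

open Pool.Agent.H98.MF (Om Gm ord Dec top nrm)

private theorem pq_prime {p : ℕ} (hp : p.Prime) : Prime ((p : ℕ) : 𝓞 ℚ) := by
  rw [← MulEquiv.prime_iff (Rat.ringOfIntegersEquiv : 𝓞 ℚ ≃+* ℤ).toMulEquiv]
  simpa using Nat.prime_iff_prime_int.mp hp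

private theorem pq_max {p : ℕ} (hp : p.Prime) : (Ideal.span {((p : ℕ) : 𝓞 ℚ)}).IsMaximal := by
  have h0 : ((p : ℕ) : 𝓞 ℚ) ≠ 0 := (pq_prime hp).ne_zero
  have h1 := (Ideal.span_singleton_prime h0).mpr (pq_prime hp)
  exact h1.isMaximal (by simpa using h0)

private theorem pq_norm (p : ℕ) : Ideal.absNorm (Ideal.span {((p : ℕ) : 𝓞 ℚ)}) = p := by
  rw [Ideal.absNorm_span_singleton]
  have h1 : Algebra.norm ℤ ((p : ℕ) : 𝓞 ℚ) = (p : ℤ) ^ Module.finrank ℤ (𝓞 ℚ) := by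
    have h2 := Algebra.norm_algebraMap (S := 𝓞 ℚ) (p : ℤ)
    rw [map_natCast] at h2
    exact h2
  rw [h1, NumberField.RingOfIntegers.rank, Module.finrank_self, pow_one]
  exact Int.natAbs_natCast p

private theorem pq_gen (P : HeightOneSpectrum (𝓞 ℚ)) : (nrm P).Prime ∧
    P.asIdeal = Ideal.span {((nrm P : ℕ) : 𝓞 ℚ)} := by
  have h1 : ((nrm P : ℕ) : 𝓞 ℚ) ∈ P.asIdeal := Ideal.absNorm_mem P.asIdeal
  have h0 : nrm P ≠ 0 := by
    intro h
    have h2 : Ideal.absNorm P.asIdeal = 0 := h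
    exact P.ne_bot (Ideal.absNorm_eq_zero_iff.1 h2)
  obtain ⟨p, hp, hpP⟩ : ∃ p : ℕ, p.Prime ∧ ((p : ℕ) : 𝓞 ℚ) ∈ P.asIdeal := by
    have key : ∀ n : ℕ, n ≠ 0 → ((n : ℕ) : 𝓞 ℚ) ∈ P.asIdeal →
        ∃ p : ℕ, p.Prime ∧ ((p : ℕ) : 𝓞 ℚ) ∈ P.asIdeal := by
      intro n
      induction n using Nat.recOnMul with
      | zero => intro h; exact absurd rfl h
      | one =>
        intro _ h
        rw [Nat.cast_one] at h
        exact absurd ((Ideal.eq_top_iff_one _).2 h) P.isPrime.ne_top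
      | prime p hp => exact fun _ h => ⟨p, hp, h⟩
      | mul a b ha hb =>
        intro hab h
        rw [Nat.cast_mul] at h
        rcases P.isPrime.mem_or_mem h with h | h
        · exact ha (fun h => hab (by rw [h, zero_mul])) h
        · exact hb (fun h => hab (by rw [h, mul_zero])) h
    exact key _ h0 h1
  have heq : P.asIdeal = Ideal.span {((p : ℕ) : 𝓞 ℚ)} :=
    ((pq_max hp).eq_of_le P.isPrime.ne_top ((Ideal.span_singleton_le_iff_mem _).mpr hpP)).symm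
  have hn : nrm P = p := by
    have h2 : nrm P = Ideal.absNorm P.asIdeal := rfl
    rw [h2, heq, pq_norm]
  rw [hn]
  exact ⟨hp, heq⟩

private theorem pq_top {k : Type} [Field k] [NumberField k] (Q : HeightOneSpectrum (𝓞 k))
    (n : ℕ) : ((n : ℕ) : 𝓞 (Om k)) ∈ top Q ↔ ((n : ℕ) : 𝓞 k) ∈ Q.asIdeal := by
  have h1 : ((n : ℕ) : 𝓞 (Om k)) =
      algebraMap (𝓞 k) (𝓞 (Om k)) ((n : ℕ) : 𝓞 k) := (map_natCast _ _).symm
  rw [h1, ← Ideal.mem_comap, Pool.Agent.H98.MF.top_comap Q]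

/-- Row R6: the primes of the rational numbers. -/
theorem spq : SPq := by
  have hinj : ∀ P Q : HeightOneSpectrum (𝓞 ℚ), nrm P = nrm Q → P = Q := by
    intro P Q h
    apply HeightOneSpectrum.ext
    rw [(pq_gen P).2, (pq_gen Q).2, h]
  refine ⟨fun P => (pq_gen P).1, hinj, fun p hp => ?_, fun P Q => ?_⟩
  · have h0 : ((p : ℕ) : 𝓞 ℚ) ≠ 0 := (pq_prime hp).ne_zero
    exact ⟨⟨Ideal.span {((p : ℕ) : 𝓞 ℚ)}, (pq_max hp).isPrime, by simpa using h0⟩, pq_norm p⟩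
  · rw [pq_top Q (nrm P)]
    constructor
    · intro h
      have h2 : P.asIdeal ≤ Q.asIdeal := by
        rw [(pq_gen P).2]
        exact (Ideal.span_singleton_le_iff_mem _).mpr h
      have hm : P.asIdeal.IsMaximal := by
        rw [(pq_gen P).2]
        exact pq_max (pq_gen P).1
      exact HeightOneSpectrum.ext (hm.eq_of_le Q.isPrime.ne_top h2)
    · rintro rfl
      exact Ideal.absNorm_mem P.asIdeal

end Pool.Agent.H38.SR
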