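import Pool.Agent.H38.SR.Stm
import Pool.Agent.H98.MF.L.Top

/-!
# Scholz-Reichardt (MP_a3214d, T4, block S), R5: roots of unity
-/

set_option autoImplicit false

open scoped BigOperators Pointwise
open NumberField IsDedekindDomain

namespace Pool.Agent.H38.SR

open Pool.Agent.H98.MF (Om Gm ord Dec top nrm)

variable {k : Type} [Field k] [NumberField k]

private theorem ru_cop (P : HeightOneSpectrum (𝓞 k)) (m : ℕ) (hm : Nat.Coprime m (nrm P))
    (h : ((m : ℕ) : 𝓞 k) ∈ P.asIdeal) : False := by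
  have h1 : ((nrm P : ℕ) : 𝓞 k) ∈ P.asIdeal := Ideal.absNorm_mem P.asIdeal
  have h2 : IsCoprime (m : ℤ) (nrm P : ℤ) := Nat.isCoprime_iff_coprime.2 hm
  obtain ⟨a, b, hab⟩ := h2
  have h3 : ((a : 𝓞 k)) * (m : 𝓞 k) + (b : 𝓞 k) * ((nrm P : ℕ) : 𝓞 k) = 1 := by
    have h4 := congrArg (fun x : ℤ => (x : 𝓞 k)) hab
    push_cast at h4
    exact h4
  apply P.isPrime.ne_top
  rw [Ideal.eq_top_iff_one, ← h3]
  exact P.asIdeal.add_mem (P.asIdeal.mul_mem_left _ h) (P.asIdeal.mul_mem_left _ h1)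

private theorem ru_one (P : HeightOneSpectrum (𝓞 k)) (m : ℕ) (hm : Nat.Coprime m (nrm P))
    (x : 𝓞 (Om k)) (hx : x ^ m = 1) (h : x - 1 ∈ top P) : x = 1 := by
  by_contra hne
  have h1 : (∑ i ∈ Finset.range m, x ^ i) * (x - 1) = 0 := by
    rw [geom_sum_mul, hx, sub_self]
  have h2 : ∑ i ∈ Finset.range m, x ^ i = 0 := by
    rcases mul_eq_zero.1 h1 with h3 | h3
    · exact h3
    · exact absurd (sub_eq_zero.1 h3) hne
  have h3 : ∀ i : ℕ, x ^ i - 1 ∈ top P := by
    intro i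
    have h4 : x - 1 ∣ x ^ i - 1 := by
      have := sub_dvd_pow_sub_pow x 1 i
      rwa [one_pow] at this
    obtain ⟨c, hc⟩ := h4
    rw [hc]
    exact (top P).mul_mem_right _ h
  have h4 : ((m : ℕ) : 𝓞 (Om k)) ∈ top P := by
    have h5 : ∑ i ∈ Finset.range m, (x ^ i - 1) ∈ top P := (top P).sum_mem fun i _ => h3 i
    rw [Finset.sum_sub_distrib, h2, zero_sub] at h5
    have h6 := (top P).neg_mem h5
    rw [neg_neg] at h6
    simpa using h6
  refine ru_cop P m hm ?_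
  rw [← Pool.Agent.H98.MF.top_comap P, Ideal.mem_comap, map_natCast]
  exact h4

private theorem ru_eq (P : HeightOneSpectrum (𝓞 k)) (m : ℕ) (hm : Nat.Coprime m (nrm P))
    (hm0 : 0 < m) (a b : 𝓞 (Om k)) (ha : a ^ m = 1) (hb : b ^ m = 1) (h : a - b ∈ top P) :
    a = b := by
  have h1 : b * b ^ (m - 1) = 1 := by
    rw [← pow_succ', Nat.sub_add_cancel hm0, hb]
  have h2 : a * b ^ (m - 1) = 1 := by
    refine ru_one P m hm _ ?_ ?_
    · rw [mul_pow, ha, one_mul, ← pow_mul, mul_comm, pow_mul, hb, one_pow]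
    · have h3 : a * b ^ (m - 1) - 1 = (a - b) * b ^ (m - 1) := by
        rw [sub_mul, h1]
      rw [h3]
      exact (top P).mul_mem_right _ h
  calc a = a * (b * b ^ (m - 1)) := by rw [h1, mul_one]
    _ = a * b ^ (m - 1) * b := by ring
    _ = b := by rw [h2, one_mul]

theorem sru : SRu := by
  intro k _ _ P m ζ hζ hm
  have hm0 : 0 < m := by
    rcases Nat.eq_zero_or_pos m with h | h
    · subst h
      exact (ru_cop P 0 hm (by rw [Nat.cast_zero]; exact P.asIdeal.zero_mem)).elim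
    · exact h
  have hint : IsIntegral ℤ ζ := by
    refine IsIntegral.of_pow hm0 ?_
    rw [hζ]
    exact isIntegral_one
  let x : 𝓞 (Om k) := ⟨ζ, hint⟩
  have hx : x ^ m = 1 := RingOfIntegers.coe_injective hζ
  have hact : ∀ σ : Gm k, (σ • x) ^ m = 1 := by
    intro σ
    rw [← smul_pow', hx, smul_one]
  refine ⟨fun τ hτ => ?_, fun φ hφ => ?_⟩
  · have h1 : τ • x - x ∈ top P := hτ x
    have h2 := ru_eq P m hm hm0 (τ • x) x (hact τ) hx h1
    exact congrArg (fun y : 𝓞 (Om k) => (y : Om k)) h2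
  · have h1 : φ • x - x ^ nrm P ∈ top P := hφ x
    have h2 := ru_eq P m hm hm0 (φ • x) (x ^ nrm P) (hact φ) (by
      rw [← pow_mul, mul_comm, pow_mul, hx, one_pow]) h1
    exact congrArg (fun y : 𝓞 (Om k) => (y : Om k)) h2

end Pool.Agent.H38.SR
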