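import Pool.Agent.H38.SR.Sel_a

/-!
# Scholz-Reichardt (MP_a3214d, T4, block S), row P3: the choice of the new prime
-/

set_option autoImplicit false

open scoped BigOperators Pointwise
open NumberField IsDedekindDomain

namespace Pool.Agent.H38.SR

open Pool.Agent.H98.MF (Om Gm ord Dec top nrm top_prime)

section

variable {l N : ℕ} [Fact l.Prime] {G : Type} [Group G] (ρ : Gm ℚ →* G) {z : Om ℚ}
  (T : Finset (HeightOneSpectrum (𝓞 ℚ))) {y : HeightOneSpectrum (𝓞 ℚ) → Om ℚ}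

omit [Fact l.Prime] in
theorem sel_fixz {σ : Gm ℚ} (h : σ z = z) (x : ZMod l) :
    σ ((z ^ l ^ N) ^ x.val) = (z ^ l ^ N) ^ x.val := by
  rw [map_pow, map_pow, h]

/-- the subgroup of the elements that act on the roots of the primes by the multiples of `c` -/
noncomputable def selW (hz : IsPrimitiveRoot z (l ^ (N + 1)))
    (y : HeightOneSpectrum (𝓞 ℚ) → Om ℚ) (c : HeightOneSpectrum (𝓞 ℚ) → ZMod l) :
    Subgroup (Gm ℚ) where
  carrier := {σ | ρ σ = 1 ∧ σ z = z ∧ ∃ t : ZMod l, ∀ P ∈ T,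
    σ (y P) = (z ^ l ^ N) ^ (t * c P).val * y P}
  one_mem' := ⟨map_one ρ, rfl, 0, fun P _ => by
    rw [zero_mul, ZMod.val_zero, pow_zero, one_mul]
    rfl⟩
  mul_mem' := by
    rintro σ τ ⟨h1, h2, t, h3⟩ ⟨h4, h5, u, h6⟩
    have hζ : (z ^ l ^ N) ^ l = 1 := by
      rw [← pow_mul, ← pow_succ]
      exact hz.pow_eq_one
    refine ⟨by rw [map_mul, h1, h4, one_mul], ?_, t + u, fun P hP => ?_⟩
    · change σ (τ z) = z
      rw [h5, h2]
    · change σ (τ (y P)) = _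
      rw [h6 P hP, map_mul, sel_fixz h2, h3 P hP, add_mul, sel_pw hζ]
      ring
  inv_mem' := by
    rintro σ ⟨h1, h2, t, h3⟩
    have hζ : (z ^ l ^ N) ^ l = 1 := by
      rw [← pow_mul, ← pow_succ]
      exact hz.pow_eq_one
    have h4 : σ⁻¹ z = z := by
      change σ.symm z = z
      rw [AlgEquiv.symm_apply_eq, h2]
    refine ⟨by rw [map_inv, h1, inv_one], h4, -t, fun P hP => ?_⟩
    change σ.symm (y P) = _
    rw [AlgEquiv.symm_apply_eq, map_mul, sel_fixz h2, h3 P hP, ← mul_assoc, ← sel_pw hζ,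
      neg_mul, neg_add_cancel, ZMod.val_zero, pow_zero, one_mul]

theorem mem_selW (hz : IsPrimitiveRoot z (l ^ (N + 1))) (c : HeightOneSpectrum (𝓞 ℚ) → ZMod l)
    (σ : Gm ℚ) : σ ∈ selW ρ T hz y c ↔ ρ σ = 1 ∧ σ z = z ∧ ∃ t : ZMod l, ∀ P ∈ T,
      σ (y P) = (z ^ l ^ N) ^ (t * c P).val * y P := Iff.rfl

theorem selW_normal (hz : IsPrimitiveRoot z (l ^ (N + 1)))
    (hy : ∀ P ∈ T, y P ^ l = ((nrm P : ℕ) : Om ℚ)) (hy0 : ∀ P ∈ T, y P ≠ 0)
    (c : HeightOneSpectrum (𝓞 ℚ) → ZMod l) : (selW ρ T hz y c).Normal := by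
  have hlp : l.Prime := Fact.out
  have hζ : (z ^ l ^ N) ^ l = 1 := by
    rw [← pow_mul, ← pow_succ]
    exact hz.pow_eq_one
  have hζp : IsPrimitiveRoot (z ^ l ^ N) l :=
    hz.pow (pow_pos hlp.pos _) (pow_succ l N)
  refine ⟨fun σ hσ g => ?_⟩
  obtain ⟨h1, h2, t, h3⟩ := hσ
  have hroot : ∀ x : Om ℚ, x ^ l = 1 → ∃ i : ZMod l, x = (z ^ l ^ N) ^ i.val := by
    intro x hx
    obtain ⟨i, hi, hi2⟩ := hζp.eq_pow_of_pow_eq_one hx
    exact ⟨(i : ZMod l), by rw [ZMod.val_natCast, Nat.mod_eq_of_lt hi, hi2]⟩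
  -- the action on the root of unity
  obtain ⟨w, hw⟩ := hroot (g (z ^ l ^ N)) (by rw [← map_pow, hζ, map_one])
  have hgz : ∀ a : ZMod l, g ((z ^ l ^ N) ^ a.val) = (z ^ l ^ N) ^ (w * a).val := by
    intro a
    rw [map_pow, hw, ← pow_mul, ZMod.val_mul]
    exact pow_eq_pow_mod _ hζ
  refine ⟨by rw [map_mul, map_mul, h1, mul_one, ← map_mul, mul_inv_cancel, map_one], ?_,
    w * t, fun P hP => ?_⟩
  · -- `z` is fixed: `g⁻¹ z` is a power of `z`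
    have h4 : (g.symm z) ^ (l ^ (N + 1)) = 1 := by rw [← map_pow, hz.pow_eq_one, map_one]
    obtain ⟨i, -, hi⟩ := hz.eq_pow_of_pow_eq_one h4
    change g (σ (g.symm z)) = z
    rw [← hi, map_pow, h2, hi, AlgEquiv.apply_symm_apply]
  · have h4 : (g.symm (y P) / y P) ^ l = 1 := by
      rw [div_pow, ← map_pow, hy P hP, map_natCast, ← hy P hP]
      exact div_self (pow_ne_zero _ (hy0 P hP))
    obtain ⟨a, ha⟩ := hroot _ h4
    have h5 : g.symm (y P) = (z ^ l ^ N) ^ a.val * y P := (div_eq_iff (hy0 P hP)).1 ha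
    change g (σ (g.symm (y P))) = _
    have h6 : σ (g.symm (y P)) = (z ^ l ^ N) ^ (t * c P).val * g.symm (y P) := by
      rw [h5, map_mul, sel_fixz h2, h3 P hP]
      ring
    rw [h6, map_mul, hgz, AlgEquiv.apply_symm_apply, mul_assoc]

theorem selW_open (hρ : IsLocallyConstant ρ) (hz : IsPrimitiveRoot z (l ^ (N + 1)))
    (c : HeightOneSpectrum (𝓞 ℚ) → ZMod l) : IsOpen (selW ρ T hz y c : Set (Gm ℚ)) := by
  have h1 : IsOpen (⋂ P ∈ T, {σ : Gm ℚ | σ (y P) = y P}) :=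
    isOpen_biInter_finset fun P _ => (sel_lc (y P)).isOpen_fiber (y P)
  have h2 : IsOpen {σ : Gm ℚ | ρ σ = 1} := hρ.isOpen_fiber 1
  have h3 : IsOpen {σ : Gm ℚ | σ z = z} := (sel_lc z).isOpen_fiber z
  refine Subgroup.isOpen_of_mem_nhds _ (g := 1) ?_
  refine Filter.mem_of_superset (((h2.inter h3).inter h1).mem_nhds ?_) ?_
  · refine ⟨⟨map_one ρ, rfl⟩, ?_⟩
    rw [Set.mem_iInter₂]
    intro P _
    rfl
  · rintro σ ⟨⟨h4, h5⟩, h6⟩
    rw [Set.mem_iInter₂] at h6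
    refine ⟨h4, h5, 0, fun P hP => ?_⟩
    rw [zero_mul, ZMod.val_zero, pow_zero, one_mul]
    exact h6 P hP

end

open Classical in
/-- P3: the choice of the new prime -/
theorem ssel (hf : SIf) (hq : SIq) (h4 : SFi) (h5 : SRu) (h6 : SPq) (h7 : STt) (hs : SSpl)
    (hi : SId) : SSel := by
  intro l _ hl2 N G _ _ hG ρ hρ V hVn hVo T hT φ hφ c
  have hlp : l.Prime := Fact.out
  have : NeZero (l ^ (N + 1)) := ⟨(pow_pos hlp.pos _).ne'⟩
  obtain ⟨z, hz⟩ := HasEnoughRootsOfUnity.exists_primitiveRoot (Om ℚ) (l ^ (N + 1))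
  have hζ : (z ^ l ^ N) ^ l = 1 := by
    rw [← pow_mul, ← pow_succ]
    exact hz.pow_eq_one
  have hζp : IsPrimitiveRoot (z ^ l ^ N) l :=
    hz.pow (pow_pos hlp.pos _) (pow_succ l N)
  have hye : ∀ P : HeightOneSpectrum (𝓞 ℚ), ∃ y : Om ℚ, y ^ l = ((nrm P : ℕ) : Om ℚ) :=
    fun P => IsAlgClosed.exists_pow_nat_eq _ hlp.pos
  choose y hy using hye
  have hy0 : ∀ P, y P ≠ 0 := by
    intro P h
    have h1 := hy P
    rw [h, zero_pow hlp.pos.ne'] at h1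
    exact (h6.1 P).ne_zero (by exact_mod_cast h1.symm)
  set W := selW ρ T hz y c with hW
  set W0 := selW ρ T hz y (fun _ => 0) with hW0
  have hWn : W.Normal := selW_normal ρ T hz (fun P _ => hy P) (fun P _ => hy0 P) c
  have hW0n : W0.Normal := selW_normal ρ T hz (fun P _ => hy P) (fun P _ => hy0 P) _
  have hWo : IsOpen (W : Set (Gm ℚ)) := selW_open ρ T hρ hz c
  have hW0o : IsOpen (W0 : Set (Gm ℚ)) := selW_open ρ T hρ hz _
  have hle : W0 ≤ W := by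
    rintro σ ⟨h1, h2, t, h3⟩
    refine ⟨h1, h2, 0, fun P hP => ?_⟩
    rw [h3 P hP, mul_zero, zero_mul]
  -- the finite set of excluded primes
  have hfin : ({Q : HeightOneSpectrum (𝓞 ℚ) | nrm Q = l} ∪
      {Q | ¬ Ine Q ≤ V} ∪ {Q | ¬ Ine Q ≤ W0}).Finite := by
    refine (Set.Finite.union ?_ (h4 ℚ V hVn hVo)).union (h4 ℚ W0 hW0n hW0o)
    refine Set.Subsingleton.finite fun P hP Q hQ => h6.2.1 P Q ?_
    have h1 : nrm P = l := hP
    have h2 : nrm Q = l := hQ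
    rw [h1, h2]
  -- the prime
  obtain ⟨Q, hQF, hQW, hQc⟩ : ∃ Q, Q ∉ T ∪ hfin.toFinset ∧ Dec Q ≤ W ∧
      ((∃ P ∈ T, c P ≠ 0) → ¬ Dec Q ≤ W0) := by
    by_cases hc : ∃ P ∈ T, c P ≠ 0
    · obtain ⟨P, hP, hcP⟩ := hc
      have hlt : W0 < W := by
        refine lt_of_le_of_ne hle fun h => ?_
        obtain ⟨σ, h1, h2, h3⟩ := hi l hl2 N G hG ρ z hz T y (fun P _ => hy P) c
        have h8 : σ ∈ W := ⟨h1, h2, 1, fun P hP => by rw [one_mul]; exact h3 P hP⟩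
        rw [← h] at h8
        obtain ⟨-, -, t, h9⟩ := h8
        have h10 := h9 P hP
        rw [h3 P hP, mul_zero] at h10
        exact hcP (sel_inj hζp (mul_right_cancel₀ (hy0 P) h10))
      obtain ⟨Q, h1, h2, h3⟩ := (hs ℚ W hWn hWo (T ∪ hfin.toFinset)).2 W0 hW0n hW0o hlt
      exact ⟨Q, h1, h2, fun _ => h3⟩
    · obtain ⟨Q, h1, h2⟩ := (hs ℚ W hWn hWo (T ∪ hfin.toFinset)).1
      exact ⟨Q, h1, h2, fun h => absurd h hc⟩
  rw [Finset.mem_union, not_or, Set.Finite.mem_toFinset] at hQF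
  obtain ⟨hQT, hQF⟩ := hQF
  have hQl : nrm Q ≠ l := fun h => hQF (Or.inl (Or.inl h))
  have hQV : Ine Q ≤ V := by
    by_contra h
    exact hQF (Or.inl (Or.inr h))
  have hQI : Ine Q ≤ W0 := by
    by_contra h
    exact hQF (Or.inr h)
  obtain ⟨-, ⟨ψ, hψ⟩, hψD, -⟩ := hf ℚ Q
  have hψW : ψ ∈ W := hQW (hψD ψ hψ)
  obtain ⟨hψ1, hψ2, t, hψ3⟩ := hψW
  have hqp := h6.1 Q
  -- the congruence
  have hdvd : l ^ (N + 1) ∣ nrm Q - 1 := by
    have hcop : Nat.Coprime (l ^ (N + 1)) (nrm Q) :=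
      Nat.Coprime.pow_left _ ((Nat.coprime_primes hlp hqp).2 (Ne.symm hQl))
    have h1 := (h5 ℚ Q _ z hz.pow_eq_one hcop).2 ψ hψ
    rw [hψ2] at h1
    refine (hz.pow_eq_one_iff_dvd _).1 ?_
    have h2 : z ^ (nrm Q - 1) * z = 1 * z := by
      rw [← pow_succ, Nat.sub_add_cancel hqp.one_lt.le, one_mul]
      exact h1.symm
    exact mul_right_cancel₀ (hz.ne_zero (pow_pos hlp.pos _).ne') h2
  have hcong : nrm Q ≡ 1 [MOD l ^ N] := by
    have h1 : l ^ N ∣ nrm Q - 1 := (pow_dvd_pow l (Nat.le_succ N)).trans hdvd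
    exact ((Nat.modEq_iff_dvd' hqp.one_lt.le).2 h1).symm
  have hl1 : l ∣ nrm Q - 1 := (dvd_pow_self l (Nat.succ_ne_zero N)).trans hdvd
  obtain ⟨χ, hχ, ⟨τ, hτ, hτ0⟩, hχP, hχv⟩ := sel_chr h5 h6 h7 l Q hl1 (z ^ l ^ N) hζp
  have hval : ∀ P ∈ T, χ (φ P) = t * c P := fun P hP =>
    hχv P (fun h => hQT (h ▸ hP)) (y P) (hy P) (φ P) ψ (hφ P) hψ _ (hψ3 P hP)
  have hρ1 : ∀ σ ∈ Dec Q, ρ σ = 1 := fun σ hσ => (hQW hσ).1
  by_cases hc : ∃ P ∈ T, c P ≠ 0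
  · have ht : t ≠ 0 := by
      rintro rfl
      refine hQc hc fun σ hσ => ?_
      have hψW0 : ψ ∈ W0 := ⟨hψ1, hψ2, 0, fun P hP => by
        rw [hψ3 P hP, zero_mul, zero_mul]⟩
      obtain ⟨n, τ', hτ', hn⟩ := (hq ℚ Q W0 hW0n hW0o).2 ψ hψ σ hσ
      have h1 : ψ ^ n * τ' ∈ W0 := W0.mul_mem (W0.pow_mem hψW0 n) (hQI hτ')
      have h2 := W0.mul_mem h1 hn
      rwa [mul_inv_cancel_left] at h2
    refine ⟨Q, fun σ => t⁻¹ * χ σ, ⟨?_, ?_⟩, hQl, hQT, hcong, hQV, hρ1, ⟨τ, hτ, ?_⟩, ?_, ?_⟩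
    · exact hχ.lc.comp (fun x => t⁻¹ * x)
    · intro σ τ
      rw [hχ.add, mul_add]
    · exact mul_ne_zero (inv_ne_zero ht) hτ0
    · intro P hP τ hτ
      change t⁻¹ * χ τ = 0
      rw [hχP P hP τ hτ, mul_zero]
    · intro P hP
      change t⁻¹ * χ (φ P) = c P
      rw [hval P hP, inv_mul_cancel_left₀ ht]
  · push Not at hc
    refine ⟨Q, χ, hχ, hQl, hQT, hcong, hQV, hρ1, ⟨τ, hτ, hτ0⟩, hχP, fun P hP => ?_⟩
    rw [hval P hP, hc P hP, mul_zero]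

end Pool.Agent.H38.SR
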