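import Pool.Agent.H38.SR.Stm
import Pool.Agent.H98.MF.NSplA
import Pool.Agent.H98.MF.L.Top

/-!
# Scholz-Reichardt (MP_a3214d, T4, block S), row P1: primes that split completely in a field and
not in a larger one
-/

set_option autoImplicit false

open scoped BigOperators Pointwise
open NumberField IsDedekindDomain

namespace Pool.Agent.H38.SR

open Pool.Agent.H98.MF (Om Gm ord Dec top nrm)
open Pool.Agent.H92.EL (OvP SSd SSp)

/-- the logarithm is unbounded -/
private theorem spl_log {a B : ℝ} (ha : 0 < a)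
    (h : ∀ s : ℝ, 1 < s → s ≤ 2 → a * Real.log (1 / (s - 1)) ≤ B) : False := by
  have hB : 0 ≤ B := by
    have h2 := h 2 (by norm_num) le_rfl
    norm_num at h2
    exact h2
  have hM : 0 ≤ (B + 1) / a := div_nonneg (by linarith) ha.le
  have h3 := h (1 + Real.exp (-((B + 1) / a))) (by linarith [Real.exp_pos (-((B + 1) / a))]) (by
    have : Real.exp (-((B + 1) / a)) ≤ 1 := Real.exp_le_one_iff.2 (by linarith)
    linarith)
  rw [add_sub_cancel_left, one_div, Real.log_inv, Real.log_exp, neg_neg,
    mul_div_cancel₀ _ ha.ne'] at h3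
  linarith

section

variable {k : Type} [Field k] [NumberField k]

private theorem spl_le (P : HeightOneSpectrum (𝓞 k)) (s : ℝ) (hs : 1 < s) :
    (nrm P : ℝ) ^ (-s) ≤ 1 := by
  have h1 : 1 ≤ nrm P := by
    unfold nrm
    have : Ideal.absNorm P.asIdeal ≠ 0 := fun h => P.ne_bot (Ideal.absNorm_eq_zero_iff.1 h)
    omega
  exact Real.rpow_le_one_of_one_le_of_nonpos (by exact_mod_cast h1) (by linarith)

/-- sums over two sets of primes that differ in a finite set -/
private theorem spl_cmp {p q : HeightOneSpectrum (𝓞 k) → Prop}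
    (F : Finset (HeightOneSpectrum (𝓞 k))) (h : ∀ P, P ∉ F → p P → q P) (s : ℝ) (hs : 1 < s) :
    ∑' Q : {Q : HeightOneSpectrum (𝓞 k) // p Q}, (nrm Q.1 : ℝ) ^ (-s) ≤
      ∑' Q : {Q : HeightOneSpectrum (𝓞 k) // q Q}, (nrm Q.1 : ℝ) ^ (-s) + F.card := by
  classical
  have hsm := Pool.Agent.H98.MF.summable_nrm (k := k) s hs
  have hpos : ∀ Q : HeightOneSpectrum (𝓞 k), 0 ≤ (nrm Q : ℝ) ^ (-s) := fun Q =>
    Real.rpow_nonneg (Nat.cast_nonneg _) _
  have e1 : ∑' Q : {Q : HeightOneSpectrum (𝓞 k) // p Q}, (nrm Q.1 : ℝ) ^ (-s) =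
      ∑' Q, Set.indicator {Q | p Q} (fun Q => (nrm Q : ℝ) ^ (-s)) Q :=
    tsum_subtype {Q | p Q} (fun Q => (nrm Q : ℝ) ^ (-s))
  have e2 : ∑' Q : {Q : HeightOneSpectrum (𝓞 k) // q Q}, (nrm Q.1 : ℝ) ^ (-s) =
      ∑' Q, Set.indicator {Q | q Q} (fun Q => (nrm Q : ℝ) ^ (-s)) Q :=
    tsum_subtype {Q | q Q} (fun Q => (nrm Q : ℝ) ^ (-s))
  have e3 : ∑' Q, Set.indicator (F : Set (HeightOneSpectrum (𝓞 k))) (fun _ => (1 : ℝ)) Q =
      F.card := by
    rw [← tsum_subtype, Finset.tsum_subtype' F (fun _ => (1 : ℝ))]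
    simp
  have s3 : Summable (Set.indicator (F : Set (HeightOneSpectrum (𝓞 k))) (fun _ => (1 : ℝ))) := by
    refine summable_of_ne_finset_zero (s := F) fun Q hQ => ?_
    exact Set.indicator_of_notMem (by simpa using hQ) _
  have s1 := hsm.indicator {Q | p Q}
  have s2 := hsm.indicator {Q | q Q}
  rw [e1, e2, ← e3, ← s2.tsum_add s3]
  refine Summable.tsum_le_tsum (fun Q => ?_) s1 (s2.add s3)
  by_cases hF : Q ∈ F
  · rw [Set.indicator_of_mem (show Q ∈ (F : Set (HeightOneSpectrum (𝓞 k))) from hF)]
    have h1 : Set.indicator {Q | p Q} (fun Q => (nrm Q : ℝ) ^ (-s)) Q ≤ 1 := by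
      by_cases hp : p Q
      · rw [Set.indicator_of_mem (show Q ∈ {Q | p Q} from hp)]
        exact spl_le Q s hs
      · rw [Set.indicator_of_notMem (show Q ∉ {Q | p Q} from hp)]
        exact zero_le_one
    have h2 : 0 ≤ Set.indicator {Q | q Q} (fun Q => (nrm Q : ℝ) ^ (-s)) Q :=
      Set.indicator_nonneg (fun Q _ => hpos Q) Q
    linarith
  · rw [Set.indicator_of_notMem (show Q ∉ (F : Set (HeightOneSpectrum (𝓞 k))) from hF),
      add_zero]
    by_cases hp : p Q
    · rw [Set.indicator_of_mem (show Q ∈ {Q | p Q} from hp),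
        Set.indicator_of_mem (show Q ∈ {Q | q Q} from h Q hF hp)]
    · rw [Set.indicator_of_notMem (show Q ∉ {Q | p Q} from hp)]
      exact Set.indicator_nonneg (fun Q _ => hpos Q) Q

/-- the field of a normal open subgroup -/
private theorem spl_fld (W : Subgroup (Gm k)) (hW : W.Normal) (hO : IsOpen (W : Set (Gm k))) :
    (IntermediateField.fixedField W).fixingSubgroup = W ∧
      FiniteDimensional k (IntermediateField.fixedField W) ∧
      IsGalois k (IntermediateField.fixedField W) := by
  have hC : IsClosed (W : Set (Gm k)) := W.isClosed_of_isOpen hO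
  have h1 : (IntermediateField.fixedField W).fixingSubgroup = W :=
    InfiniteGalois.fixingSubgroup_fixedField (⟨W, hC⟩ : ClosedSubgroup (Gm k))
  refine ⟨h1, ?_, ?_⟩
  · refine (InfiniteGalois.isOpen_iff_finite (IntermediateField.fixedField W)).1 ?_
    rw [h1]
    exact hO
  · refine (InfiniteGalois.normal_iff_isGalois (IntermediateField.fixedField W)).1 ?_
    rw [h1]
    exact hW

/-- the sum over the primes that split completely -/
private theorem spl_sum (hd : SSd) (hs : SSp) (W : Subgroup (Gm k)) (hW : W.Normal)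
    (hO : IsOpen (W : Set (Gm k))) :
    ∃ C : ℝ, ∀ s : ℝ, 1 < s → s ≤ 2 →
      |∑' Q : {P : HeightOneSpectrum (𝓞 k) // Dec P ≤ W}, (nrm Q.1 : ℝ) ^ (-s) -
        (1 / Module.finrank k (IntermediateField.fixedField W)) * Real.log (1 / (s - 1))| ≤ C := by
  obtain ⟨h1, h2, h3⟩ := spl_fld W hW hO
  have : NumberField (IntermediateField.fixedField W) :=
    Pool.Agent.H98.MF.nf_of_fd (IntermediateField.fixedField W)
  obtain ⟨C, hC⟩ := hs k (IntermediateField.fixedField W)
  refine ⟨C, fun s hs1 hs2 => ?_⟩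
  have h4 := hC s hs1 hs2
  have h5 : (fun P : HeightOneSpectrum (𝓞 k) =>
      Nat.card {Q : HeightOneSpectrum (𝓞 (IntermediateField.fixedField W)) // OvP P Q} =
        Module.finrank k (IntermediateField.fixedField W)) = fun P => Dec P ≤ W := by
    funext P
    refine propext ?_
    rw [(hd k (IntermediateField.fixedField W) (IntermediateField.fixedField W).val P).1]
    constructor
    · intro h σ hσ
      have h6 : σ ∈ (IntermediateField.fixedField W).fixingSubgroup := by
        rw [IntermediateField.mem_fixingSubgroup_iff]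
        intro x hx
        exact h σ hσ ⟨x, hx⟩
      rwa [h1] at h6
    · intro h σ hσ x
      have h6 : σ ∈ (IntermediateField.fixedField W).fixingSubgroup := by
        rw [h1]
        exact h hσ
      exact (IntermediateField.mem_fixingSubgroup_iff _ _).1 h6 x.1 x.2
  have h6 : ∑' Q : {P : HeightOneSpectrum (𝓞 k) // Nat.card
      {Q : HeightOneSpectrum (𝓞 (IntermediateField.fixedField W)) // OvP P Q} =
        Module.finrank k (IntermediateField.fixedField W)}, (nrm Q.1 : ℝ) ^ (-s) =
      ∑' Q : {P : HeightOneSpectrum (𝓞 k) // Dec P ≤ W}, (nrm Q.1 : ℝ) ^ (-s) :=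
    congrArg (fun p : HeightOneSpectrum (𝓞 k) → Prop =>
      ∑' Q : {P : HeightOneSpectrum (𝓞 k) // p P}, (nrm Q.1 : ℝ) ^ (-s)) h5
  rw [h6] at h4
  exact h4

end

/-- Row P1 -/
theorem sspl (hd : SSd) (hs : SSp) : SSpl := by
  intro k _ _ W hW hO F
  obtain ⟨C, hC⟩ := spl_sum hd hs W hW hO
  obtain ⟨f1, f2, f3⟩ := spl_fld W hW hO
  have hn : 0 < Module.finrank k (IntermediateField.fixedField W) := Module.finrank_pos
  have hn' : (0 : ℝ) < Module.finrank k (IntermediateField.fixedField W) := by exact_mod_cast hn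
  constructor
  · by_contra hno
    push Not at hno
    refine spl_log (a := 1 / Module.finrank k (IntermediateField.fixedField W))
      (B := C + F.card) (by positivity) fun s hs1 hs2 => ?_
    have h1 := spl_cmp (p := fun P => Dec P ≤ W) (q := fun _ => False) F
      (fun P hP h => hno P hP h) s hs1
    have h2 := abs_le.1 (hC s hs1 hs2)
    have he : IsEmpty {Q : HeightOneSpectrum (𝓞 k) // False} := ⟨fun x => x.2⟩
    have h3 : ∑' Q : {Q : HeightOneSpectrum (𝓞 k) // False}, (nrm Q.1 : ℝ) ^ (-s) = 0 :=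
      tsum_empty
    linarith [h2.1]
  · intro W' hW' hO' hlt
    by_contra hno
    push Not at hno
    obtain ⟨C', hC'⟩ := spl_sum hd hs W' hW' hO'
    obtain ⟨g1, g2, g3⟩ := spl_fld W' hW' hO'
    have hlt2 : IntermediateField.fixedField W < IntermediateField.fixedField W' := by
      refine lt_of_le_of_ne (IntermediateField.fixedField_antitone hlt.le) fun h => ?_
      rw [← f1, ← g1, h] at hlt
      exact lt_irrefl _ hlt
    have hlt3 : Module.finrank k (IntermediateField.fixedField W) <
        Module.finrank k (IntermediateField.fixedField W') :=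
      Submodule.finrank_lt_finrank_of_lt
        (s := Subalgebra.toSubmodule (IntermediateField.fixedField W).toSubalgebra)
        (t := Subalgebra.toSubmodule (IntermediateField.fixedField W').toSubalgebra) hlt2
    have hlt4 : (Module.finrank k (IntermediateField.fixedField W) : ℝ) <
        Module.finrank k (IntermediateField.fixedField W') := by exact_mod_cast hlt3
    have hpos : 0 < (1 / Module.finrank k (IntermediateField.fixedField W) : ℝ) -
        1 / Module.finrank k (IntermediateField.fixedField W') := by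
      have := one_div_lt_one_div_of_lt hn' hlt4
      linarith
    refine spl_log hpos (B := C + C' + F.card) fun s hs1 hs2 => ?_
    have h1 := spl_cmp (p := fun P => Dec P ≤ W) (q := fun P => Dec P ≤ W') F
      (fun P hP h => hno P hP h) s hs1
    have h2 := abs_le.1 (hC s hs1 hs2)
    have h3 := abs_le.1 (hC' s hs1 hs2)
    rw [sub_mul]
    linarith [h2.1, h3.2]

end Pool.Agent.H38.SR
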