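import Pool.Agent.H38.SR.Stm

/-!
# Scholz-Reichardt (MP_a3214d, T4, block S), row SR-I4: the step of the induction
-/

set_option autoImplicit false

open scoped BigOperators Pointwise
open NumberField IsDedekindDomain

namespace Pool.Agent.H38.SR

open Pool.Agent.H98.MF (Om Gm ord Dec top nrm)

/-- the kernel of a central extension of prime order -/
theorem stp_iota (l : ℕ) [Fact l.Prime] {E G : Type} [Group E] [Group G] (π : E →* G)
    (hπ : Cx l π) : ∃ i : ZMod l → E, i 0 = 1 ∧ (∀ x y, i (x + y) = i x * i y) ∧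
      (∀ x, π (i x) = 1) ∧ ∀ c, π c = 1 → ∃ x, c = i x := by
  have hl : l.Prime := Fact.out
  have hfin : Finite π.ker := Nat.finite_of_card_ne_zero (by rw [hπ.crd]; exact hl.ne_zero)
  have hnt : Nontrivial π.ker := by
    rw [← Finite.one_lt_card_iff_nontrivial, hπ.crd]
    exact hl.one_lt
  obtain ⟨c, hc⟩ := exists_ne (1 : π.ker)
  have hp : c ^ l = 1 := by
    rw [← hπ.crd]
    exact pow_card_eq_one'
  have hpE : (c : E) ^ l = 1 := by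
    have := congrArg (fun z : π.ker => (z : E)) hp
    simpa using this
  refine ⟨fun x => (c : E) ^ x.val, ?_, fun x y => ?_, fun x => ?_, fun d hd => ?_⟩
  · simp only [ZMod.val_zero, pow_zero]
  · show (c : E) ^ (x + y).val = (c : E) ^ x.val * (c : E) ^ y.val
    rw [← pow_add, ZMod.val_add]
    exact pow_mod_eq hpE _
  · show π ((c : E) ^ x.val) = 1
    rw [map_pow, (MonoidHom.mem_ker).1 c.2, one_pow]
  · have h1 : (⟨d, MonoidHom.mem_ker.2 hd⟩ : π.ker) ∈ Submonoid.powers c :=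
      mem_powers_of_prime_card hπ.crd hc
    obtain ⟨n, hn⟩ := h1
    refine ⟨(n : ZMod l), ?_⟩
    have h2 : d = (c : E) ^ n := by
      have := congrArg (fun z : π.ker => (z : E)) hn
      simpa using this.symm
    show d = (c : E) ^ ((n : ZMod l)).val
    rw [h2, ZMod.val_natCast]
    exact (pow_mod_eq hpE _).symm
where
  pow_mod_eq {l : ℕ} {E : Type} [Group E] {c : E} (h : c ^ l = 1) (n : ℕ) :
      c ^ (n % l) = c ^ n := by
    conv_rhs => rw [← Nat.mod_add_div n l, pow_add, pow_mul, h, one_pow, mul_one]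

/-- the kernel of a locally constant homomorphism is open -/
theorem stp_open {k : Type} [Field k] [NumberField k] {G : Type} [Group G] {ρ : Gm k →* G}
    (h : IsLocallyConstant ρ) : IsOpen (ρ.ker : Set (Gm k)) := by
  have h2 : (ρ.ker : Set (Gm k)) = {x | ρ x = 1} := by
    ext x
    exact MonoidHom.mem_ker
  rw [h2]
  exact h.isOpen_fiber 1

theorem stp_chi_zero {k : Type} [Field k] {l : ℕ} {χ : Gm k → ZMod l} (h : HmZ l χ) :
    χ 1 = 0 := by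
  have h1 := h.add 1 1
  rw [mul_one] at h1
  exact left_eq_add.1 h1

theorem stp_chi_pow {k : Type} [Field k] {l : ℕ} {χ : Gm k → ZMod l} (h : HmZ l χ) (τ : Gm k)
    (n : ℕ) : χ (τ ^ n) = n * χ τ := by
  induction n with
  | zero => rw [pow_zero, stp_chi_zero h, Nat.cast_zero, zero_mul]
  | succ n ih =>
    rw [pow_succ, h.add, ih]
    push_cast
    ring

/-- I4 -/
theorem sstp (hf : SIf) (hq : SIq) (h4 : SFi) (h6 : SPq) (hg : SGlb) (hl : SLl) (hk : SKl)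
    (hp : SKp) (hs : SSel) : SStp := by
  classical
  have _ := h6
  intro l _ hl2 N E G _ _ _ π hπ hE hcard V hVn hVo ρ hρ hV
  have hG : IsPGroup l G := hE.of_surjective π hπ.surj
  obtain ⟨ρ₀, h0l, h0⟩ := hg l hl2 E G π hπ hG ρ hρ.lc
    (fun P => hl l hl2 N E G π hπ hE hcard ρ hρ P)
  obtain ⟨ρ₁, h1l, h1, h1e⟩ := hk l hl2 E G π hπ ρ₀ h0l
    (fun P hP τ hτ => by rw [h0, hρ.ell P hP τ hτ])
  obtain ⟨ρ₂, h2l, h2, h2e⟩ := hp l hl2 E G π hπ hE ρ₁ h1l h1e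
  have h2π : ∀ σ, π (ρ₂ σ) = ρ σ := fun σ => by rw [h2, h1, h0]
  have h2i : ∀ P : HeightOneSpectrum (𝓞 ℚ), (∀ τ ∈ Ine P, ρ τ = 1) → ∀ τ ∈ Ine P, ρ₂ τ = 1 :=
    fun P hP => h2e P fun τ hτ => by rw [h1, h0, hP τ hτ]
  obtain ⟨i, i0, iadd, iπ, iex⟩ := stp_iota l π hπ
  have icen : ∀ x e, i x * e = e * i x := fun x e => hπ.cen (i x) (iπ x) e
  -- the ramified primes
  have hTf : {P : HeightOneSpectrum (𝓞 ℚ) | ¬ Ine P ≤ ρ.ker}.Finite :=
    h4 ℚ ρ.ker inferInstance (stp_open hρ.lc)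
  have hT : ∀ P, P ∈ hTf.toFinset ↔ ∃ τ ∈ Ine P, ρ τ ≠ 1 := by
    intro P
    rw [Set.Finite.mem_toFinset, Set.mem_ofPred_eq, SetLike.not_le_iff_exists]
    rfl
  have hTl : ∀ P ∈ hTf.toFinset, nrm P ≠ l := by
    intro P hP h
    obtain ⟨τ, hτ, h3⟩ := (hT P).1 hP
    exact h3 (hρ.ell P h τ hτ)
  choose φ hφ using fun P : HeightOneSpectrum (𝓞 ℚ) => (hf ℚ P).2.1
  have hτc : ∀ P : HeightOneSpectrum (𝓞 ℚ), ∃ (τ : Gm ℚ) (c : ZMod l), P ∈ hTf.toFinset →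
      τ ∈ Ine P ∧ ρ₂ (φ P) = ρ₂ τ * i c := by
    intro P
    by_cases hP : P ∈ hTf.toFinset
    · obtain ⟨τ, hτ, h3⟩ := (hρ.ram P ((hT P).1 hP)).2 (φ P) ((hf ℚ P).2.2.1 _ (hφ P))
      obtain ⟨c, hc⟩ := iex ((ρ₂ τ)⁻¹ * ρ₂ (φ P)) (by
        rw [map_mul, map_inv, h2π, h2π, h3, inv_mul_cancel])
      refine ⟨τ, c, fun _ => ⟨hτ, ?_⟩⟩
      rw [← hc, mul_inv_cancel_left]
    · exact ⟨1, 0, fun h => absurd h hP⟩
  choose t c htc using hτc
  obtain ⟨Q, χ, hχ, hQl, hQT, hQN, hQV, hQ1, ⟨τQ, hτQ, hτQ0⟩, hχ0, hχc⟩ :=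
    hs l hl2 N E hE ρ₂ h2l V hVn hVo hTf.toFinset hTl φ hφ fun P => -c P
  have hQD : Ine Q ≤ Dec Q := (hf ℚ Q).1
  -- the values of the character on the inertia group at the new prime
  have hsur : ∀ x : ZMod l, ∃ τ ∈ Ine Q, χ τ = x := by
    intro x
    refine ⟨τQ ^ (x * (χ τQ)⁻¹).val, Subgroup.pow_mem _ hτQ _, ?_⟩
    rw [stp_chi_pow hχ, ZMod.natCast_val, ZMod.cast_id', id, mul_assoc,
      inv_mul_cancel₀ hτQ0, mul_one]
  let ρ' : Gm ℚ →* E := MonoidHom.mk' (fun σ => ρ₂ σ * i (χ σ)) (fun σ τ => by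
    rw [map_mul, hχ.add, iadd, mul_assoc, mul_assoc, ← mul_assoc (ρ₂ τ), ← icen (χ σ) (ρ₂ τ),
      mul_assoc])
  have hρ' : ∀ σ, ρ' σ = ρ₂ σ * i (χ σ) := fun σ => rfl
  have hlc : IsLocallyConstant ρ' := by
    have h3 : IsLocallyConstant fun σ => ρ₂ σ * i (χ σ) :=
      h2l.comp₂ hχ.lc fun a b => a * i b
    exact h3
  have hπ' : ∀ σ, π (ρ' σ) = ρ σ := fun σ => by rw [hρ', map_mul, iπ, mul_one, h2π]
  have hne : ∀ P, P ≠ Q → ∀ τ ∈ Ine P, ρ' τ = ρ₂ τ := fun P hP τ hτ => by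
    rw [hρ', hχ0 P hP τ hτ, i0, mul_one]
  have hQ' : ∀ σ ∈ Dec Q, ρ' σ = i (χ σ) := fun σ hσ => by rw [hρ', hQ1 σ hσ, one_mul]
  refine ⟨ρ', ⟨hlc, fun P hP τ hτ => ?_, fun P hP => ?_⟩, fun e => ?_⟩
  · rw [hne P (fun h => hQl (h ▸ hP)) τ hτ]
    exact h2i P (fun τ' hτ' => hρ.ell P hP τ' hτ') τ hτ
  · by_cases hPQ : P = Q
    · subst hPQ
      refine ⟨hQN, fun σ hσ => ?_⟩
      obtain ⟨τ, hτ, h3⟩ := hsur (χ σ)
      exact ⟨τ, hτ, by rw [hQ' σ hσ, hQ' τ (hQD hτ), h3]⟩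
    · have hPT : ∃ τ ∈ Ine P, ρ τ ≠ 1 := by
        by_contra h3
        push Not at h3
        obtain ⟨τ, hτ, h5⟩ := hP
        rw [hne P hPQ τ hτ] at h5
        exact h5 (h2i P h3 τ hτ)
      obtain ⟨htI, htφ⟩ := htc P ((hT P).2 hPT)
      refine ⟨(hρ.ram P hPT).1, fun σ hσ => ?_⟩
      have h5 : ρ' (φ P) = ρ' (t P) := by
        rw [hne P hPQ _ htI, hρ', htφ, hχc P ((hT P).2 hPT), mul_assoc, ← iadd,
          add_neg_cancel, i0, mul_one]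
      obtain ⟨n, τ, hτ, h7⟩ := (hq ℚ P ρ'.ker inferInstance (stp_open hlc)).2 (φ P) (hφ P) σ hσ
      refine ⟨t P ^ n * τ, Subgroup.mul_mem _ (Subgroup.pow_mem _ htI n) hτ, ?_⟩
      have h8 := MonoidHom.mem_ker.1 h7
      rw [map_mul, map_inv, inv_mul_eq_one] at h8
      rw [← h8, map_mul, map_mul, map_pow, map_pow, h5]
  · obtain ⟨v, hv, h3⟩ := hV (π e)
    obtain ⟨x, hx⟩ := iex (e⁻¹ * ρ' v) (by rw [map_mul, map_inv, hπ', h3, inv_mul_cancel])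
    obtain ⟨τ, hτ, h5⟩ := hsur (-x)
    refine ⟨v * τ, Subgroup.mul_mem _ hv (hQV hτ), ?_⟩
    have h7 : ρ' v = e * i x := by rw [← hx, mul_inv_cancel_left]
    rw [map_mul, h7, hQ' τ (hQD hτ), h5, mul_assoc, ← iadd, add_neg_cancel, i0, mul_one]

end Pool.Agent.H38.SR
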