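import Pool.Agent.H38.SR.Stm
import Pool.Agent.H98.MF.L.Fld
import Pool.Agent.H98.MF.L.Top

/-!
# Scholz-Reichardt (MP_a3214d, T4, block S), row R3: tame quotients
-/

set_option autoImplicit false

open scoped BigOperators Pointwise
open NumberField IsDedekindDomain

namespace Pool.Agent.H38.SR

open Pool.Agent.H98.MF (Om Gm ord Dec top nrm fld low exists_resK fldK_finrank fldK_finite fldK_nf
  fldK_galois low_prime low_comap tp_mem_low tp_res)
open Pool.Agent.H92.EL (SGenT)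

section

variable {k : Type} [Field k] [NumberField k]

theorem ta_low (U : Subgroup (Gm k)) (y : 𝓞 (Om k)) (hy : ∀ σ ∈ U, σ • y = y) :
    ∃ x : 𝓞 (fld k U), algebraMap (𝓞 (fld k U)) (𝓞 (Om k)) x = y := by
  have h1 : (y : Om k) ∈ fld k U := by
    refine (IntermediateField.mem_fixedField_iff U (y : Om k)).2 fun σ hσ => ?_
    have h2 : ((σ • y : 𝓞 (Om k)) : Om k) = y := by rw [hy σ hσ]
    exact h2
  have h3 : IsIntegral ℤ (⟨(y : Om k), h1⟩ : fld k U) := by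
    have h4 : IsIntegral ℤ (algebraMap (fld k U) (Om k) ⟨(y : Om k), h1⟩) := y.2
    exact (isIntegral_algebraMap_iff (algebraMap (fld k U) (Om k)).injective).1 h4
  exact ⟨⟨⟨(y : Om k), h1⟩, h3⟩, RingOfIntegers.coe_injective rfl⟩

/-- the kernel of a locally constant homomorphism is open -/
theorem ta_open {G : Type} [Group G] (ρ : Gm k →* G) (hρ : IsLocallyConstant ρ) :
    IsOpen (ρ.ker : Set (Gm k)) := by
  have h : (ρ.ker : Set (Gm k)) = ρ ⁻¹' {1} := by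
    ext σ
    exact MonoidHom.mem_ker
  rw [h]
  exact hρ.isOpen_fiber 1

/-- the data at the layer cut out by the kernel -/
theorem ta_key (hT : SGenT) (hq : SIq) (P : HeightOneSpectrum (𝓞 k)) (U : Subgroup (Gm k))
    [hUn : U.Normal] (hU : IsOpen (U : Set (Gm k))) (hcop : Nat.Coprime U.index (nrm P)) :
    (∃ τ ∈ Ine P, ∀ σ ∈ Ine P, ∃ i : ℕ, σ⁻¹ * τ ^ i ∈ U) ∧
      ∀ φ, IsFr P φ → ∀ τ ∈ Ine P, (φ * τ * φ⁻¹)⁻¹ * τ ^ nrm P ∈ U := by
  have hfin : Module.finrank k (fld k U) = U.index := fldK_finrank U hU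
  have hFD : FiniteDimensional k (fld k U) := fldK_finite U hU
  have hNU : NumberField (fld k U) := fldK_nf U hU
  have hGal : IsGalois k (fld k U) := fldK_galois U hU
  have hQp : (low P (fld k U)).IsPrime := low_prime P (fld k U)
  have hQc := low_comap P (fld k U)
  have hcop' : Nat.Coprime (Module.finrank k (fld k U)) (nrm P) := by
    rw [hfin]
    exact hcop
  obtain ⟨τ0, φ0, hz, hφ0, hφQ, hrel, -⟩ := hT k (fld k U) P hcop' (low P (fld k U)) hQc
  have hin0 : τ0 ∈ (low P (fld k U)).inertia (fld k U ≃ₐ[k] fld k U) := by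
    rw [← hz]
    exact Subgroup.mem_zpowers _
  obtain ⟨π, hπs, hπk, hπ⟩ := exists_resK U hU
  have hres : ∀ σ : Gm k, π σ = AlgEquiv.restrictNormal σ (fld k U) := by
    intro σ
    apply AlgEquiv.ext
    intro x
    apply Subtype.ext
    rw [hπ]
    exact (AlgEquiv.restrictNormal_commutes σ (fld k U) x).symm
  have hker : ∀ a b : Gm k, π a = π b → a⁻¹ * b ∈ U := by
    intro a b h
    rw [← hπk, MonoidHom.mem_ker, map_mul, map_inv, h, inv_mul_cancel]
  have hpow : ∀ g : fld k U ≃ₐ[k] fld k U,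
      g ∈ (low P (fld k U)).inertia (fld k U ≃ₐ[k] fld k U) → ∃ i : ℕ, g = τ0 ^ i := by
    intro g hg
    rw [← hz, ← mem_powers_iff_mem_zpowers] at hg
    obtain ⟨i, hi⟩ := hg
    exact ⟨i, hi.symm⟩
  have hine : ∀ σ ∈ Ine P, ∃ i : ℕ, π σ = τ0 ^ i := by
    intro σ hσ
    refine hpow _ fun x => ?_
    have h1 : σ • algebraMap (𝓞 (fld k U)) (𝓞 (Om k)) x -
        algebraMap (𝓞 (fld k U)) (𝓞 (Om k)) x ∈ top P := hσ _
    show π σ • x - x ∈ low P (fld k U)
    rw [tp_mem_low, map_sub, hres σ, tp_res]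
    exact h1
  constructor
  · obtain ⟨σ0, hσ0⟩ := hπs τ0
    obtain ⟨τ, hτ, hτ'⟩ := (hq k P U hUn hU).1 σ0 fun y hy => by
      obtain ⟨x, rfl⟩ := ta_low U y hy
      have h1 : π σ0 • x - x ∈ low P (fld k U) := by
        rw [hσ0]
        exact hin0 x
      rw [tp_mem_low, map_sub, hres σ0, tp_res] at h1
      exact h1
    have hτ0 : π τ = τ0 := by
      rw [← hπk, MonoidHom.mem_ker, map_mul, map_inv, hσ0] at hτ'
      exact inv_mul_eq_one.1 hτ'
    refine ⟨τ, hτ, fun σ hσ => ?_⟩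
    obtain ⟨i, hi⟩ := hine σ hσ
    refine ⟨i, hker _ _ ?_⟩
    rw [map_pow, hτ0, hi]
  · intro φ hφ τ hτ
    obtain ⟨i, hi⟩ := hine τ hτ
    have h1 : φ0⁻¹ * π φ ∈ (low P (fld k U)).inertia (fld k U ≃ₐ[k] fld k U) := by
      intro x
      show (φ0⁻¹ * π φ) • x - x ∈ low P (fld k U)
      have h2 : π φ • x - x ^ nrm P ∈ low P (fld k U) := by
        rw [tp_mem_low, map_sub, map_pow, hres φ, tp_res]
        exact hφ _
      have h3 : π φ • x - φ0 • x ∈ low P (fld k U) := by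
        have h4 := Ideal.sub_mem _ h2 (hφ0 x)
        have h5 : π φ • x - x ^ nrm P - (φ0 • x - x ^ nrm P) = π φ • x - φ0 • x := by ring
        rwa [h5] at h4
      rw [← hφQ, Ideal.mem_pointwise_smul_iff_inv_smul_mem, smul_sub, inv_smul_smul,
        ← mul_smul] at h3
      exact h3
    obtain ⟨j, hj⟩ := hpow _ h1
    have h6 : π φ = φ0 * τ0 ^ j := by
      rw [← hj, mul_inv_cancel_left]
    apply hker
    have h7 : φ0 * τ0 ^ i * φ0⁻¹ = (τ0 ^ i) ^ nrm P := by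
      rw [← conj_pow, hrel, ← pow_mul, ← pow_mul, mul_comm]
    rw [map_mul, map_mul, map_inv, map_pow, hi, h6, ← h7, mul_inv_rev]
    have h8 : τ0 ^ j * τ0 ^ i = τ0 ^ i * τ0 ^ j := by
      rw [← pow_add, add_comm, pow_add]
    calc φ0 * τ0 ^ j * τ0 ^ i * ((τ0 ^ j)⁻¹ * φ0⁻¹)
        = φ0 * (τ0 ^ j * τ0 ^ i) * (τ0 ^ j)⁻¹ * φ0⁻¹ := by simp only [mul_assoc]
      _ = φ0 * τ0 ^ i * φ0⁻¹ := by rw [h8, ← mul_assoc, mul_inv_cancel_right]

end

theorem sta (hT : SGenT) (_hI : SIf) (hq : SIq) : STa := by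
  intro k _ _ P G _ _ ρ hρ hcop
  have hU := ta_open ρ hρ
  have hidx : Nat.Coprime ρ.ker.index (nrm P) := by
    rw [Subgroup.index_ker]
    exact hcop.coprime_dvd_left (Subgroup.card_subgroup_dvd_card ρ.range)
  obtain ⟨⟨τ, hτ, h1⟩, h2⟩ := ta_key hT hq P ρ.ker hU hidx
  refine ⟨⟨τ, hτ, fun σ hσ => ?_⟩, fun φ hφ τ' hτ' => ?_⟩
  · obtain ⟨i, hi⟩ := h1 σ hσ
    refine ⟨i, ?_⟩
    rw [MonoidHom.mem_ker, map_mul, map_inv, map_pow] at hi
    exact inv_mul_eq_one.1 hi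
  · have h3 := h2 φ hφ τ' hτ'
    rw [MonoidHom.mem_ker, map_mul, map_inv, map_pow] at h3
    exact inv_mul_eq_one.1 h3

end Pool.Agent.H38.SR
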