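import Pool.Agent.H38.SR.Stm

/-!
# Scholz-Reichardt (MP_a3214d, T4, block S), row W1: extension of characters by transfer
-/

set_option autoImplicit false

open scoped BigOperators Pointwise Topology
open Filter

namespace Pool.Agent.H38.SR

theorem str : STr := by
  intro Γ _ _ _ l _ N D hN hidx hl hND h h₀ hlc hadd hadd₀ hag
  classical
  have hfi : N.FiniteIndex := ⟨hidx⟩
  have hfin : Finite (Γ ⧸ N) := inferInstance
  let hft : Fintype (Γ ⧸ N) := Fintype.ofFinite _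
  have hex : ∀ i : Γ ⧸ N, ∃ t ∈ D, ((t : Γ) : Γ ⧸ N) = i := by
    intro i
    obtain ⟨g, rfl⟩ := QuotientGroup.mk_surjective i
    obtain ⟨n, hn, d, hd, hg⟩ := hND g⁻¹
    refine ⟨d⁻¹, D.inv_mem hd, ?_⟩
    rw [QuotientGroup.eq]
    have h1 : d⁻¹⁻¹ * g = n⁻¹ := by
      have h2 : g = (n * d)⁻¹ := by rw [← hg, inv_inv]
      rw [h2]
      group
    rw [h1]
    exact N.inv_mem hn
  choose t htD ht using hex
  have hm : ∀ g i, (t (g • i))⁻¹ * g * t i ∈ N := by
    intro g i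
    have h1 : ((g * t i : Γ) : Γ ⧸ N) = g • i := by
      conv_rhs => rw [← ht i]
      rfl
    have h2 : ((t (g • i) : Γ) : Γ ⧸ N) = ((g * t i : Γ) : Γ ⧸ N) := by rw [ht, h1]
    have h3 := QuotientGroup.eq.1 h2
    rwa [← mul_assoc] at h3
  have h1 : h 1 = 0 := by
    have h2 := hadd 1 N.one_mem 1 N.one_mem
    rw [one_mul] at h2
    exact left_eq_add.1 h2
  have h₀1 : h₀ 1 = 0 := by
    have h2 := hadd₀ 1 D.one_mem 1 D.one_mem
    rw [one_mul] at h2
    exact left_eq_add.1 h2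
  have h₀i : ∀ x ∈ D, h₀ x⁻¹ = - h₀ x := by
    intro x hx
    have h2 := hadd₀ x⁻¹ (D.inv_mem hx) x hx
    rw [inv_mul_cancel, h₀1] at h2
    exact eq_neg_of_add_eq_zero_left h2.symm
  set V : Γ → ZMod l := fun g => ∑ i : Γ ⧸ N, h ((t (g • i))⁻¹ * g * t i) with hV
  have hVadd : ∀ g g', V (g * g') = V g + V g' := by
    intro g g'
    have e1 : ∀ i : Γ ⧸ N, h ((t ((g * g') • i))⁻¹ * (g * g') * t i) =
        h ((t (g • g' • i))⁻¹ * g * t (g' • i)) + h ((t (g' • i))⁻¹ * g' * t i) := by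
      intro i
      rw [← hadd _ (hm g (g' • i)) _ (hm g' i), mul_smul]
      congr 1
      group
    show ∑ i : Γ ⧸ N, h ((t ((g * g') • i))⁻¹ * (g * g') * t i) = _
    rw [Finset.sum_congr rfl fun i _ => e1 i, Finset.sum_add_distrib]
    congr 1
    exact Equiv.sum_comp (MulAction.toPerm g' : Equiv.Perm (Γ ⧸ N))
      fun i => h ((t (g • i))⁻¹ * g * t i)
  have hcard : Fintype.card (Γ ⧸ N) = N.index := by
    rw [← Nat.card_eq_fintype_card]
    rfl
  have hVD : ∀ g ∈ D, V g = (N.index : ZMod l) * h₀ g := by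
    intro g hg
    have e1 : ∀ i : Γ ⧸ N, h ((t (g • i))⁻¹ * g * t i) = h₀ g + (h₀ (t i) - h₀ (t (g • i))) := by
      intro i
      have e2 : (t (g • i))⁻¹ * g ∈ D := D.mul_mem (D.inv_mem (htD _)) hg
      rw [hag _ (hm g i) (D.mul_mem e2 (htD i)), hadd₀ _ e2 _ (htD i),
        hadd₀ _ (D.inv_mem (htD _)) _ hg, h₀i _ (htD _)]
      ring
    show ∑ i : Γ ⧸ N, h ((t (g • i))⁻¹ * g * t i) = _
    rw [Finset.sum_congr rfl fun i _ => e1 i, Finset.sum_add_distrib, Finset.sum_sub_distrib,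
      Finset.sum_const, Finset.card_univ, hcard, nsmul_eq_mul]
    have e3 : ∑ i : Γ ⧸ N, h₀ (t (g • i)) = ∑ i : Γ ⧸ N, h₀ (t i) :=
      Equiv.sum_comp (MulAction.toPerm g : Equiv.Perm (Γ ⧸ N)) fun i => h₀ (t i)
    rw [e3, sub_self, add_zero]
  have hV1 : ∀ᶠ g in 𝓝 (1 : Γ), V g = 0 := by
    have e1 : ∀ i : Γ ⧸ N, ∀ᶠ g in 𝓝 (1 : Γ), h ((t (g • i))⁻¹ * g * t i) = 0 := by
      intro i
      have hc : Filter.Tendsto (fun g : Γ => (t i)⁻¹ * g * t i) (𝓝 1) (𝓝 1) := by
        have h2 : Continuous fun g : Γ => (t i)⁻¹ * g * t i :=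
          (continuous_const.mul continuous_id).mul continuous_const
        have h3 := h2.tendsto 1
        simpa using h3
      have e2 : ∀ᶠ g in 𝓝 (1 : Γ), (t i)⁻¹ * g * t i ∈ (N : Set Γ) :=
        hc (hN.mem_nhds N.one_mem)
      have e3 : ∀ᶠ g in 𝓝 (1 : Γ), h ((t i)⁻¹ * g * t i) = 0 := by
        have h4 := (IsLocallyConstant.iff_eventually_eq h).1 hlc 1
        rw [h1] at h4
        exact hc.eventually h4
      filter_upwards [e2, e3] with g hg2 hg3
      have e4 : g • i = i := by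
        have e5 : ((t i : Γ) : Γ ⧸ N) = ((g * t i : Γ) : Γ ⧸ N) := by
          rw [QuotientGroup.eq, ← mul_assoc]
          exact hg2
        conv_lhs => rw [← ht i]
        show ((g * t i : Γ) : Γ ⧸ N) = i
        rw [← e5, ht]
      rw [e4]
      exact hg3
    filter_upwards [Filter.eventually_all.2 e1] with g hg
    exact Finset.sum_eq_zero fun i _ => hg i
  have hVlc : IsLocallyConstant V := by
    rw [IsLocallyConstant.iff_eventually_eq]
    intro x
    have h2 : Filter.Tendsto (fun y : Γ => x⁻¹ * y) (𝓝 x) (𝓝 1) := by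
      have h3 : Continuous fun y : Γ => x⁻¹ * y := continuous_const.mul continuous_id
      have h4 := h3.tendsto x
      simpa using h4
    filter_upwards [h2.eventually hV1] with y hy
    have h5 := hVadd x (x⁻¹ * y)
    rw [mul_inv_cancel_left, hy, add_zero] at h5
    exact h5
  have hne : (N.index : ZMod l) ≠ 0 := by
    intro h2
    exact hl ((ZMod.natCast_eq_zero_iff _ _).1 h2)
  refine ⟨fun g => (N.index : ZMod l)⁻¹ * V g, ⟨?_, ?_⟩, ?_⟩
  · exact hVlc.comp fun v => (N.index : ZMod l)⁻¹ * v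
  · intro g g'
    show (N.index : ZMod l)⁻¹ * V (g * g') = _
    rw [hVadd, mul_add]
  · intro g hg
    show (N.index : ZMod l)⁻¹ * V g = _
    rw [hVD g hg, inv_mul_cancel_left₀ hne]

end Pool.Agent.H38.SR
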