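import Pool.Agent.H38.SR.Stm
import Pool.Agent.H98.MF.L.Top

/-!
# Scholz-Reichardt (MP_a3214d, T4, block S), row R7: total ramification in the cyclotomic field
-/

set_option autoImplicit false

open scoped BigOperators Pointwise
open NumberField IsDedekindDomain

namespace Pool.Agent.H38.SR

open Pool.Agent.H98.MF (Om Gm ord Dec top nrm top_prime)

section

variable (k : Type) [Field k] [NumberField k]

omit [NumberField k] in
theorem tt_int : Algebra.IsIntegral k (Om k) := inferInstance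

omit [NumberField k] in
theorem tt_open (ζ : Om k) : IsOpen (MulAction.stabilizer (Gm k) ζ : Set (Gm k)) :=
  stabilizer_isOpen_of_isIntegral ζ

/-- integers fixed by the stabilizer of `ζ` lie in the field of `ζ` -/
theorem tt_fix (ζ : Om k) (x : 𝓞 (Om k))
    (hx : ∀ u ∈ MulAction.stabilizer (Gm k) ζ, u • x = x) :
    (x : Om k) ∈ IntermediateField.adjoin k {ζ} := by
  rw [← InfiniteGalois.fixedField_fixingSubgroup (IntermediateField.adjoin k {ζ}),
    IntermediateField.mem_fixedField_iff]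
  intro u hu
  have h1 : u ∈ MulAction.stabilizer (Gm k) ζ := by
    rw [MulAction.mem_stabilizer_iff]
    exact (IntermediateField.mem_fixingSubgroup_iff _ u).1 hu ζ
      (IntermediateField.mem_adjoin_simple_self k ζ)
  have h2 := hx u h1
  have h3 : ((u • x : 𝓞 (Om k)) : Om k) = x := by rw [h2]
  exact h3

end

/-- the integers of the cyclotomic field of prime conductor -/
theorem tt_adj (Ω : Type) [Field Ω] [CharZero Ω] (inst : Algebra ℚ Ω)
    (hai : Algebra.IsIntegral ℚ Ω) (p : ℕ) (hp : p.Prime) (ζ : Ω) (hζ : IsPrimitiveRoot ζ p)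
    (x : Ω) (hx : IsIntegral ℤ x) (hK : x ∈ IntermediateField.adjoin ℚ {ζ}) :
    x ∈ Algebra.adjoin ℤ ({ζ} : Set Ω) := by
  obtain rfl : inst = DivisionRing.toRatAlgebra := Subsingleton.elim _ _
  have : Fact p.Prime := ⟨hp⟩
  have : NeZero p := ⟨hp.ne_zero⟩
  set K : IntermediateField ℚ Ω := IntermediateField.adjoin ℚ {ζ} with hKd
  have hcyc : IsCyclotomicExtension {p} ℚ K :=
    IsPrimitiveRoot.intermediateField_adjoin_isCyclotomicExtension ℚ hζ
  set g : K := IntermediateField.AdjoinSimple.gen ℚ ζ with hg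
  have hgv : algebraMap K Ω g = ζ := IntermediateField.AdjoinSimple.algebraMap_gen ℚ ζ
  have hgp : IsPrimitiveRoot g p := by
    refine IsPrimitiveRoot.of_map_of_injective (f := algebraMap K Ω) ?_
      (algebraMap K Ω).injective
    rw [hgv]
    exact hζ
  have hic := IsCyclotomicExtension.Rat.isIntegralClosure_adjoin_singleton_of_prime hgp
  have hyi : IsIntegral ℤ (⟨x, hK⟩ : K) := by
    have h1 : IsIntegral ℤ (algebraMap K Ω (⟨x, hK⟩ : K)) := hx
    exact (isIntegral_algebraMap_iff (algebraMap K Ω).injective).1 h1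
  obtain ⟨w, hw⟩ := (hic.isIntegral_iff).1 hyi
  have key : ∀ v ∈ Algebra.adjoin ℤ ({g} : Set K),
      algebraMap K Ω v ∈ Algebra.adjoin ℤ ({ζ} : Set Ω) := by
    intro v hv
    induction hv using Algebra.adjoin_induction with
    | mem a ha =>
      rw [Set.mem_singleton_iff] at ha
      rw [ha, hgv]
      exact Algebra.self_mem_adjoin_singleton ℤ ζ
    | algebraMap n =>
      rw [← IsScalarTower.algebraMap_apply ℤ K Ω]
      exact Subalgebra.algebraMap_mem _ n
    | add a b _ _ ha hb =>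
      rw [map_add]
      exact Subalgebra.add_mem _ ha hb
    | mul a b _ _ ha hb =>
      rw [map_mul]
      exact Subalgebra.mul_mem _ ha hb
  have h2 : (w : K) = ⟨x, hK⟩ := hw
  have h3 := key w w.2
  rw [h2] at h3
  exact h3

section

variable (P : HeightOneSpectrum (𝓞 ℚ))

/-- roots of unity of order `p` are congruent to one -/
theorem tt_one (hp : (nrm P).Prime) (hm : ((nrm P : ℕ) : 𝓞 (Om ℚ)) ∈ top P) (z : 𝓞 (Om ℚ))
    (hz : z ^ nrm P = 1) : z - 1 ∈ top P := by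
  have := top_prime P
  have : Fact (nrm P).Prime := ⟨hp⟩
  have h0 : ((nrm P : ℕ) : 𝓞 (Om ℚ) ⧸ top P) = 0 := by
    have h1 := Ideal.Quotient.eq_zero_iff_mem.2 hm
    rw [map_natCast] at h1
    exact h1
  have : CharP (𝓞 (Om ℚ) ⧸ top P) (nrm P) := (CharP.charP_iff_prime_eq_zero hp).2 h0
  have h2 : (Ideal.Quotient.mk (top P) z - 1) ^ nrm P = 0 := by
    rw [sub_pow_char, one_pow, ← map_pow, hz, map_one, sub_self]
  have h3 := pow_eq_zero_iff hp.ne_zero |>.1 h2
  rw [← Ideal.Quotient.eq_zero_iff_mem, map_sub, map_one]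
  exact h3

/-- the elements congruent to their conjugates -/
def ttS : Subalgebra ℤ (𝓞 (Om ℚ)) where
  carrier := {w | ∀ σ : Gm ℚ, σ • w - w ∈ top P}
  mul_mem' := by
    intro a b ha hb σ
    have e : σ • (a * b) - a * b = (σ • a) * (σ • b - b) + (σ • a - a) * b := by
      rw [smul_mul']
      ring
    rw [e]
    exact (top P).add_mem (Ideal.mul_mem_left _ _ (hb σ)) (Ideal.mul_mem_right _ _ (ha σ))
  add_mem' := by
    intro a b ha hb σ
    have e : σ • (a + b) - (a + b) = (σ • a - a) + (σ • b - b) := by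
      rw [smul_add]
      ring
    rw [e]
    exact (top P).add_mem (ha σ) (hb σ)
  algebraMap_mem' := by
    intro n σ
    have e : σ • (algebraMap ℤ (𝓞 (Om ℚ)) n) = algebraMap ℤ (𝓞 (Om ℚ)) n := by
      have h1 : algebraMap ℤ (𝓞 (Om ℚ)) n = n • (1 : 𝓞 (Om ℚ)) := by
        rw [Algebra.algebraMap_eq_smul_one]
      rw [h1, smul_comm, smul_one]
    rw [e, sub_self]
    exact (top P).zero_mem

theorem mem_ttS {w : 𝓞 (Om ℚ)} : w ∈ ttS P ↔ ∀ σ : Gm ℚ, σ • w - w ∈ top P := Iff.rfl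

/-- the integers of the cyclotomic field are congruent to their conjugates -/
theorem tt_mem (hp : (nrm P).Prime) (hm : ((nrm P : ℕ) : 𝓞 (Om ℚ)) ∈ top P) (ζ : Om ℚ)
    (hζ : IsPrimitiveRoot ζ (nrm P)) (x : 𝓞 (Om ℚ))
    (hx : ∀ u ∈ MulAction.stabilizer (Gm ℚ) ζ, u • x = x) : x ∈ ttS P := by
  set z : 𝓞 (Om ℚ) := ⟨ζ, hζ.isIntegral hp.pos⟩ with hz
  have hzp : z ^ nrm P = 1 := by
    apply RingOfIntegers.coe_injective
    exact hζ.pow_eq_one
  have hzS : z ∈ ttS P := by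
    intro σ
    have h1 : (σ • z) ^ nrm P = 1 := by rw [← smul_pow', hzp, smul_one]
    have e : σ • z - z = (σ • z - 1) - (z - 1) := by ring
    rw [e]
    exact (top P).sub_mem (tt_one P hp hm _ h1) (tt_one P hp hm _ hzp)
  have hxa : (x : Om ℚ) ∈ Algebra.adjoin ℤ ({ζ} : Set (Om ℚ)) :=
    tt_adj (Om ℚ) _ (tt_int ℚ) (nrm P) hp ζ hζ x x.2 (tt_fix ℚ ζ x hx)
  have key : ∀ v ∈ Algebra.adjoin ℤ ({ζ} : Set (Om ℚ)), ∃ s ∈ ttS P, (s : Om ℚ) = v := by
    intro v hv
    induction hv using Algebra.adjoin_induction with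
    | mem a ha =>
      rw [Set.mem_singleton_iff] at ha
      exact ⟨z, hzS, ha.symm⟩
    | algebraMap n =>
      exact ⟨algebraMap ℤ (𝓞 (Om ℚ)) n, (ttS P).algebraMap_mem n,
        (IsScalarTower.algebraMap_apply ℤ (𝓞 (Om ℚ)) (Om ℚ) n).symm⟩
    | add a b _ _ ha hb =>
      obtain ⟨s, hs, es⟩ := ha
      obtain ⟨t, ht, et⟩ := hb
      refine ⟨s + t, (ttS P).add_mem hs ht, ?_⟩
      rw [← es, ← et]
      exact map_add (algebraMap (𝓞 (Om ℚ)) (Om ℚ)) s t
    | mul a b _ _ ha hb =>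
      obtain ⟨s, hs, es⟩ := ha
      obtain ⟨t, ht, et⟩ := hb
      refine ⟨s * t, (ttS P).mul_mem hs ht, ?_⟩
      rw [← es, ← et]
      exact map_mul (algebraMap (𝓞 (Om ℚ)) (Om ℚ)) s t
  obtain ⟨s, hs, es⟩ := key x hxa
  have e : s = x := RingOfIntegers.coe_injective es
  rw [← e]
  exact hs

end

/-- R7: total ramification in the cyclotomic field -/
theorem stt (hq : SIq) (h6 : SPq) : STt := by
  intro P ζ hζ σ
  have hp : (nrm P).Prime := h6.1 P
  have : NeZero (nrm P) := ⟨hp.ne_zero⟩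
  have hm : ((nrm P : ℕ) : 𝓞 (Om ℚ)) ∈ top P := (h6.2.2.2 P P).2 rfl
  set U : Subgroup (Gm ℚ) := MulAction.stabilizer (Gm ℚ) ζ with hU
  have hN : U.Normal := by
    constructor
    intro u hu g
    rw [hU, MulAction.mem_stabilizer_iff] at hu ⊢
    have h1 : (g⁻¹ ζ) ^ nrm P = 1 := by
      rw [← map_pow, hζ.pow_eq_one, map_one]
    obtain ⟨i, -, hi⟩ := hζ.eq_pow_of_pow_eq_one h1
    have hu' : u ζ = ζ := hu
    show (g * u * g⁻¹) ζ = ζ
    rw [AlgEquiv.mul_apply, AlgEquiv.mul_apply, ← hi, map_pow, hu', hi, ← AlgEquiv.mul_apply,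
      mul_inv_cancel]
    rfl
  have hO : IsOpen (U : Set (Gm ℚ)) := tt_open ℚ ζ
  obtain ⟨τ, hτ, h2⟩ := (hq ℚ P U hN hO).1 σ fun x hx => tt_mem P hp hm ζ hζ x hx σ
  refine ⟨τ, hτ, ?_⟩
  rw [hU, MulAction.mem_stabilizer_iff] at h2
  have h3 : (τ⁻¹ * σ) ζ = ζ := h2
  have h4 : τ ((τ⁻¹ * σ) ζ) = σ ζ := by
    rw [← AlgEquiv.mul_apply, mul_inv_cancel_left]
  rw [← h4, h3]

end Pool.Agent.H38.SR
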