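import Pool.Agent.H38.SR.Stm
import Mathlib.RingTheory.RootsOfUnity.AlgebraicallyClosed

/-!
# Scholz-Reichardt, row R8: the unramified character of a decomposition group
-/

set_option autoImplicit false

open scoped BigOperators Pointwise
open NumberField IsDedekindDomain Filter Topology

namespace Pool.Agent.H38.SR

open Pool.Agent.H98.MF (Om Gm ord Dec top nrm)

section

variable {k : Type} [Field k] [NumberField k]

/-- evaluation is locally constant -/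
private theorem ur_ev (x : Om k) : IsLocallyConstant (fun σ : Gm k => σ x) := by
  rw [IsLocallyConstant.iff_eventually_eq]
  intro σ
  have hint : IsIntegral k x := Algebra.IsIntegral.isIntegral _
  have hfin : FiniteDimensional k (IntermediateField.adjoin k ({x} : Set (Om k))) :=
    IntermediateField.adjoin.finiteDimensional hint
  have hopen : IsOpen ((IntermediateField.adjoin k ({x} : Set (Om k))).fixingSubgroup :
      Set (Gm k)) := IntermediateField.fixingSubgroup_isOpen _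
  have h1 : IsOpen ((fun τ : Gm k => σ⁻¹ * τ) ⁻¹'
      ((IntermediateField.adjoin k ({x} : Set (Om k))).fixingSubgroup : Set (Gm k))) :=
    hopen.preimage (continuous_const.mul continuous_id)
  have h2 : σ ∈ (fun τ : Gm k => σ⁻¹ * τ) ⁻¹'
      ((IntermediateField.adjoin k ({x} : Set (Om k))).fixingSubgroup : Set (Gm k)) := by
    rw [Set.mem_preimage, inv_mul_cancel]
    exact one_mem _
  filter_upwards [h1.mem_nhds h2] with τ hτ
  have h3 : (σ⁻¹ * τ) x = x := by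
    have h4 : σ⁻¹ * τ ∈ (IntermediateField.adjoin k ({x} : Set (Om k))).fixingSubgroup := hτ
    rw [IntermediateField.mem_fixingSubgroup_iff] at h4
    exact h4 _ (IntermediateField.mem_adjoin_simple_self k x)
  have h6 : τ = σ * (σ⁻¹ * τ) := by rw [mul_inv_cancel_left]
  rw [h6, AlgEquiv.mul_apply, h3]

private theorem ur_nrm (P : HeightOneSpectrum (𝓞 k)) : 2 ≤ nrm P := by
  have h1 : nrm P ≠ 0 := by
    unfold Pool.Agent.H98.MF.nrm
    rw [Ne, Ideal.absNorm_eq_zero_iff]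
    exact P.ne_bot
  have h2 : nrm P ≠ 1 := by
    unfold Pool.Agent.H98.MF.nrm
    rw [Ne, Ideal.absNorm_eq_one_iff]
    exact P.isPrime.ne_top
  omega

/-- the stabilizer of a root of unity -/
private def ur_U {M : ℕ} (hM : M ≠ 0) {ζ : Om k} (hζ : IsPrimitiveRoot ζ M) :
    Subgroup (Gm k) where
  carrier := {σ | σ ζ = ζ}
  mul_mem' := by
    intro σ τ hσ hτ
    have hσ' : σ ζ = ζ := hσ
    have hτ' : τ ζ = ζ := hτ
    show (σ * τ) ζ = ζ
    rw [AlgEquiv.mul_apply, hτ', hσ']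
  one_mem' := rfl
  inv_mem' := by
    intro σ hσ
    have hσ' : σ ζ = ζ := hσ
    show σ⁻¹ ζ = ζ
    have h : (σ⁻¹ * σ) ζ = ζ := by rw [inv_mul_cancel]; rfl
    rw [AlgEquiv.mul_apply, hσ'] at h
    exact h

private theorem ur_U_normal {M : ℕ} (hM : M ≠ 0) {ζ : Om k} (hζ : IsPrimitiveRoot ζ M) :
    (ur_U hM hζ).Normal := by
  refine ⟨fun σ hσ g => ?_⟩
  have hσ' : σ ζ = ζ := hσ
  show (g * σ * g⁻¹) ζ = ζ
  haveI : NeZero M := ⟨hM⟩
  have h1 : (g⁻¹ ζ) ^ M = 1 := by rw [← map_pow, hζ.pow_eq_one, map_one]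
  obtain ⟨i, -, hi⟩ := hζ.eq_pow_of_pow_eq_one h1
  rw [AlgEquiv.mul_apply, AlgEquiv.mul_apply, ← hi, map_pow, hσ', hi, ← AlgEquiv.mul_apply,
    mul_inv_cancel]
  rfl

private theorem ur_U_open {M : ℕ} (hM : M ≠ 0) {ζ : Om k} (hζ : IsPrimitiveRoot ζ M) :
    IsOpen (ur_U hM hζ : Set (Gm k)) :=
  (ur_ev ζ).isOpen_fiber ζ

end

private theorem ur_exp {q m : ℕ} (hq : 2 ≤ q) (hm : 1 ≤ m) {i j : ℕ}
    (h : q ^ i ≡ q ^ j [MOD (q ^ m - 1)]) : i ≡ j [MOD m] := by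
  rcases Nat.eq_or_lt_of_le hm with h1 | h1
  · rw [← h1]
    exact Nat.modEq_one
  have hqm : 1 ≤ q ^ m := Nat.one_le_pow _ _ (by omega)
  have h2 : q ^ m ≡ 1 [MOD (q ^ m - 1)] := by
    have e : q ^ m = (q ^ m - 1) + 1 := by omega
    conv_lhs => rw [e]
    exact Nat.add_modEq_left
  have h3 : ∀ i, q ^ i ≡ q ^ (i % m) [MOD (q ^ m - 1)] := fun i => by
    conv_lhs => rw [← Nat.div_add_mod i m, pow_add, pow_mul]
    have h4 := (h2.pow (i / m)).mul_right (q ^ (i % m))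
    rw [one_pow, one_mul] at h4
    exact h4
  have h5 : ∀ i, q ^ (i % m) < q ^ m - 1 := fun i => by
    have h6 : i % m < m := Nat.mod_lt _ (by omega)
    have h7 : q ^ (i % m) ≤ q ^ (m - 1) := Nat.pow_le_pow_right (by omega) (by omega)
    have h8 : q ^ m = q * q ^ (m - 1) := by
      rw [← pow_succ', Nat.sub_add_cancel hm]
    have h9 : 2 ≤ q ^ (m - 1) := by
      calc 2 ≤ q := hq
        _ = q ^ 1 := (pow_one q).symm
        _ ≤ q ^ (m - 1) := Nat.pow_le_pow_right (by omega) (by omega)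
    have h10 : 2 * q ^ (m - 1) ≤ q * q ^ (m - 1) := Nat.mul_le_mul_right _ hq
    omega
  have h6 : q ^ (i % m) ≡ q ^ (j % m) [MOD (q ^ m - 1)] := (h3 i).symm.trans (h.trans (h3 j))
  have h7 := h6.eq_of_lt_of_lt (h5 i) (h5 j)
  exact Nat.pow_right_injective hq h7

/-- **R8.** -/
theorem sur (hI : SIf) (hq : SIq) (hr : SRu) : SUr := by
  classical
  intro k _ _ P m _
  set q := nrm P with hqdef
  have hq2 : 2 ≤ q := ur_nrm P
  have hm : 1 ≤ m := Nat.one_le_iff_ne_zero.2 (NeZero.ne m)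
  have hqm : 2 ≤ q ^ m := by
    calc 2 ≤ q := hq2
      _ = q ^ 1 := (pow_one q).symm
      _ ≤ q ^ m := Nat.pow_le_pow_right (by omega) hm
  have hM : q ^ m - 1 ≠ 0 := by omega
  haveI : NeZero (q ^ m - 1) := ⟨hM⟩
  haveI : NeZero (((q ^ m - 1 : ℕ)) : k) := NeZero.charZero
  obtain ⟨ζ, hζ⟩ := HasEnoughRootsOfUnity.exists_primitiveRoot (Om k) (q ^ m - 1)
  have hcop : Nat.Coprime (q ^ m - 1) q := by
    have h1 : Nat.Coprime (q ^ m - 1) (q ^ m) := by
      have e : q ^ m = (q ^ m - 1) + 1 := by omega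
      conv_rhs => rw [e]
      exact (Nat.coprime_self_add_right).2 (Nat.coprime_one_right _)
    exact Nat.Coprime.coprime_dvd_right (dvd_pow_self q (by omega)) h1
  obtain ⟨hr1, hr2⟩ := hr k P (q ^ m - 1) ζ hζ.pow_eq_one hcop
  obtain ⟨-, ⟨φ0, hφ0⟩, hφd, -⟩ := hI k P
  -- Frobenius powers
  have hφn : ∀ n : ℕ, (φ0 ^ n) ζ = ζ ^ q ^ n := by
    intro n
    induction n with
    | zero => rw [pow_zero, pow_zero, pow_one]; rfl
    | succ n ih =>
      rw [pow_succ', AlgEquiv.mul_apply, ih, map_pow, hr2 φ0 hφ0, ← pow_mul, ← pow_succ']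
  have hex : ∀ σ ∈ Dec P, ∃ i : ℕ, σ ζ = ζ ^ q ^ i := by
    intro σ hσ
    obtain ⟨n, τ, hτ, hu⟩ := (hq k P (ur_U hM hζ) (ur_U_normal hM hζ) (ur_U_open hM hζ)).2
      φ0 hφ0 σ hσ
    have hu' : ((φ0 ^ n * τ)⁻¹ * σ) ζ = ζ := hu
    refine ⟨n, ?_⟩
    have e : σ = (φ0 ^ n * τ) * ((φ0 ^ n * τ)⁻¹ * σ) := by rw [mul_inv_cancel_left]
    rw [e, AlgEquiv.mul_apply, hu', AlgEquiv.mul_apply, hr1 τ hτ, hφn]
  -- uniqueness
  have hun : ∀ i j : ℕ, ζ ^ q ^ i = ζ ^ q ^ j → ((i : ℕ) : ZMod m) = j := by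
    intro i j h
    rw [(hζ.isOfFinOrder hM).pow_inj_mod, ← hζ.eq_orderOf] at h
    exact (ZMod.natCast_eq_natCast_iff _ _ _).2 (ur_exp hq2 hm h)
  let F : Om k → ZMod m := fun x => if h : ∃ i : ℕ, x = ζ ^ q ^ i then ((h.choose : ℕ) : ZMod m)
    else 0
  have hF : ∀ (x : Om k) (i : ℕ), x = ζ ^ q ^ i → F x = i := by
    intro x i hx
    have h : ∃ i : ℕ, x = ζ ^ q ^ i := ⟨i, hx⟩
    show (if h : ∃ i : ℕ, x = ζ ^ q ^ i then ((h.choose : ℕ) : ZMod m) else 0) = i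
    rw [dif_pos h]
    exact hun _ _ (h.choose_spec.symm.trans hx)
  refine ⟨fun σ => F (σ ζ), (ur_ev ζ).comp F, ?_, ?_, ?_⟩
  · intro σ hσ τ hτ
    obtain ⟨i, hi⟩ := hex σ hσ
    obtain ⟨j, hj⟩ := hex τ hτ
    have hij : (σ * τ) ζ = ζ ^ q ^ (i + j) := by
      rw [AlgEquiv.mul_apply, hj, map_pow, hi, ← pow_mul, ← pow_add]
    show F ((σ * τ) ζ) = F (σ ζ) + F (τ ζ)
    rw [hF _ _ hij, hF _ _ hi, hF _ _ hj, Nat.cast_add]
  · intro τ hτ
    show F (τ ζ) = 0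
    rw [hF _ 0 (by rw [hr1 τ hτ, pow_zero, pow_one]), Nat.cast_zero]
  · intro φ hφ
    show F (φ ζ) = 1
    rw [hF _ 1 (by rw [hr2 φ hφ, pow_one]), Nat.cast_one]

end Pool.Agent.H38.SR
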