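import Pool.Agent.H38.SR.Stm
import Pool.Agent.H92.EL.BLCy

/-!
# Scholz-Reichardt (MP_a3214d, T4, block S), row H6a: identifications of the closures
-/

set_option autoImplicit false

open scoped BigOperators Pointwise Topology
open NumberField IsDedekindDomain Filter

namespace Pool.Agent.H38.SR

open Pool.Agent.H98.MF (Om Gm)

section

variable {F : Type} [Field F] [NumberField F]

omit [NumberField F] in
private lemma xt1_adj {S : Set (Om F)} {u : Gm F} (h : ∀ s ∈ S, u s = s) {z : Om F}
    (hz : z ∈ IntermediateField.adjoin F S) : u z = z := by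
  induction hz using IntermediateField.adjoin_induction with
  | mem x hx => exact h x hx
  | algebraMap x => exact u.commutes x
  | add x y _ _ hx hy => rw [map_add, hx, hy]
  | mul x y _ _ hx hy => rw [map_mul, hx, hy]
  | inv x _ hx => rw [map_inv₀, hx]

/-- the stabiliser of finitely many elements is open -/
private lemma xt1_open (S : Finset (Om F)) : IsOpen {u : Gm F | ∀ s ∈ S, u s = s} := by
  have h1 : {u : Gm F | ∀ s ∈ S, u s = s} =
      ⋂ s ∈ S, (MulAction.stabilizer (Gm F) s : Set (Gm F)) := by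
    ext u
    simp only [Set.mem_setOf_eq, Set.mem_iInter, SetLike.mem_coe, MulAction.mem_stabilizer_iff]
    exact Iff.rfl
  rw [h1]
  exact isOpen_biInter_finset fun s _ => stabilizer_isOpen_of_isIntegral s

/-- a neighbourhood of the identity contains such a stabiliser -/
private lemma xt1_nhds {T : Set (Gm F)} (hT : T ∈ 𝓝 (1 : Gm F)) :
    ∃ S : Finset (Om F), {u : Gm F | ∀ s ∈ S, u s = s} ⊆ T := by
  obtain ⟨E, hE, hET⟩ := (krullTopology_mem_nhds_one_iff F (Om F) T).1 hT
  obtain ⟨S, hS⟩ := E.fg_of_fg_toSubalgebra (Subalgebra.fg_of_fg_toSubmodule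
    (Module.Finite.iff_fg.1 hE))
  refine ⟨S, fun u hu => hET ?_⟩
  show u ∈ E.fixingSubgroup
  rw [IntermediateField.mem_fixingSubgroup_iff]
  intro x hx
  rw [← hS] at hx
  exact xt1_adj hu hx

end

section

variable {K L : Type} [Field K] [NumberField K] [Field L] [NumberField L] [Algebra K L]

/-- the embedding of the Galois groups -/
private noncomputable def xt1_Th (j : Om L ≃+* Om K)
    (hj : ∀ x : K, j (algebraMap L (Om L) (algebraMap K L x)) = algebraMap K (Om K) x) :
    Gm L →* Gm K where
  toFun σ := AlgEquiv.ofRingEquiv (f := (j.symm.trans (σ : Om L ≃+* Om L)).trans j) (by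
    intro x
    have h : j.symm (algebraMap K (Om K) x) = algebraMap L (Om L) (algebraMap K L x) := by
      rw [← hj, RingEquiv.symm_apply_apply]
    simp only [RingEquiv.coe_trans, Function.comp_apply, h]
    have h2 : (σ : Om L ≃+* Om L) (algebraMap L (Om L) (algebraMap K L x)) =
        algebraMap L (Om L) (algebraMap K L x) := σ.commutes _
    rw [h2, hj])
  map_one' := by
    ext x
    simp
  map_mul' σ τ := by
    ext x
    simp

private theorem xt1_Th_ap (j : Om L ≃+* Om K)
    (hj : ∀ x : K, j (algebraMap L (Om L) (algebraMap K L x)) = algebraMap K (Om K) x)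
    (σ : Gm L) (x : Om L) : xt1_Th j hj σ (j x) = j (σ x) := by
  simp [xt1_Th]

private theorem xt1_inj (j : Om L ≃+* Om K)
    (hj : ∀ x : K, j (algebraMap L (Om L) (algebraMap K L x)) = algebraMap K (Om K) x) :
    Function.Injective (xt1_Th j hj) := by
  intro σ τ h
  refine AlgEquiv.ext fun x => j.injective ?_
  rw [← xt1_Th_ap j hj, ← xt1_Th_ap j hj, h]

private theorem xt1_cont (j : Om L ≃+* Om K)
    (hj : ∀ x : K, j (algebraMap L (Om L) (algebraMap K L x)) = algebraMap K (Om K) x) :
    Continuous (xt1_Th j hj) := by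
  apply continuous_of_continuousAt_one (xt1_Th j hj)
  rw [ContinuousAt, map_one]
  intro T hT
  obtain ⟨S, hS⟩ := xt1_nhds hT
  classical
  have h1 : {u : Gm L | ∀ s ∈ S.image j.symm, u s = s} ∈ 𝓝 (1 : Gm L) :=
    (xt1_open (S.image j.symm)).mem_nhds (fun s _ => rfl)
  rw [Filter.mem_map]
  refine Filter.mem_of_superset h1 ?_
  intro u hu
  apply hS
  intro s hs
  have h2 : u (j.symm s) = j.symm s := hu _ (Finset.mem_image_of_mem _ hs)
  have h3 : xt1_Th j hj u (j (j.symm s)) = j (u (j.symm s)) := xt1_Th_ap j hj _ _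
  rwa [h2, RingEquiv.apply_symm_apply] at h3

private theorem xt1_rng (j : Om L ≃+* Om K)
    (hj : ∀ x : K, j (algebraMap L (Om L) (algebraMap K L x)) = algebraMap K (Om K) x)
    (g : Gm K) : g ∈ (xt1_Th j hj).range ↔
      ∀ x : L, g (j (algebraMap L (Om L) x)) = j (algebraMap L (Om L) x) := by
  constructor
  · rintro ⟨σ, rfl⟩ x
    rw [xt1_Th_ap, σ.commutes]
  · intro h
    let σ : Gm L := AlgEquiv.ofRingEquiv
      (f := (j.trans (g : Om K ≃+* Om K)).trans j.symm) (fun c => by
        show j.symm (g (j (algebraMap L (Om L) c))) = algebraMap L (Om L) c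
        rw [h c, RingEquiv.symm_apply_apply])
    have hσ : ∀ x, σ x = j.symm (g (j x)) := fun x => rfl
    refine ⟨σ, AlgEquiv.ext fun y => ?_⟩
    obtain ⟨x, rfl⟩ := j.surjective y
    rw [xt1_Th_ap, hσ, RingEquiv.apply_symm_apply]

/-- the embedding of `L` as a homomorphism of algebras -/
private noncomputable def xt1_e (j : Om L ≃+* Om K)
    (hj : ∀ x : K, j (algebraMap L (Om L) (algebraMap K L x)) = algebraMap K (Om K) x) :
    L →ₐ[K] Om K where
  toFun := fun x => j (algebraMap L (Om L) x)
  map_one' := by rw [map_one, map_one]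
  map_mul' x y := by rw [map_mul, map_mul]
  map_zero' := by rw [map_zero, map_zero]
  map_add' x y := by rw [map_add, map_add]
  commutes' x := hj x

private theorem xt1_opn (j : Om L ≃+* Om K)
    (hj : ∀ x : K, j (algebraMap L (Om L) (algebraMap K L x)) = algebraMap K (Om K) x) :
    IsOpen ((xt1_Th j hj).range : Set (Gm K)) := by
  haveI : FiniteDimensional K L := Module.Finite.of_restrictScalars_finite ℚ K L
  haveI : FiniteDimensional K (xt1_e j hj).fieldRange :=
    LinearEquiv.finiteDimensional (AlgEquiv.ofInjectiveField (xt1_e j hj)).toLinearEquiv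
  have h1 : (xt1_e j hj).fieldRange.fixingSubgroup = (xt1_Th j hj).range := by
    ext g
    rw [IntermediateField.mem_fixingSubgroup_iff, xt1_rng]
    constructor
    · intro h x
      exact h _ ⟨x, rfl⟩
    · rintro h y ⟨x, rfl⟩
      exact h x
  rw [← h1]
  exact IntermediateField.fixingSubgroup_isOpen _

end

/-- Row H6a: identifications of the closures. -/
theorem sxt1 : SXt1 := by
  intro K L _ _ _ _ _
  obtain ⟨j, hj⟩ := Pool.Agent.H92.EL.blcy_equiv K L
  have hce : Topology.IsClosedEmbedding (xt1_Th j hj) :=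
    (xt1_cont j hj).isClosedEmbedding (xt1_inj j hj)
  refine ⟨⟨j, hj, xt1_Th j hj, xt1_Th_ap j hj, ⟨hce.isEmbedding, ?_⟩, xt1_rng j hj⟩⟩
  exact xt1_opn j hj

end Pool.Agent.H38.SR
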