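import Pool.Agent.H38.SR.Stm
import Pool.Agent.H98.MF.L.Top

/-!
# Scholz-Reichardt (MP_a3214d, T4, block S), row H6b: open subgroups are Galois groups of
extensions
-/

set_option autoImplicit false

open scoped BigOperators Pointwise Topology
open NumberField IsDedekindDomain Filter

namespace Pool.Agent.H38.SR

open Pool.Agent.H98.MF (Om Gm fld nf_of_fd)

section

variable {K : Type} [Field K] [NumberField K]

omit [NumberField K] in
/-- two embeddings of an extension differ by an automorphism -/
private lemma xt2_g {L : Type} [Field L] [Algebra K L] (i e : L →ₐ[K] Om K) :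
    ∃ g : Gm K, ∀ x : L, g (e x) = i x := by
  let χ : e.fieldRange ≃ₐ[K] i.fieldRange :=
    (AlgEquiv.ofInjectiveField e).symm.trans (AlgEquiv.ofInjectiveField i)
  refine ⟨χ.liftNormal (Om K), fun x => ?_⟩
  have h1 := AlgEquiv.liftNormal_commutes χ (Om K) (AlgEquiv.ofInjectiveField e x)
  have h2 : χ (AlgEquiv.ofInjectiveField e x) = AlgEquiv.ofInjectiveField i x := by
    show AlgEquiv.ofInjectiveField i ((AlgEquiv.ofInjectiveField e).symm
      (AlgEquiv.ofInjectiveField e x)) = _
    rw [AlgEquiv.symm_apply_apply]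
  rw [h2] at h1
  exact h1

/-- the embedding of `L` as a homomorphism of algebras -/
private noncomputable def xt2_e {L : Type} [Field L] [NumberField L] [Algebra K L]
    (X : Xt K L) : L →ₐ[K] Om K where
  toFun := fun x => X.j (algebraMap L (Om L) x)
  map_one' := by rw [map_one, map_one]
  map_mul' x y := by rw [map_mul, map_mul]
  map_zero' := by rw [map_zero, map_zero]
  map_add' x y := by rw [map_add, map_add]
  commutes' x := X.j_alg x

/-- conjugation of an identification -/
private theorem xt2_conj {L : Type} [Field L] [NumberField L] [Algebra K L] (X : Xt K L)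
    (g : Gm K) : ∃ Y : Xt K L, ∀ x : Om L, Y.j x = g (X.j x) := by
  have hap : ∀ (σ : Gm L) (x : Om L), (MulAut.conj g (X.Th σ)) (g (X.j x)) = g (X.j (σ x)) := by
    intro σ x
    show g (X.Th σ (g.symm (g (X.j x)))) = g (X.j (σ x))
    rw [AlgEquiv.symm_apply_apply, X.Th_ap]
  refine ⟨⟨X.j.trans (g : Om K ≃+* Om K), ?_, (MulAut.conj g).toMonoidHom.comp X.Th, ?_, ?_, ?_⟩,
    fun x => rfl⟩
  · intro x
    show g (X.j (algebraMap L (Om L) (algebraMap K L x))) = algebraMap K (Om K) x
    rw [X.j_alg, g.commutes]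
  · intro σ x
    exact hap σ x
  · have h1 : Topology.IsOpenEmbedding
        (((Homeomorph.mulLeft g).trans (Homeomorph.mulRight g⁻¹) : Gm K ≃ₜ Gm K) ∘ X.Th) :=
      (Homeomorph.isOpenEmbedding _).comp X.emb
    exact h1
  · intro s
    have h1 : s ∈ ((MulAut.conj g).toMonoidHom.comp X.Th).range ↔ g⁻¹ * s * g ∈ X.Th.range := by
      constructor
      · rintro ⟨σ, rfl⟩
        refine ⟨σ, ?_⟩
        show X.Th σ = g⁻¹ * (g * X.Th σ * g⁻¹) * g
        group
      · rintro ⟨σ, h⟩
        refine ⟨σ, ?_⟩
        show g * X.Th σ * g⁻¹ = s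
        rw [h]
        group
    rw [h1, X.rng]
    refine forall_congr' fun x => ?_
    show g.symm (s (g (X.j (algebraMap L (Om L) x)))) = X.j (algebraMap L (Om L) x) ↔
      s (g (X.j (algebraMap L (Om L) x))) = g (X.j (algebraMap L (Om L) x))
    exact AlgEquiv.symm_apply_eq _

end

/-- Row H6b: open subgroups are Galois groups of extensions. -/
theorem sxt2 (h1 : SXt1) : SXt2 := by
  intro K _ _ U hU
  have hfix : (fld K U).fixingSubgroup = U :=
    InfiniteGalois.fixingSubgroup_fixedField (⟨U, U.isClosed_of_isOpen hU⟩ : ClosedSubgroup (Gm K))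
  have hfd : FiniteDimensional K (fld K U) := by
    rw [← InfiniteGalois.isOpen_iff_finite, hfix]
    exact hU
  have hnf : NumberField (fld K U) := nf_of_fd _
  obtain ⟨X0⟩ := h1 K (fld K U)
  obtain ⟨g, hg⟩ := xt2_g (fld K U).val (xt2_e X0)
  obtain ⟨Y, hY⟩ := xt2_conj X0 g
  have hj : ∀ x : fld K U, Y.j (algebraMap (fld K U) (Om (fld K U)) x) = (x : Om K) := by
    intro x
    rw [hY]
    exact hg x
  refine ⟨fld K U, inferInstance, inferInstance, inferInstance, Y, ?_⟩
  ext s
  rw [Y.rng]
  conv_rhs => rw [← hfix, IntermediateField.mem_fixingSubgroup_iff]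
  constructor
  · intro h x hx
    have h2 := h ⟨x, hx⟩
    rwa [hj] at h2
  · intro h x
    rw [hj]
    exact h _ x.2

end Pool.Agent.H38.SR
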