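import Pool.Agent.H38.SR.Stm
import Pool.Agent.H98.MF.L.Top

/-!
# Scholz-Reichardt (MP_a3214d, T4, block S), row H6c: decomposition groups of an extension
-/

set_option autoImplicit false

open scoped BigOperators Pointwise
open NumberField IsDedekindDomain

namespace Pool.Agent.H38.SR

open Pool.Agent.H98.MF (Om Gm ord Dec top nrm top_prime top_comap tp_cont tp_integral)

/-- transitivity on the primes above a prime of the base -/
theorem x3_trans {k : Type} [Field k] [NumberField k] (T T' : Ideal (𝓞 (Om k))) (hT : T.IsPrime)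
    (hT' : T'.IsPrime) (h : T.comap (algebraMap (𝓞 k) (𝓞 (Om k)))
      = T'.comap (algebraMap (𝓞 k) (𝓞 (Om k)))) :
    ∃ τ : Gm k, T' = τ • T := by
  letI : TopologicalSpace (𝓞 (Om k)) := ⊥
  haveI : DiscreteTopology (𝓞 (Om k)) := ⟨rfl⟩
  haveI : ContinuousSMul (Gm k) (𝓞 (Om k)) := tp_cont k
  haveI : SMulCommClass (Gm k) (𝓞 k) (𝓞 (Om k)) := by
    constructor
    intro σ a b
    rw [Algebra.smul_def, Algebra.smul_def]
    apply RingOfIntegers.coe_injective
    show σ (algebraMap k (Om k) (a : k) * (b : Om k)) = algebraMap k (Om k) (a : k) * σ (b : Om k)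
    rw [map_mul, σ.commutes]
  haveI : Algebra.IsInvariant (𝓞 k) (𝓞 (Om k)) (Gm k) := by
    constructor
    intro b hb
    have h1 : (b : Om k) ∈ Set.range (algebraMap k (Om k)) := by
      rw [InfiniteGalois.mem_range_algebraMap_iff_fixed]
      intro σ
      have h2 : ((σ • b : 𝓞 (Om k)) : Om k) = b := by rw [hb σ]
      exact h2
    obtain ⟨a, ha⟩ := h1
    have h2 : IsIntegral ℤ a := by
      have h3 : IsIntegral ℤ (algebraMap k (Om k) a) := by rw [ha]; exact b.2
      exact (isIntegral_algebraMap_iff (algebraMap k (Om k)).injective).1 h3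
    refine ⟨⟨a, h2⟩, ?_⟩
    exact RingOfIntegers.coe_injective ha
  exact Algebra.IsInvariant.exists_smul_of_under_eq_of_profinite (A := 𝓞 k) T T' h

theorem x3_dec {k : Type} [Field k] [NumberField k] (P : HeightOneSpectrum (𝓞 k)) (σ : Gm k) :
    σ ∈ Dec P ↔ σ • top P = top P := Iff.rfl

theorem sxt3 : SXt3 := by
  intro K L _ _ _ _ _ X Q
  set jO : 𝓞 (Om L) ≃+* 𝓞 (Om K) := RingOfIntegers.mapRingEquiv X.j with hjO
  have hj : ∀ x : 𝓞 (Om L), ((jO x : 𝓞 (Om K)) : Om K) = X.j (x : Om L) := fun x => rfl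
  have hTh : ∀ (σ : Gm L) (x : 𝓞 (Om L)), jO (σ • x) = X.Th σ • jO x := by
    intro σ x
    apply RingOfIntegers.coe_injective
    show X.j (σ (x : Om L)) = X.Th σ (X.j (x : Om L))
    exact (X.Th_ap σ _).symm
  set T : Ideal (𝓞 (Om K)) := (top Q).comap (jO.symm : 𝓞 (Om K) →+* 𝓞 (Om L)) with hT
  haveI hQp := top_prime Q
  have hTp : T.IsPrime := Ideal.comap_isPrime _ _
  have hmem : ∀ x : 𝓞 (Om L), jO x ∈ T ↔ x ∈ top Q := by
    intro x
    rw [hT, Ideal.mem_comap]
    show jO.symm (jO x) ∈ top Q ↔ x ∈ top Q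
    rw [RingEquiv.symm_apply_apply]
  have hfix : ∀ σ : Gm L, σ • top Q = top Q ↔ X.Th σ • T = T := by
    intro σ
    have h1 : ∀ x : 𝓞 (Om L), x ∈ σ • top Q ↔ jO x ∈ X.Th σ • T := by
      intro x
      rw [Ideal.mem_pointwise_smul_iff_inv_smul_mem, Ideal.mem_pointwise_smul_iff_inv_smul_mem,
        ← map_inv, ← hTh, hmem]
    constructor
    · intro h
      ext y
      obtain ⟨x, rfl⟩ := jO.surjective y
      rw [← h1, h, hmem]
    · intro h
      ext x
      rw [h1, h, hmem]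
  obtain ⟨q, hq, hq0⟩ := Submodule.exists_mem_ne_zero_of_ne_bot Q.ne_bot
  have hq1 : jO (algebraMap (𝓞 L) (𝓞 (Om L)) q) ∈ T := by
    rw [hmem]
    have h2 : q ∈ (top Q).comap (algebraMap (𝓞 L) (𝓞 (Om L))) := by
      rw [top_comap]; exact hq
    exact h2
  have hq2 : jO (algebraMap (𝓞 L) (𝓞 (Om L)) q) ≠ 0 := by
    intro h
    apply hq0
    have h3 : algebraMap (𝓞 L) (𝓞 (Om L)) q = 0 := by
      apply jO.injective
      rw [h, map_zero]
    apply Pool.Agent.H98.MF.tp_inj L (Om L)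
    rw [h3, map_zero]
  haveI := tp_integral K (Om K)
  haveI := hTp
  let P : HeightOneSpectrum (𝓞 K) :=
    { asIdeal := T.comap (algebraMap (𝓞 K) (𝓞 (Om K)))
      isPrime := Ideal.comap_isPrime _ _
      ne_bot := Ideal.comap_ne_bot_of_integral_mem hq2 hq1 (Algebra.IsIntegral.isIntegral _) }
  obtain ⟨g, hg⟩ := x3_trans (top P) T (top_prime P) hTp (top_comap P)
  refine ⟨P, g, fun σ => ?_⟩
  rw [x3_dec, x3_dec, hfix, hg, mul_smul, mul_smul, inv_smul_eq_iff]

end Pool.Agent.H38.SR
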