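import Pool.Agent.H38.SR.Odd0
import Pool.Agent.H38.SR.Hil
import Pool.Agent.H38.SR.Cj
import Pool.Agent.H38.SR.Inf
import Pool.Agent.H38.SR.Cyc
import Pool.Agent.H38.SR.Eig
import Pool.Agent.H38.SR.Xt1
import Pool.Agent.H38.SR.Xt2
import Pool.Agent.H38.SR.Xt3
import Pool.Agent.H38.SR.HPt
import Pool.Agent.H38.SR.Ob
import Pool.Agent.H38.SR.Dsc
import Pool.Agent.H38.SR.Glb
import Pool.Agent.H38.SR.If
import Pool.Agent.H38.SR.Iq
import Pool.Agent.H38.SR.Ta
import Pool.Agent.H38.SR.Fi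
import Pool.Agent.H38.SR.Ru
import Pool.Agent.H38.SR.Pq
import Pool.Agent.H38.SR.Tt
import Pool.Agent.H38.SR.Ur
import Pool.Agent.H38.SR.Ch
import Pool.Agent.H38.SR.Spl
import Pool.Agent.H38.SR.Id
import Pool.Agent.H38.SR.Sel
import Pool.Agent.H38.SR.Tr
import Pool.Agent.H38.SR.El
import Pool.Agent.H38.SR.Ll
import Pool.Agent.H38.SR.Kl
import Pool.Agent.H38.SR.Kp
import Pool.Agent.H38.SR.Stp
import Pool.Agent.H38.SR.Mai
import Pool.Agent.H38.SR.Bc
import Pool.Agent.H38.SR.Nil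

/-!
# Scholz-Reichardt (MP_a3214d, T4, block S): nilpotent groups whose Sylow 2-subgroup occurs
-/

set_option autoImplicit false

open NumberField IsDedekindDomain

namespace Pool.Agent.H38.SR

open Pool.Agent.H92.EL

theorem sodd (hKu : SKu) (hKuD : SKuD) (hTwo : STwo) (hNG : SNG) (hBr : SBr) (hSd : SSd)
    (hSp : SSp) (hGs : SGs) (hHn : GlHn) (hT : SGenT) : SOdd := by
  have h2 := sxt2 sxt1
  have hE := seig hKu shil (sinf hKuD) scyc
  have hH := shpt hKu hGs hHn hNG h2 sxt3 scj hE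
  have hGl := sglb h2 sxt3 scj hH sob sdsc
  have hTa := sta hT sif siq
  have hTt := stt siq spq
  have hUr := sur sif siq sru
  have hCh := sch sru spq hTt
  have hSpl := sspl hSd hSp
  have hSel := ssel sif siq sfi sru spq hTt hSpl (sid spq)
  have hEl := sel hBr hKu hTwo sif hTt str
  have hLl := sll sif siq hTa spq hUr hCh
  have hKl := skl sif siq spq hUr hEl
  have hKp := skp sif hTa sfi spq hCh
  have hStp := sstp sif siq sfi spq hGl hLl hKl hKp hSel
  exact sodd_of snil (sbc sxt1 (smai hStp))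

end Pool.Agent.H38.SR
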