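import Pool.Agent.H38.SR.Stm
import Pool.Agent.H92.EL.Gl

/-!
# Scholz-Reichardt (MP_a3214d, T4, block S): nilpotent groups of odd order from the rows
-/

set_option autoImplicit false

open NumberField IsDedekindDomain

namespace Pool.Agent.H38.SR

open Pool.Agent.EX (Occ)

theorem sodd_of (hN : SNil) (hB : SBc) : SOdd := by
  intro k _ _ G _ _ hG h2
  refine hN k G hG fun p _ P => ?_
  by_cases hp : p = 2
  · subst hp
    exact h2 P
  · exact hB k p hp P P.isPGroup'

end Pool.Agent.H38.SR
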