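import Pool.Agent.H38.SR.Stm
import Pool.Agent.H98.MF.L.Top

/-!
# Scholz-Reichardt (MP_a3214d, T4, block S), row P3, part a: the character of a prime `q`
congruent to one modulo `l`, its values at Frobenius elements
-/

set_option autoImplicit false

open scoped BigOperators Pointwise
open NumberField IsDedekindDomain

namespace Pool.Agent.H38.SR

open Pool.Agent.H98.MF (Om Gm ord Dec top nrm top_prime)

theorem sel_pw {R : Type} [Monoid R] {l : ℕ} [NeZero l] {ζ : R} (h : ζ ^ l = 1) (x y : ZMod l) :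
    ζ ^ (x + y).val = ζ ^ x.val * ζ ^ y.val := by
  rw [ZMod.val_add, ← pow_add]
  exact (pow_eq_pow_mod _ h).symm

theorem sel_inj {R : Type} [CommMonoid R] {l : ℕ} [NeZero l] {ζ : R} (h : IsPrimitiveRoot ζ l)
    {x y : ZMod l} (hxy : ζ ^ x.val = ζ ^ y.val) : x = y :=
  ZMod.val_injective l (h.pow_inj (ZMod.val_lt x) (ZMod.val_lt y) hxy)

/-- the value at a point is locally constant -/
theorem sel_lc {k : Type} [Field k] (x : Om k) : IsLocallyConstant (fun σ : Gm k => σ x) := by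
  rw [IsLocallyConstant.iff_exists_open]
  intro σ
  have h1 : IsOpen ((MulAction.stabilizer (Gm k) x : Subgroup (Gm k)) : Set (Gm k)) :=
    stabilizer_isOpen_of_isIntegral x
  refine ⟨(fun τ : Gm k => σ⁻¹ * τ) ⁻¹' (MulAction.stabilizer (Gm k) x : Set (Gm k)),
    h1.preimage (continuous_const_mul σ⁻¹), ?_, ?_⟩
  · change σ⁻¹ * σ ∈ MulAction.stabilizer (Gm k) x
    rw [inv_mul_cancel]
    exact Subgroup.one_mem _
  · intro τ hτ
    have h2 : (σ⁻¹ * τ) • x = x := hτ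
    rw [mul_smul, inv_smul_eq_iff] at h2
    exact h2

/-- an integral element with given value -/
theorem sel_int {y : Om ℚ} {l n : ℕ} (hl : 0 < l) (h : y ^ l = (n : Om ℚ)) :
    ∃ y' : 𝓞 (Om ℚ), (y' : Om ℚ) = y := by
  have h1 : IsIntegral ℤ (y ^ l) := by
    rw [h, ← map_natCast (algebraMap ℤ (Om ℚ)) n]
    exact isIntegral_algebraMap
  exact ⟨⟨y, IsIntegral.of_pow hl h1⟩, rfl⟩

/-- the primitive roots of unity are conjugate over the rational numbers -/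
theorem sel_conj {q : ℕ} (hq : 0 < q) {η : Om ℚ} (h : IsPrimitiveRoot η q) {m : ℕ}
    (hm : m.Coprime q) : ∃ σ : Gm ℚ, σ η = η ^ m := by
  have h1 : IsConjRoot ℚ (η ^ m) η := by
    unfold IsConjRoot
    rw [← Polynomial.cyclotomic_eq_minpoly_rat (h.pow_of_coprime m hm) hq,
      ← Polynomial.cyclotomic_eq_minpoly_rat h hq]
  exact isConjRoot_iff_exists_algEquiv.1 h1

/-- an element of the group of units with a nontrivial power -/
theorem sel_gen {q l : ℕ} [Fact q.Prime] (hl : 1 < l) (h : l ∣ q - 1) :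
    ∃ g : (ZMod q)ˣ, g ^ ((q - 1) / l) ≠ 1 := by
  obtain ⟨g, hg⟩ := IsCyclic.exists_generator (α := (ZMod q)ˣ)
  refine ⟨g, fun h1 => ?_⟩
  have h2 : orderOf g = q - 1 := by
    rw [orderOf_eq_card_of_forall_mem_zpowers hg, Nat.card_eq_fintype_card,
      ZMod.card_units_eq_totient, Nat.totient_prime Fact.out]
  have h3 : q - 1 ∣ (q - 1) / l := by
    have h3 := orderOf_dvd_of_pow_eq_one h1
    rwa [h2] at h3
  have hq : 2 ≤ q := (Fact.out : q.Prime).two_le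
  have h4 : 0 < (q - 1) / l := Nat.div_pos (Nat.le_of_dvd (by omega) h) (by omega)
  have h5 := Nat.le_of_dvd h4 h3
  have h6 : (q - 1) / l < q - 1 := Nat.div_lt_self (by omega) hl
  omega

/-- the character of a prime `q` congruent to one modulo `l` -/
theorem sel_chr (h5 : SRu) (h6 : SPq) (h7 : STt) (l : ℕ) [Fact l.Prime]
    (Q : HeightOneSpectrum (𝓞 ℚ)) (hl : l ∣ nrm Q - 1) (ζ : Om ℚ) (hζ : IsPrimitiveRoot ζ l) :
    ∃ χ : Gm ℚ → ZMod l, HmZ l χ ∧ (∃ τ ∈ Ine Q, χ τ ≠ 0) ∧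
      (∀ P, P ≠ Q → ∀ τ ∈ Ine P, χ τ = 0) ∧
      ∀ P, P ≠ Q → ∀ y : Om ℚ, y ^ l = ((nrm P : ℕ) : Om ℚ) → ∀ φ ψ, IsFr P φ → IsFr Q ψ →
        ∀ x : ZMod l, ψ y = ζ ^ x.val * y → χ φ = x := by
  have hlp : l.Prime := Fact.out
  obtain ⟨hp1, hp2, hp3, hp4⟩ := h6
  have hq : (nrm Q).Prime := hp1 Q
  generalize hqq : nrm Q = q at hq hl
  have : Fact q.Prime := ⟨hq⟩
  have hqp : (top Q).IsPrime := top_prime Q
  have hdom : IsDomain (𝓞 (Om ℚ) ⧸ top Q) := Ideal.Quotient.isDomain _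
  have hq0 : ((q : ℕ) : 𝓞 (Om ℚ) ⧸ top Q) = 0 := by
    have h1 := (hp4 Q Q).2 rfl
    rw [hqq] at h1
    rw [← map_natCast (Ideal.Quotient.mk (top Q))]
    exact Ideal.Quotient.eq_zero_iff_mem.2 h1
  have hne : ∀ P : HeightOneSpectrum (𝓞 ℚ), P ≠ Q →
      ((nrm P : ℕ) : 𝓞 (Om ℚ) ⧸ top Q) ≠ 0 := by
    intro P hP h1
    rw [← map_natCast (Ideal.Quotient.mk (top Q)), Ideal.Quotient.eq_zero_iff_mem] at h1
    exact hP ((hp4 P Q).1 h1)
  have hchar : CharP (𝓞 (Om ℚ) ⧸ top Q) q := (CharP.charP_iff_prime_eq_zero hq).2 hq0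
  obtain ⟨L, hL⟩ := hp3 l hlp
  have hLQ : L ≠ Q := by
    rintro rfl
    rw [← hqq, hL] at hl
    have h1 := Nat.le_of_dvd (by have := hlp.two_le; omega) hl
    have := hlp.two_le
    omega
  -- the root of unity
  obtain ⟨ζ', hζ'⟩ := sel_int (y := ζ) (l := l) (n := 1) hlp.pos (by rw [hζ.pow_eq_one]; simp)
  have hz1 : ζ' ^ l = 1 := by
    apply RingOfIntegers.coe_injective
    rw [map_pow, map_one]
    change (ζ' : Om ℚ) ^ l = 1
    rw [hζ', hζ.pow_eq_one]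
  set w : 𝓞 (Om ℚ) ⧸ top Q := Ideal.Quotient.mk (top Q) ζ' with hw
  have hw1 : w ^ l = 1 := by rw [hw, ← map_pow, hz1, map_one]
  have hw2 : w ≠ 1 := by
    intro h1
    have h2 : (∑ i ∈ Finset.range l, ζ' ^ i) = 0 := by
      apply RingOfIntegers.coe_injective
      rw [map_sum, map_zero]
      have h3 := hζ.geom_sum_eq_zero hlp.one_lt
      rw [← h3]
      refine Finset.sum_congr rfl fun i _ => ?_
      rw [map_pow]
      exact congrArg (fun t => t ^ i) hζ'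
    have h3 := congrArg (Ideal.Quotient.mk (top Q)) h2
    rw [map_sum, map_zero] at h3
    simp only [map_pow, ← hw, h1, one_pow, Finset.sum_const, Finset.card_range, nsmul_eq_mul,
      mul_one] at h3
    rw [← hL] at h3
    exact hne L hLQ h3
  have hwp : IsPrimitiveRoot w l := by
    have h1 : orderOf w = l := orderOf_eq_prime hw1 hw2
    rw [← h1]
    exact IsPrimitiveRoot.orderOf w
  -- the cyclotomic character
  obtain ⟨η, hη⟩ := HasEnoughRootsOfUnity.exists_primitiveRoot (Om ℚ) q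
  let ι : ZMod q →+* 𝓞 (Om ℚ) ⧸ top Q := ZMod.castHom dvd_rfl _
  let U : Gm ℚ →* (ZMod q)ˣ := hη.autToPow ℚ
  have hU : ∀ σ, η ^ (U σ : ZMod q).val = σ η := fun σ => hη.autToPow_spec ℚ σ
  have hU' : ∀ σ (m : ℕ), σ η = η ^ m → (U σ : ZMod q) = m := by
    intro σ m h1
    rw [← hU σ, pow_eq_pow_mod m hη.pow_eq_one] at h1
    have h2 := hη.pow_inj (ZMod.val_lt _) (Nat.mod_lt _ hq.pos) h1
    rw [← ZMod.natCast_zmod_val (U σ : ZMod q), h2, ZMod.natCast_mod]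
  let E : Gm ℚ → 𝓞 (Om ℚ) ⧸ top Q := fun σ => ι (U σ : ZMod q) ^ ((q - 1) / l)
  have hEl : ∀ σ, E σ ^ l = 1 := by
    intro σ
    change (ι (U σ : ZMod q) ^ ((q - 1) / l)) ^ l = 1
    rw [← pow_mul, Nat.div_mul_cancel hl, ← map_pow, ← Units.val_pow_eq_pow_val,
      ZMod.units_pow_card_sub_one_eq_one, Units.val_one, map_one]
  have hE : ∀ σ, ∃ x : ZMod l, w ^ x.val = E σ := by
    intro σ
    obtain ⟨i, hi, hi2⟩ := hwp.eq_pow_of_pow_eq_one (hEl σ)
    refine ⟨(i : ZMod l), ?_⟩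
    rw [ZMod.val_natCast, Nat.mod_eq_of_lt hi]
    exact hi2
  choose χ hχ using hE
  have hχ1 : ∀ σ, E σ = 1 → χ σ = 0 := by
    intro σ h1
    refine sel_inj hwp ?_
    rw [hχ σ, h1, ZMod.val_zero, pow_zero]
  refine ⟨χ, ⟨?_, ?_⟩, ?_, ?_, ?_⟩
  · have h1 : ∀ σ σ' : Gm ℚ, σ η = σ' η → χ σ = χ σ' := by
      intro σ σ' h1
      refine sel_inj hwp ?_
      rw [hχ, hχ]
      have h2 : (U σ : ZMod q) = (U σ' : ZMod q) := by
        rw [hU' σ _ (h1.trans (hU σ').symm), ZMod.natCast_zmod_val]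
      change ι (U σ : ZMod q) ^ ((q - 1) / l) = ι (U σ' : ZMod q) ^ ((q - 1) / l)
      rw [h2]
    rw [IsLocallyConstant.iff_exists_open]
    intro σ
    obtain ⟨O, hO, hσ, hO2⟩ := (IsLocallyConstant.iff_exists_open _).1 (sel_lc η) σ
    exact ⟨O, hO, hσ, fun τ hτ => h1 τ σ (hO2 τ hτ)⟩
  · intro σ τ
    refine sel_inj hwp ?_
    rw [sel_pw hw1, hχ, hχ, hχ]
    change ι (U (σ * τ) : ZMod q) ^ ((q - 1) / l) = ι (U σ : ZMod q) ^ ((q - 1) / l) *
      ι (U τ : ZMod q) ^ ((q - 1) / l)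
    rw [map_mul, Units.val_mul, map_mul, mul_pow]
  · obtain ⟨g, hg⟩ := sel_gen hlp.one_lt hl
    obtain ⟨σ, hσ⟩ := sel_conj hq.pos hη (ZMod.val_coe_unit_coprime g)
    obtain ⟨τ, hτ, hτ2⟩ := h7 Q η (hqq ▸ hη) σ
    refine ⟨τ, hτ, fun h1 => hg ?_⟩
    have h2 := hχ τ
    rw [h1, ZMod.val_zero, pow_zero] at h2
    have h3 : (U τ : ZMod q) = g := by
      rw [hU' τ _ (hτ2.trans hσ), ZMod.natCast_zmod_val]
    have h4 : ι ((g : ZMod q) ^ ((q - 1) / l)) = ι 1 := by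
      rw [map_pow, map_one, ← h3]
      exact h2.symm
    have h5 := RingHom.injective ι h4
    refine Units.ext ?_
    rw [Units.val_pow_eq_pow_val, h5, Units.val_one]
  · intro P hP τ hτ
    have hcop : Nat.Coprime q (nrm P) := by
      refine (Nat.coprime_primes hq (hp1 P)).2 fun h1 => hP (hp2 P Q ?_)
      rw [hqq, h1]
    have h1 := (h5 ℚ P q η hη.pow_eq_one hcop).1 τ hτ
    refine hχ1 τ ?_
    have h2 : (U τ : ZMod q) = ((1 : ℕ) : ZMod q) := hU' τ 1 (by rw [h1, pow_one])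
    change ι (U τ : ZMod q) ^ ((q - 1) / l) = 1
    rw [h2, Nat.cast_one, map_one, one_pow]
  · intro P hP y hy φ ψ hφ hψ x hx
    have hcop : Nat.Coprime q (nrm P) := by
      refine (Nat.coprime_primes hq (hp1 P)).2 fun h1 => hP (hp2 P Q ?_)
      rw [hqq, h1]
    have h1 := (h5 ℚ P q η hη.pow_eq_one hcop).2 φ hφ
    have h2 : (U φ : ZMod q) = ((nrm P : ℕ) : ZMod q) := hU' φ _ h1
    have h3 : E φ = ((nrm P : ℕ) : 𝓞 (Om ℚ) ⧸ top Q) ^ ((q - 1) / l) := by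
      change ι (U φ : ZMod q) ^ ((q - 1) / l) = _
      rw [h2, map_natCast]
    obtain ⟨y', hy'⟩ := sel_int hlp.pos hy
    set v : 𝓞 (Om ℚ) ⧸ top Q := Ideal.Quotient.mk (top Q) y' with hv
    have hv1 : v ^ l = ((nrm P : ℕ) : 𝓞 (Om ℚ) ⧸ top Q) := by
      have h4 : y' ^ l = ((nrm P : ℕ) : 𝓞 (Om ℚ)) := by
        apply RingOfIntegers.coe_injective
        rw [map_pow, map_natCast]
        exact (congrArg (fun t => t ^ l) hy').trans hy
      rw [hv, ← map_pow, h4, map_natCast]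
    have hv0 : v ≠ 0 := by
      intro h4
      rw [h4, zero_pow hlp.pos.ne'] at hv1
      exact hne P hP hv1.symm
    have h4 : w ^ x.val * v = v ^ q := by
      have h5 := hψ y'
      have h6 : ψ • y' = ζ' ^ x.val * y' := by
        apply RingOfIntegers.coe_injective
        rw [map_mul, map_pow]
        change ψ (y' : Om ℚ) = (ζ' : Om ℚ) ^ x.val * (y' : Om ℚ)
        rw [hy', hζ', hx]
      rw [h6, hqq] at h5
      have h8 := Ideal.Quotient.eq_zero_iff_mem.2 h5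
      rw [map_sub, map_mul, map_pow, map_pow, sub_eq_zero] at h8
      exact h8
    have h8 : w ^ x.val = v ^ (q - 1) := by
      have h9 : v ^ q = v ^ (q - 1) * v := by
        rw [← pow_succ, Nat.sub_add_cancel hq.one_lt.le]
      rw [h9] at h4
      exact mul_right_cancel₀ hv0 h4
    refine (sel_inj hwp ?_).symm
    rw [h8, hχ, h3, ← hv1, ← pow_mul, Nat.mul_div_cancel' hl]

end Pool.Agent.H38.SR
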