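import Pool.Agent.H92.EL.AStm
import Pool.Agent.H92.EL.DStm
import Pool.Agent.EX.Stm

/-!
# Scholz-Reichardt (MP_a3214d, T4, block S): definitions and statements

Every nilpotent group of odd order is a Galois group over every number field.
-/

set_option autoImplicit false

open scoped BigOperators Pointwise
open NumberField IsDedekindDomain

namespace Pool.Agent.H38.SR

open Pool.Agent.H98.MF (Om Gm ord Dec top nrm)
open Pool.Agent.H92.EL (chl LocW WS pw OvP)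
open Pool.Agent.EX (Occ)

/-! ### cochains -/

section

variable {Γ : Type} [Group Γ] [TopologicalSpace Γ] {l : ℕ}

/-- continuous 2-cocycles with values in `ZMod l` -/
structure Z2 (α : Γ → Γ → ZMod l) : Prop where
  lc : IsLocallyConstant (fun x : Γ × Γ => α x.1 x.2)
  cc : ∀ x y w, α x y + α (x * y) w = α y w + α x (y * w)

/-- `α` is a coboundary on `D` -/
def Cob (D : Subgroup Γ) (α : Γ → Γ → ZMod l) : Prop :=
  ∃ f : Γ → ZMod l, IsLocallyConstant f ∧ ∀ σ ∈ D, ∀ τ ∈ D, f (σ * τ) = f σ + f τ + α σ τ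

/-- continuous homomorphisms to `ZMod m` -/
structure HmZ (m : ℕ) (χ : Γ → ZMod m) : Prop where
  lc : IsLocallyConstant χ
  add : ∀ σ τ, χ (σ * τ) = χ σ + χ τ

/-- `ρ` lifts to `E` on `D` -/
def LfOn {E G : Type} [Group E] [Group G] (D : Subgroup Γ) (π : E →* G) (ρ : Γ →* G) : Prop :=
  ∃ lam : Γ → E, IsLocallyConstant lam ∧ (∀ σ ∈ D, ∀ τ ∈ D, lam (σ * τ) = lam σ * lam τ) ∧
    ∀ σ ∈ D, π (lam σ) = ρ σ

end

/-- a central extension of order `l` -/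
structure Cx (l : ℕ) {E G : Type} [Group E] [Group G] (π : E →* G) : Prop where
  surj : Function.Surjective π
  cen : ∀ c, π c = 1 → ∀ e, c * e = e * c
  crd : Nat.card π.ker = l

/-! ### block H: the Hasse principle in towers -/

/-- H1: Hilbert 90 for the absolute Galois group -/
def SHil : Prop := ∀ (K : Type) [Field K] [NumberField K] (f : Gm K → Om K),
  IsLocallyConstant f → (∀ σ, f σ ≠ 0) → (∀ σ τ, f (σ * τ) = f σ * σ (f τ)) →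
    ∃ y : Om K, y ≠ 0 ∧ ∀ σ, f σ * y = σ y

/-- H2: conjugation -/
def SCj : Prop := ∀ (Γ : Type) [Group Γ] [TopologicalSpace Γ] [IsTopologicalGroup Γ] (l : ℕ)
  (α : Γ → Γ → ZMod l), Z2 α → ∀ (g : Γ) (D D' : Subgroup Γ), (∀ σ ∈ D', g⁻¹ * σ * g ∈ D) →
    Cob D α → Cob D' α

/-- H3: a cocycle that is trivial on `H` is inflated in the multiplicative group -/
def SInf : Prop := ∀ (l : ℕ) [Fact l.Prime] (K : Type) [Field K] [NumberField K] (z : K),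
  IsPrimitiveRoot z l → ∀ α : Gm K → Gm K → ZMod l, Z2 α → ∀ H : Subgroup (Gm K), H.Normal →
  IsOpen (H : Set (Gm K)) → Cob H α →
    ∃ (G : Gm K → Om K) (c : Gm K → Gm K → Om K), IsLocallyConstant G ∧ (∀ x, G x ≠ 0) ∧
      (∀ x y, c x y ≠ 0) ∧ c 1 1 = 1 ∧
      (∀ x y, algebraMap K (Om K) z ^ (α x y).val * G (x * y) = G x * x (G y) * c x y) ∧
      ∀ x y, ∀ h ∈ H, c (h * x) y = c x y ∧ c x (h * y) = c x y ∧ h (c x y) = c x y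

/-- H4: cocycles of a cyclic group -/
def SCyc : Prop := ∀ (l : ℕ) [Fact l.Prime] (K : Type) [Field K] [NumberField K]
  (χ : Gm K → ZMod l), HmZ l χ → (∃ s, χ s = 1) → ∀ c : Gm K → Gm K → Om K,
  (∀ x y, c x y ≠ 0) → c 1 1 = 1 →
  (∀ x y w, c x y * c (x * y) w = x (c y w) * c x (y * w)) →
  (∀ x y h, χ h = 0 → c (h * x) y = c x y ∧ c x (h * y) = c x y ∧ h (c x y) = c x y) →
    ∃ (b : Kˣ) (G : Gm K → Om K), (∀ x, G x ≠ 0) ∧ (∀ x h, χ h = 0 → G (h * x) = G x) ∧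
      ∀ x y, c x y * G (x * y) = G x * x (G y) *
        (if l ≤ (χ x).val + (χ y).val then algebraMap K (Om K) b else 1)

/-- H5: cocycles that are trivial on the kernel of a Kummer character are symbols -/
def SEig : Prop := ∀ (l : ℕ) [Fact l.Prime] (K : Type) [Field K] [NumberField K] (z : K),
  IsPrimitiveRoot z l → ∀ α : Gm K → Gm K → ZMod l, Z2 α → ∀ a : Kˣ,
  a ∉ pw l (⊤ : Subgroup Kˣ) → ∀ H : Subgroup (Gm K),
  (∀ σ, σ ∈ H ↔ chl l z (a : K) σ = 0) → Cob H α →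
    ∃ b : Kˣ, Cob ⊤ (fun σ τ => α σ τ + chl l z (b : K) σ * chl l z (a : K) τ)

/-- an identification of the closures of `K` and of the extension `L` -/
structure Xt (K L : Type) [Field K] [NumberField K] [Field L] [NumberField L] [Algebra K L] where
  /-- the identification -/
  j : Om L ≃+* Om K
  j_alg : ∀ x : K, j (algebraMap L (Om L) (algebraMap K L x)) = algebraMap K (Om K) x
  /-- the embedding of the Galois groups -/
  Th : Gm L →* Gm K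
  Th_ap : ∀ (σ : Gm L) (x : Om L), Th σ (j x) = j (σ x)
  emb : Topology.IsOpenEmbedding Th
  rng : ∀ g : Gm K, g ∈ Th.range ↔
    ∀ x : L, g (j (algebraMap L (Om L) x)) = j (algebraMap L (Om L) x)

/-- H6a: extensions have identifications -/
def SXt1 : Prop := ∀ (K L : Type) [Field K] [NumberField K] [Field L] [NumberField L]
  [Algebra K L], Nonempty (Xt K L)

/-- H6b: open subgroups are Galois groups of extensions -/
def SXt2 : Prop := ∀ (K : Type) [Field K] [NumberField K] (U : Subgroup (Gm K)),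
  IsOpen (U : Set (Gm K)) → ∃ (L : Type) (_ : Field L) (_ : NumberField L) (_ : Algebra K L)
    (X : Xt K L), X.Th.range = U

/-- H6c: decomposition groups -/
def SXt3 : Prop := ∀ (K L : Type) [Field K] [NumberField K] [Field L] [NumberField L]
  [Algebra K L] (X : Xt K L) (Q : HeightOneSpectrum (𝓞 L)),
    ∃ (P : HeightOneSpectrum (𝓞 K)) (g : Gm K), ∀ σ : Gm L,
      σ ∈ Dec Q ↔ g⁻¹ * X.Th σ * g ∈ Dec P

/-- H7: the Hasse principle for cocycles that are trivial on an extension of degree `l ^ n` -/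
def SHPt : Prop := ∀ (l : ℕ) [Fact l.Prime], l ≠ 2 → ∀ (n : ℕ) (K : Type) [Field K]
  [NumberField K] (z : K), IsPrimitiveRoot z l → ∀ α : Gm K → Gm K → ZMod l, Z2 α →
  ∀ U : Subgroup (Gm K), U.Normal → IsOpen (U : Set (Gm K)) → U.index = l ^ n → Cob U α →
  (∀ P : HeightOneSpectrum (𝓞 K), Cob (Dec P) α) → Cob ⊤ α

/-! ### block L: lifts -/

/-- L1: the obstruction -/
def SOb : Prop := ∀ (l : ℕ) [Fact l.Prime] (E G : Type) [Group E] [Finite E] [Group G]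
  (π : E →* G), Cx l π → ∀ (Γ : Type) [Group Γ] [TopologicalSpace Γ] [IsTopologicalGroup Γ]
  (ρ : Γ →* G), IsLocallyConstant ρ →
    ∃ α : Γ → Γ → ZMod l, Z2 α ∧ Cob ρ.ker α ∧ ∀ D : Subgroup Γ, Cob D α ↔ LfOn D π ρ

/-- L2: descent from a subgroup of index prime to `l` -/
def SDsc : Prop := ∀ (Γ : Type) [Group Γ] [TopologicalSpace Γ] [IsTopologicalGroup Γ] (l : ℕ)
  [Fact l.Prime] (N : Subgroup Γ), IsOpen (N : Set Γ) → N.index ≠ 0 → ¬ l ∣ N.index →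
  ∀ α : Γ → Γ → ZMod l, Z2 α → Cob N α → Cob ⊤ α

/-- L3: global lifts -/
def SGlb : Prop := ∀ (l : ℕ) [Fact l.Prime], l ≠ 2 → ∀ (E G : Type) [Group E] [Finite E]
  [Group G] (π : E →* G), Cx l π → IsPGroup l G → ∀ ρ : Gm ℚ →* G, IsLocallyConstant ρ →
  (∀ P : HeightOneSpectrum (𝓞 ℚ), LfOn (Dec P) π ρ) →
    ∃ ρ' : Gm ℚ →* E, IsLocallyConstant ρ' ∧ ∀ σ, π (ρ' σ) = ρ σ

/-! ### block R: ramification -/

section

variable {k : Type} [Field k] [NumberField k]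

/-- the inertia group -/
noncomputable def Ine (P : HeightOneSpectrum (𝓞 k)) : Subgroup (Gm k) := (top P).inertia (Gm k)

/-- Frobenius elements -/
def IsFr (P : HeightOneSpectrum (𝓞 k)) (φ : Gm k) : Prop :=
  ∀ x : 𝓞 (Om k), φ • x - x ^ nrm P ∈ top P

end

/-- R1: inertia groups and Frobenius elements -/
def SIf : Prop := ∀ (k : Type) [Field k] [NumberField k] (P : HeightOneSpectrum (𝓞 k)),
  Ine P ≤ Dec P ∧ (∃ φ, IsFr P φ) ∧ (∀ φ, IsFr P φ → φ ∈ Dec P) ∧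
    ∀ σ ∈ Dec P, ∀ τ ∈ Ine P, σ * τ * σ⁻¹ ∈ Ine P

/-- R2: the inertia group of a quotient; the decomposition group is generated by the inertia
group and a Frobenius element -/
def SIq : Prop := ∀ (k : Type) [Field k] [NumberField k] (P : HeightOneSpectrum (𝓞 k))
  (U : Subgroup (Gm k)), U.Normal → IsOpen (U : Set (Gm k)) →
    (∀ σ : Gm k, (∀ x : 𝓞 (Om k), (∀ u ∈ U, u • x = x) → σ • x - x ∈ top P) →
      ∃ τ ∈ Ine P, τ⁻¹ * σ ∈ U) ∧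
    ∀ φ, IsFr P φ → ∀ σ ∈ Dec P, ∃ n : ℕ, ∃ τ ∈ Ine P, (φ ^ n * τ)⁻¹ * σ ∈ U

/-- R3: tame quotients -/
def STa : Prop := ∀ (k : Type) [Field k] [NumberField k] (P : HeightOneSpectrum (𝓞 k))
  (G : Type) [Group G] [Finite G] (ρ : Gm k →* G), IsLocallyConstant ρ →
  Nat.Coprime (Nat.card G) (nrm P) →
    (∃ τ ∈ Ine P, ∀ σ ∈ Ine P, ∃ i : ℕ, ρ σ = ρ τ ^ i) ∧
    ∀ φ, IsFr P φ → ∀ τ ∈ Ine P, ρ (φ * τ * φ⁻¹) = ρ τ ^ nrm P

/-- R4: finitely many primes ramify -/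
def SFi : Prop := ∀ (k : Type) [Field k] [NumberField k] (U : Subgroup (Gm k)), U.Normal →
  IsOpen (U : Set (Gm k)) → {P : HeightOneSpectrum (𝓞 k) | ¬ Ine P ≤ U}.Finite

/-- R5: roots of unity -/
def SRu : Prop := ∀ (k : Type) [Field k] [NumberField k] (P : HeightOneSpectrum (𝓞 k)) (m : ℕ)
  (ζ : Om k), ζ ^ m = 1 → Nat.Coprime m (nrm P) →
    (∀ τ ∈ Ine P, τ ζ = ζ) ∧ ∀ φ, IsFr P φ → φ ζ = ζ ^ nrm P

/-- R6: the primes of the rational numbers -/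
def SPq : Prop := (∀ P : HeightOneSpectrum (𝓞 ℚ), (nrm P).Prime) ∧
  (∀ P Q : HeightOneSpectrum (𝓞 ℚ), nrm P = nrm Q → P = Q) ∧
  (∀ p : ℕ, p.Prime → ∃ P : HeightOneSpectrum (𝓞 ℚ), nrm P = p) ∧
  ∀ P Q : HeightOneSpectrum (𝓞 ℚ), ((nrm P : ℕ) : 𝓞 (Om ℚ)) ∈ top Q ↔ P = Q

/-- R7: total ramification in the cyclotomic field -/
def STt : Prop := ∀ (P : HeightOneSpectrum (𝓞 ℚ)) (ζ : Om ℚ), IsPrimitiveRoot ζ (nrm P) →
  ∀ σ : Gm ℚ, ∃ τ ∈ Ine P, τ ζ = σ ζ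

/-- R8: the unramified character of a decomposition group -/
def SUr : Prop := ∀ (k : Type) [Field k] [NumberField k] (P : HeightOneSpectrum (𝓞 k)) (m : ℕ)
  [NeZero m], ∃ n : Gm k → ZMod m, IsLocallyConstant n ∧
    (∀ σ ∈ Dec P, ∀ τ ∈ Dec P, n (σ * τ) = n σ + n τ) ∧ (∀ τ ∈ Ine P, n τ = 0) ∧
    ∀ φ, IsFr P φ → n φ = 1

/-- R9: characters of prime conductor -/
def SCh : Prop := ∀ (P : HeightOneSpectrum (𝓞 ℚ)) (m : ℕ) [NeZero m], m ∣ nrm P - 1 →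
  ∃ χ : Gm ℚ → ZMod m, HmZ m χ ∧ (∃ τ ∈ Ine P, χ τ = 1) ∧
    ∀ Q : HeightOneSpectrum (𝓞 ℚ), Q ≠ P → ∀ τ ∈ Ine Q, χ τ = 0

/-! ### block P: primes -/

/-- P1: primes that split completely in a field and not in a larger one -/
def SSpl : Prop := ∀ (k : Type) [Field k] [NumberField k] (W : Subgroup (Gm k)), W.Normal →
  IsOpen (W : Set (Gm k)) → ∀ F : Finset (HeightOneSpectrum (𝓞 k)), (∃ P, P ∉ F ∧ Dec P ≤ W) ∧
    ∀ W' : Subgroup (Gm k), W'.Normal → IsOpen (W' : Set (Gm k)) → W' < W →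
      ∃ P, P ∉ F ∧ Dec P ≤ W ∧ ¬ Dec P ≤ W'

/-- P2: the roots of the primes are independent over a nilpotent extension -/
def SId : Prop := ∀ (l : ℕ) [Fact l.Prime], l ≠ 2 → ∀ (n : ℕ) (G : Type) [Group G] [Finite G],
  IsPGroup l G → ∀ ρ : Gm ℚ →* G, ∀ z : Om ℚ, IsPrimitiveRoot z (l ^ (n + 1)) →
  ∀ (T : Finset (HeightOneSpectrum (𝓞 ℚ))) (y : HeightOneSpectrum (𝓞 ℚ) → Om ℚ),
  (∀ P ∈ T, y P ^ l = ((nrm P : ℕ) : Om ℚ)) → ∀ c : HeightOneSpectrum (𝓞 ℚ) → ZMod l,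
    ∃ σ : Gm ℚ, ρ σ = 1 ∧ σ z = z ∧ ∀ P ∈ T, σ (y P) = (z ^ l ^ n) ^ (c P).val * y P

/-- P3: the choice of the new prime -/
def SSel : Prop := ∀ (l : ℕ) [Fact l.Prime], l ≠ 2 → ∀ (N : ℕ) (G : Type) [Group G] [Finite G],
  IsPGroup l G → ∀ ρ : Gm ℚ →* G, IsLocallyConstant ρ → ∀ V : Subgroup (Gm ℚ), V.Normal →
  IsOpen (V : Set (Gm ℚ)) → ∀ T : Finset (HeightOneSpectrum (𝓞 ℚ)), (∀ P ∈ T, nrm P ≠ l) →
  ∀ φ : HeightOneSpectrum (𝓞 ℚ) → Gm ℚ, (∀ P, IsFr P (φ P)) →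
  ∀ c : HeightOneSpectrum (𝓞 ℚ) → ZMod l,
    ∃ (Q : HeightOneSpectrum (𝓞 ℚ)) (χ : Gm ℚ → ZMod l), HmZ l χ ∧ nrm Q ≠ l ∧ Q ∉ T ∧
      nrm Q ≡ 1 [MOD l ^ N] ∧ Ine Q ≤ V ∧ (∀ σ ∈ Dec Q, ρ σ = 1) ∧ (∃ τ ∈ Ine Q, χ τ ≠ 0) ∧
      (∀ P, P ≠ Q → ∀ τ ∈ Ine P, χ τ = 0) ∧ ∀ P ∈ T, χ (φ P) = c P

/-! ### block W: the prime `l` -/

/-- W1: extension of characters by transfer -/
def STr : Prop := ∀ (Γ : Type) [Group Γ] [TopologicalSpace Γ] [IsTopologicalGroup Γ] (l : ℕ)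
  [Fact l.Prime] (N D : Subgroup Γ), IsOpen (N : Set Γ) → N.index ≠ 0 → ¬ l ∣ N.index →
  (∀ g : Γ, ∃ n ∈ N, ∃ d ∈ D, g = n * d) → ∀ h h₀ : Γ → ZMod l, IsLocallyConstant h →
  (∀ x ∈ N, ∀ y ∈ N, h (x * y) = h x + h y) → (∀ x ∈ D, ∀ y ∈ D, h₀ (x * y) = h₀ x + h₀ y) →
  (∀ x ∈ N, x ∈ D → h x = h₀ x) → ∃ χ : Γ → ZMod l, HmZ l χ ∧ ∀ x ∈ D, χ x = h₀ x

/-- W2: characters of the decomposition group of `l` extend -/
def SEl : Prop := ∀ (l : ℕ) [Fact l.Prime], l ≠ 2 → ∀ P : HeightOneSpectrum (𝓞 ℚ), nrm P = l →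
  ∀ h₀ : Gm ℚ → ZMod l, IsLocallyConstant h₀ →
  (∀ σ ∈ Dec P, ∀ τ ∈ Dec P, h₀ (σ * τ) = h₀ σ + h₀ τ) →
    ∃ χ : Gm ℚ → ZMod l, HmZ l χ ∧ ∀ σ ∈ Dec P, χ σ = h₀ σ

/-! ### block I: the induction -/

/-- Scholz homomorphisms -/
structure Sch (l N : ℕ) {G : Type} [Group G] (ρ : Gm ℚ →* G) : Prop where
  lc : IsLocallyConstant ρ
  ell : ∀ P : HeightOneSpectrum (𝓞 ℚ), nrm P = l → ∀ τ ∈ Ine P, ρ τ = 1
  ram : ∀ P : HeightOneSpectrum (𝓞 ℚ), (∃ τ ∈ Ine P, ρ τ ≠ 1) →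
    nrm P ≡ 1 [MOD l ^ N] ∧ ∀ σ ∈ Dec P, ∃ τ ∈ Ine P, ρ σ = ρ τ

/-- I1: local lifts of Scholz homomorphisms -/
def SLl : Prop := ∀ (l : ℕ) [Fact l.Prime], l ≠ 2 → ∀ (N : ℕ) (E G : Type) [Group E] [Finite E]
  [Group G] (π : E →* G), Cx l π → IsPGroup l E → Nat.card E ∣ l ^ N → ∀ ρ : Gm ℚ →* G,
  Sch l N ρ → ∀ P : HeightOneSpectrum (𝓞 ℚ), LfOn (Dec P) π ρ

/-- I2: a lift that is unramified at `l` -/
def SKl : Prop := ∀ (l : ℕ) [Fact l.Prime], l ≠ 2 → ∀ (E G : Type) [Group E] [Finite E]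
  [Group G] (π : E →* G), Cx l π → ∀ ρ₀ : Gm ℚ →* E, IsLocallyConstant ρ₀ →
  (∀ P : HeightOneSpectrum (𝓞 ℚ), nrm P = l → ∀ τ ∈ Ine P, π (ρ₀ τ) = 1) →
    ∃ ρ₁ : Gm ℚ →* E, IsLocallyConstant ρ₁ ∧ (∀ σ, π (ρ₁ σ) = π (ρ₀ σ)) ∧
      ∀ P : HeightOneSpectrum (𝓞 ℚ), nrm P = l → ∀ τ ∈ Ine P, ρ₁ τ = 1

/-- I3: a lift without new ramification -/
def SKp : Prop := ∀ (l : ℕ) [Fact l.Prime], l ≠ 2 → ∀ (E G : Type) [Group E] [Finite E]
  [Group G] (π : E →* G), Cx l π → IsPGroup l E → ∀ ρ₀ : Gm ℚ →* E, IsLocallyConstant ρ₀ →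
  (∀ P : HeightOneSpectrum (𝓞 ℚ), nrm P = l → ∀ τ ∈ Ine P, ρ₀ τ = 1) →
    ∃ ρ₁ : Gm ℚ →* E, IsLocallyConstant ρ₁ ∧ (∀ σ, π (ρ₁ σ) = π (ρ₀ σ)) ∧
      ∀ P : HeightOneSpectrum (𝓞 ℚ), (∀ τ ∈ Ine P, π (ρ₀ τ) = 1) → ∀ τ ∈ Ine P, ρ₁ τ = 1

/-- I4: the step -/
def SStp : Prop := ∀ (l : ℕ) [Fact l.Prime], l ≠ 2 → ∀ (N : ℕ) (E G : Type) [Group E] [Finite E]
  [Group G] (π : E →* G), Cx l π → IsPGroup l E → Nat.card E ∣ l ^ N →
  ∀ V : Subgroup (Gm ℚ), V.Normal → IsOpen (V : Set (Gm ℚ)) → ∀ ρ : Gm ℚ →* G, Sch l N ρ →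
  (∀ g, ∃ v ∈ V, ρ v = g) → ∃ ρ' : Gm ℚ →* E, Sch l N ρ' ∧ ∀ e, ∃ v ∈ V, ρ' v = e

/-- I5: `l`-groups over the rational numbers, surjective on a given open subgroup -/
def SMai : Prop := ∀ (l : ℕ) [Fact l.Prime], l ≠ 2 → ∀ (E : Type) [Group E] [Finite E],
  IsPGroup l E → ∀ V : Subgroup (Gm ℚ), V.Normal → IsOpen (V : Set (Gm ℚ)) →
    ∃ ρ : Gm ℚ →* E, IsLocallyConstant ρ ∧ ∀ e, ∃ v ∈ V, ρ v = e

/-- I6: base change -/
def SBc : Prop := ∀ (k : Type) [Field k] [NumberField k] (l : ℕ) [Fact l.Prime], l ≠ 2 →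
  ∀ (E : Type) [Group E] [Finite E], IsPGroup l E → Occ k E

/-- I7: nilpotent groups -/
def SNil : Prop := ∀ (k : Type) [Field k] [NumberField k] (G : Type) [Group G] [Finite G],
  Group.IsNilpotent G → (∀ (p : ℕ) [Fact p.Prime] (P : Sylow p G), Occ k P) → Occ k G

/-- nilpotent groups whose Sylow 2-subgroup occurs, occur -/
def SOdd : Prop := ∀ (k : Type) [Field k] [NumberField k] (G : Type) [Group G] [Finite G],
  Group.IsNilpotent G → (∀ P : Sylow 2 G, Occ k P) → Occ k G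

end Pool.Agent.H38.SR
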